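import Pool.Agent.H60.LM.Stp

/-! Positivity for all weights. -/

set_option autoImplicit false

open Complex MeasureTheory Filter Topology Set

namespace Pool.Agent.H60.LM

/-- the primitive -/
noncomputable def prim (a : ℝ) (f : ℝ → ℂ) : ℝ → ℂ := fun u => ∫ v in a..u, f v

lemma prim_deriv {a : ℝ} {f : ℝ → ℂ} (hf : Continuous f) (u : ℝ) : HasDerivAt (prim a f) (f u) u :=
  intervalIntegral.integral_hasDerivAt_right (hf.intervalIntegrable _ _) (hf.stronglyMeasurableAtFilter _ _) hf.continuousAt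

lemma prim_cont {a : ℝ} {f : ℝ → ℂ} (hf : Continuous f) : Continuous (prim a f) :=
  continuous_iff_continuousAt.2 fun v => (prim_deriv hf v).continuousAt

lemma prim_a (a : ℝ) (f : ℝ → ℂ) : prim a f a = 0 := intervalIntegral.integral_same

theorem pos_iter {k a b : ℝ} (hk : 1 ≤ k) (hk4 : k < 4) (ha : 0 ≤ a) (hab : a < b) : ∀ (r : ℕ) (f : ℝ → ℂ), Continuous f →
    ∫ u in a..b, ((prim a)^[r] f) u ≠ 0 → PosP k a b f := by
  intro r
  induction r with
  | zero => intro f hf h; exact pos hk hk4 hf ha hab h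
  | succ r ih =>
    intro f hf h
    rw [Function.iterate_succ_apply] at h
    by_cases h0 : ∫ u in a..b, f u = 0
    · exact step hk hk4 hf (prim_deriv hf) ha hab (prim_a a f) h0 (ih _ (prim_cont hf) h)
    · exact pos hk hk4 hf ha hab h0

/-- moments -/
noncomputable def Mo (a b : ℝ) (f : ℝ → ℂ) (i : ℕ) : ℂ := ∫ u in a..b, f u * ((b : ℂ) - u) ^ i

lemma Mo_prim {a b : ℝ} {f : ℝ → ℂ} (hf : Continuous f) (i : ℕ) :
    Mo a b (prim a f) i = (1 / ((i : ℂ) + 1)) * Mo a b f (i + 1) := by
  have hi : ((i : ℂ) + 1) ≠ 0 := by exact_mod_cast (Nat.succ_ne_zero i)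
  have hd : ∀ u : ℝ, HasDerivAt (fun u : ℝ => -(((b : ℂ) - u) ^ (i + 1)) / ((i : ℂ) + 1)) (((b : ℂ) - u) ^ i) u := by
    intro u
    have h1 : HasDerivAt (fun u : ℝ => (b : ℂ) - u) (-1) u := by
      simpa using (Complex.ofRealCLM.hasDerivAt (x := u)).const_sub (b : ℂ)
    have h2 := ((h1.pow (i + 1)).neg).div_const ((i : ℂ) + 1)
    refine HasDerivAt.congr_deriv h2 ?_
    push_cast
    field_simp
  have h := intervalIntegral.integral_mul_deriv_eq_deriv_mul (a := a) (b := b) (u := prim a f)
    (v := fun u : ℝ => -(((b : ℂ) - u) ^ (i + 1)) / ((i : ℂ) + 1)) (u' := f) (v' := fun u : ℝ => ((b : ℂ) - u) ^ i)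
    (fun u _ => prim_deriv hf u) (fun u _ => hd u) (hf.intervalIntegrable _ _)
    ((by fun_prop : Continuous fun u : ℝ => ((b : ℂ) - u) ^ i).intervalIntegrable _ _)
  unfold Mo
  rw [h, prim_a, sub_self, zero_pow (Nat.succ_ne_zero i), neg_zero, zero_div, mul_zero, zero_mul, sub_zero, zero_sub,
    ← intervalIntegral.integral_neg, ← intervalIntegral.integral_const_mul]
  refine intervalIntegral.integral_congr fun u _ => ?_
  ring

lemma Mo_iter {a b : ℝ} : ∀ (r : ℕ) (f : ℝ → ℂ), Continuous f → ∀ i : ℕ, ∃ c : ℂ, c ≠ 0 ∧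
    Mo a b ((prim a)^[r] f) i = c * Mo a b f (i + r) := by
  intro r
  induction r with
  | zero => intro f _ i; exact ⟨1, one_ne_zero, by simp⟩
  | succ r ih =>
    intro f hf i
    obtain ⟨c, hc, h⟩ := ih (prim a f) (prim_cont hf) i
    have hi : (((i + r : ℕ) : ℂ) + 1) ≠ 0 := by exact_mod_cast (Nat.succ_ne_zero (i + r))
    refine ⟨c * (1 / (((i + r : ℕ) : ℂ) + 1)), mul_ne_zero hc (one_div_ne_zero hi), ?_⟩
    rw [Function.iterate_succ_apply, h, Mo_prim hf]
    ring_nf

lemma real_zero {a b : ℝ} (hab : a < b) {g : ℝ → ℝ} (hg : Continuous g)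
    (H : ∀ p : Polynomial ℝ, ∫ u in a..b, g u * p.eval u = 0) : ∀ u ∈ Set.Icc a b, g u = 0 := by
  by_contra hcon
  push Not at hcon
  obtain ⟨u₀, hu₀, hne⟩ := hcon
  have hpos : 0 < ∫ u in a..b, g u * g u :=
    intervalIntegral.integral_pos hab (hg.mul hg).continuousOn (fun u _ => mul_self_nonneg _) ⟨u₀, hu₀, mul_self_pos.2 hne⟩
  obtain ⟨M, hM⟩ := isCompact_Icc.exists_bound_of_continuousOn (s := Set.Icc a b) hg.continuousOn
  have hM0 : 0 ≤ M := (norm_nonneg _).trans (hM u₀ hu₀)
  have hba : 0 < b - a := by linarith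
  set P := ∫ u in a..b, g u * g u with hP
  obtain ⟨p, hp⟩ := exists_polynomial_near_of_continuousOn a b g hg.continuousOn (P / (2 * ((M + 1) * (b - a)))) (by positivity)
  have hpc : Continuous fun u => g u * p.eval u := hg.mul p.continuous
  have hgg : Continuous fun u => g u * g u := hg.mul hg
  have h1 : P = ∫ u in a..b, g u * (g u - p.eval u) := by
    have h2 : ∫ u in a..b, g u * (g u - p.eval u) = (∫ u in a..b, g u * g u) - ∫ u in a..b, g u * p.eval u := by
      rw [← intervalIntegral.integral_sub (hgg.intervalIntegrable _ _) (hpc.intervalIntegrable _ _)]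
      refine intervalIntegral.integral_congr fun u _ => ?_
      ring
    rw [h2, H p, sub_zero]
  have h2 : ‖∫ u in a..b, g u * (g u - p.eval u)‖ ≤ (M * (P / (2 * ((M + 1) * (b - a))))) * |b - a| := by
    refine intervalIntegral.norm_integral_le_of_norm_le_const fun u hu => ?_
    rw [Set.uIoc_of_le hab.le] at hu
    have hu' : u ∈ Set.Icc a b := ⟨hu.1.le, hu.2⟩
    rw [norm_mul]
    refine mul_le_mul (hM u hu') ?_ (norm_nonneg _) hM0
    rw [norm_sub_rev]
    exact (hp u hu').le
  rw [← h1, Real.norm_eq_abs, abs_of_pos hpos, abs_of_pos hba] at h2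
  have h3 : (M * (P / (2 * ((M + 1) * (b - a))))) * (b - a) = P * (M / (2 * (M + 1))) := by field_simp
  have h4 : M / (2 * (M + 1)) < 1 := by rw [div_lt_one (by positivity)]; linarith
  rw [h3] at h2
  nlinarith

theorem ex_iter {a b : ℝ} (hab : a < b) {f : ℝ → ℂ} (hf : Continuous f) (hne : ∃ u ∈ Set.Icc a b, f u ≠ 0) :
    ∃ r : ℕ, ∫ u in a..b, ((prim a)^[r] f) u ≠ 0 := by
  by_contra hcon
  push Not at hcon
  have hM : ∀ r : ℕ, Mo a b f r = 0 := by
    intro r
    obtain ⟨c, hc, h⟩ := Mo_iter (a := a) (b := b) r f hf 0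
    have h1 : Mo a b ((prim a)^[r] f) 0 = ∫ u in a..b, ((prim a)^[r] f) u := by
      unfold Mo; simp
    rw [h1, hcon r, Nat.zero_add] at h
    exact (mul_eq_zero.1 h.symm).resolve_left hc
  -- all polynomials
  have hpol : ∀ p : Polynomial ℝ, ∫ u in a..b, f u * ((p.eval (b - u) : ℝ) : ℂ) = 0 := by
    intro p
    induction p using Polynomial.induction_on' with
    | add p q hp hq =>
      have e1 : ∫ u in a..b, f u * (((p + q).eval (b - u) : ℝ) : ℂ) = (∫ u in a..b, f u * ((p.eval (b - u) : ℝ) : ℂ)) +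
          ∫ u in a..b, f u * ((q.eval (b - u) : ℝ) : ℂ) := by
        rw [← intervalIntegral.integral_add]
        · refine intervalIntegral.integral_congr fun u _ => ?_
          simp only [Polynomial.eval_add]
          push_cast
          ring
        · exact (hf.mul (Complex.continuous_ofReal.comp (p.continuous.comp (by fun_prop)))).intervalIntegrable _ _
        · exact (hf.mul (Complex.continuous_ofReal.comp (q.continuous.comp (by fun_prop)))).intervalIntegrable _ _
      rw [e1, hp, hq, add_zero]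
    | monomial n c =>
      have e1 : ∫ u in a..b, f u * (((Polynomial.monomial n c).eval (b - u) : ℝ) : ℂ) = (c : ℂ) * Mo a b f n := by
        unfold Mo
        rw [← intervalIntegral.integral_const_mul]
        refine intervalIntegral.integral_congr fun u _ => ?_
        simp only [Polynomial.eval_monomial]
        push_cast
        ring
      rw [e1, hM, mul_zero]
  have hpol2 : ∀ p : Polynomial ℝ, ∫ u in a..b, f u * ((p.eval u : ℝ) : ℂ) = 0 := by
    intro p
    have h1 := hpol (p.comp (Polynomial.C b - Polynomial.X))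
    rw [← h1]
    refine intervalIntegral.integral_congr fun u _ => ?_
    simp only [Polynomial.eval_comp, Polynomial.eval_sub, Polynomial.eval_C, Polynomial.eval_X, sub_sub_cancel]
  have hint : ∀ p : Polynomial ℝ, IntervalIntegrable (fun u => f u * ((p.eval u : ℝ) : ℂ)) volume a b := fun p =>
    (hf.mul (Complex.continuous_ofReal.comp p.continuous)).intervalIntegrable _ _
  have hre : ∀ p : Polynomial ℝ, ∫ u in a..b, (f u).re * p.eval u = 0 := by
    intro p
    have h1 := Complex.reCLM.intervalIntegral_comp_comm (hint p)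
    rw [hpol2 p] at h1
    simp only [Complex.reCLM_apply, Complex.zero_re, Complex.re_mul_ofReal] at h1
    exact h1
  have him : ∀ p : Polynomial ℝ, ∫ u in a..b, (f u).im * p.eval u = 0 := by
    intro p
    have h1 := Complex.imCLM.intervalIntegral_comp_comm (hint p)
    rw [hpol2 p] at h1
    simp only [Complex.imCLM_apply, Complex.zero_im, Complex.im_mul_ofReal] at h1
    exact h1
  obtain ⟨u₀, hu₀, hu1⟩ := hne
  apply hu1
  apply Complex.ext
  · exact real_zero hab (Complex.continuous_re.comp hf) hre u₀ hu₀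
  · exact real_zero hab (Complex.continuous_im.comp hf) him u₀ hu₀

/-- positivity for all weights -/
theorem pos_all {k a b : ℝ} (hk : 1 ≤ k) (hk4 : k < 4) (ha : 0 ≤ a) (hab : a < b) {f : ℝ → ℂ} (hf : Continuous f)
    (hne : ∃ u ∈ Set.Icc a b, f u ≠ 0) : PosP k a b f := by
  obtain ⟨r, hr⟩ := ex_iter hab hf hne
  exact pos_iter hk hk4 ha hab r f hf hr

end Pool.Agent.H60.LM
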