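import Pool.Agent.H60.LM.Hom

/-! The Gaussian description of the limits. -/

set_option autoImplicit false

open Complex MeasureTheory Filter Topology Set ProbabilityTheory

namespace Pool.Agent.H60.LM

open Pool.Agent.V11128.CXL (el kl om ix mC CC Rm xv yv)
open Pool.Agent.Y753.SHL (Nor lf qf)

/-- a normal law on `ι → ℂ` -/
def NL (k : ℝ) {ι : Type} [Fintype ι] (x : ι → ℝ) (ρ : Measure (ι → ℂ)) : Prop :=
  ∀ c : ι → ℂ, 0 ≤ (∑ q, ∑ r, (starRingEnd ℂ) (c q) * c r * (el (x q) + el (-x r) - el (x q - x r))).re ∧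
    ρ.map (fun y => (∑ q, (starRingEnd ℂ) (c q) * y q).re) =
      gaussianReal (∑ q, (starRingEnd ℂ) (c q) * (-(k / 2 : ℂ) * el (x q))).re
        ((∑ q, ∑ r, (starRingEnd ℂ) (c q) * c r * (el (x q) + el (-x r) - el (x q - x r))).re / 2).toNNReal

/-- the complex vector -/
noncomputable def cx {ι : Type} {N : ℕ} (e : ι → Fin N) (v : Fin (N + N) → ℝ) : ι → ℂ :=
  fun q => (yv v (e q) : ℂ) + (xv v (e q) : ℂ) * I

lemma cx_cont {ι : Type} {N : ℕ} (e : ι → Fin N) : Continuous (cx e) := by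
  refine continuous_pi fun q => ?_
  unfold cx yv xv
  fun_prop

theorem law {N : ℕ} {ι : Type} [Fintype ι] (e : ι ≃ Fin N) {k : ℝ} {x : Fin N → ℝ} {ρ : ProbabilityMeasure (Fin (N + N) → ℝ)}
    (h : Nor (mC k x) (CC x) ρ) : NL k (fun q => x (e q)) ((ρ : Measure (Fin (N + N) → ℝ)).map (cx e)) := by
  intro c
  set c' : Fin (N + N) → ℝ := Fin.addCases (fun j => (c (e.symm j)).re) (fun j => (c (e.symm j)).im) with hc'
  have hl : ∀ j, c' (Fin.castAdd N j) = (c (e.symm j)).re := fun j => by simp only [hc', Fin.addCases_left]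
  have hr : ∀ j, c' (Fin.natAdd N j) = (c (e.symm j)).im := fun j => by simp only [hc', Fin.addCases_right]
  have hlr : ∀ j, (c' (Fin.castAdd N j) : ℂ) + (c' (Fin.natAdd N j) : ℂ) * -I = (starRingEnd ℂ) (c (e.symm j)) := by
    intro j
    rw [hl, hr]
    apply Complex.ext <;> simp
  obtain ⟨h1, h2⟩ := h c'
  have eq : qf (CC x) c' = (∑ q, ∑ r, (starRingEnd ℂ) (c q) * c r * (el (x (e q)) + el (-x (e r)) - el (x (e q) - x (e r)))).re / 2 := by
    rw [Pool.Agent.V11128.CXL.CC_qf]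
    congr 2
    rw [← Equiv.sum_comp e]
    refine Finset.sum_congr rfl fun q _ => ?_
    rw [← Equiv.sum_comp e]
    refine Finset.sum_congr rfl fun r _ => ?_
    rw [hlr, hlr, Complex.conj_conj, Equiv.symm_apply_apply, Equiv.symm_apply_apply]
    rfl
  have em : lf c' (mC k x) = (∑ q, (starRingEnd ℂ) (c q) * (-(k / 2 : ℂ) * el (x (e q)))).re := by
    unfold lf mC
    rw [Fin.sum_univ_add, ← Finset.sum_add_distrib, Complex.re_sum, ← Equiv.sum_comp e]
    refine Finset.sum_congr rfl fun q _ => ?_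
    rw [Pool.Agent.V11128.CXL.om_l, Pool.Agent.V11128.CXL.om_r, Pool.Agent.V11128.CXL.ix_l, Pool.Agent.V11128.CXL.ix_r,
      hl, hr, Equiv.symm_apply_apply]
    simp only [Complex.mul_re, Complex.conj_re, Complex.conj_im, Complex.one_re, Complex.one_im, Complex.neg_re, Complex.neg_im,
      Complex.I_re, Complex.I_im]
    ring
  rw [eq] at h1 h2
  rw [em] at h2
  refine ⟨by linarith, ?_⟩
  rw [Measure.map_map]
  · rw [← h2]
    congr 1
    funext v
    simp only [Function.comp]
    unfold lf cx yv xv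
    rw [Fin.sum_univ_add, ← Finset.sum_add_distrib, Complex.re_sum, ← Equiv.sum_comp e]
    refine Finset.sum_congr rfl fun q _ => ?_
    rw [hl, hr, Equiv.symm_apply_apply]
    simp
  · refine Continuous.measurable ?_
    exact Complex.continuous_re.comp (continuous_finsetSum _ fun q _ => continuous_const.mul (continuous_apply q))
  · exact (cx_cont e).measurable

/-- laws of Riemann sums -/
theorem rs_lim2 {m : ℕ} {k : ℝ} (hk : 0 < k) (hk4 : k ≤ 4) {Φ : (Fin m → ℂ) → ℝ} (hc : Continuous Φ)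
    (hh : Pool.Agent.V11128.CXL.Hom k Φ) (f : Fin m → ℝ → ℂ) (a b : Fin m → ℝ) {h : ℝ → ℝ}
    (h0 : Tendsto h atTop (𝓝 0)) (hL : Tendsto (fun T : ℝ => h T * Real.log T) atTop atTop) {ε : ℝ} (hε : 0 < ε) (n : ℕ) :
    ∃ ρ : Measure (Fin m × Fin n → ℂ), NL k (fun q : Fin m × Fin n => up (a q.1) (b q.1) n q.2 / ε) ρ ∧
    Integrable (fun y : Fin m × Fin n → ℂ => Φ (fun j => ∑ i : Fin n, wt (f j) (a j) (b j) n i * Complex.exp (y (j, i)))) ρ ∧
    Tendsto (fun T : ℝ => h T ^ (k ^ 2 / 4) / T *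
      ∫ t in Set.Icc 0 T, Φ (fun j => rs (f j) (a j) (b j) (h T) (ε * h T) n t)) atTop
      (𝓝 (Pool.Agent.H306R2.aF (k / 2) * ((2 * ε) ^ (-(k ^ 2 / 4)) *
        ∫ y, Φ (fun j => ∑ i : Fin n, wt (f j) (a j) (b j) n i * Complex.exp (y (j, i))) ∂ρ))) := by
  have hδ : Tendsto (fun T => ε * h T) atTop (𝓝 0) := by simpa using h0.const_mul ε
  have hδL : Tendsto (fun T : ℝ => (ε * h T) * Real.log T) atTop atTop :=
    (hL.const_mul_atTop hε).congr fun T => by ring
  let e := finProdFinEquiv (m := m) (n := n)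
  obtain ⟨ρ, hN, hρ⟩ := Pool.Agent.V11128.CXL.homog_full hδ hδL hk hk4
    (fun q : Fin (m * n) => up (a (e.symm q).1) (b (e.symm q).1) n (e.symm q).2 / ε)
  set Φ' : (Fin (m * n) → ℂ) → ℝ := fun z =>
    Φ (fun j => ∑ i : Fin n, wt (f j) (a j) (b j) n i * z (e (j, i))) with hΦ'
  have hc' : Continuous Φ' := by
    refine hc.comp (continuous_pi fun j => continuous_finsetSum _ fun i _ => ?_)
    exact continuous_const.mul (continuous_apply _)
  have hh' : Pool.Agent.V11128.CXL.Hom k Φ' := by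
    intro l z
    simp only [hΦ']
    rw [← hh l]
    congr 1
    funext j
    rw [Finset.mul_sum]
    refine Finset.sum_congr rfl fun i _ => ?_
    ring
  obtain ⟨hint, hlim⟩ := hρ Φ' hc' hh'
  have hlaw := law e hN
  have hGc : Continuous fun y : Fin m × Fin n → ℂ => Φ (fun j => ∑ i : Fin n, wt (f j) (a j) (b j) n i * Complex.exp (y (j, i))) := by
    refine hc.comp (continuous_pi fun j => continuous_finsetSum _ fun i _ => ?_)
    exact continuous_const.mul (Complex.continuous_exp.comp (continuous_apply _))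
  have hcomp : ∀ v, Φ' (Rm v) = (fun y : Fin m × Fin n → ℂ =>
      Φ (fun j => ∑ i : Fin n, wt (f j) (a j) (b j) n i * Complex.exp (y (j, i)))) (cx e v) := by
    intro v
    simp only [hΦ']
    rfl
  refine ⟨(ρ : Measure (Fin (m * n + m * n) → ℝ)).map (cx e), ?_, ?_, ?_⟩
  · convert hlaw using 2 with q
    rw [Equiv.symm_apply_apply]
  · rw [integrable_map_measure hGc.aestronglyMeasurable (cx_cont e).measurable.aemeasurable]
    exact hint.congr (Eventually.of_forall fun v => hcomp v)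
  · rw [integral_map (cx_cont e).measurable.aemeasurable hGc.aestronglyMeasurable]
    have e0 : ∫ v, Φ (fun j => ∑ i : Fin n, wt (f j) (a j) (b j) n i * Complex.exp (cx e v (j, i))) ∂(ρ : Measure (Fin (m * n + m * n) → ℝ)) =
        ∫ v, Φ' (Rm v) ∂(ρ : Measure (Fin (m * n + m * n) → ℝ)) := integral_congr_ae (Eventually.of_forall fun v => (hcomp v).symm)
    rw [e0]
    refine ((hlim.const_mul ((2 * ε) ^ (-(k ^ 2 / 4)))).congr' ?_).trans (by rw [mul_left_comm])
    filter_upwards [ev_pos hL] with T hT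
    have e1 : (2 * (ε * h T)) ^ ((k / 2) ^ 2) = (2 * ε) ^ (k ^ 2 / 4) * h T ^ (k ^ 2 / 4) := by
      rw [← Real.mul_rpow (by positivity) hT.le]
      congr 1 <;> ring
    have e2 : ∀ t : ℝ, Φ' (fun q => Pool.Agent.V11128.CXL.zc (ε * h T)
        (up (a (e.symm q).1) (b (e.symm q).1) n (e.symm q).2 / ε) t) =
        Φ (fun j => rs (f j) (a j) (b j) (h T) (ε * h T) n t) := by
      intro t
      simp only [hΦ']
      congr 1
      funext j
      unfold rs
      rw [Finset.sum_range (fun i => wt (f j) (a j) (b j) n i * zx (ε * h T) (t + h T * up (a j) (b j) n i))]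
      refine Finset.sum_congr rfl fun i _ => ?_
      rw [Equiv.symm_apply_apply]
      congr 1
      unfold Pool.Agent.V11128.CXL.zc zx
      rw [H370.mk_eq]
      congr 1
      push_cast
      have : (ε : ℂ) ≠ 0 := by exact_mod_cast hε.ne'
      field_simp
    simp only [e2]
    rw [e1]
    have h2 : (2 * ε) ^ (-(k ^ 2 / 4)) * (2 * ε) ^ (k ^ 2 / 4) = 1 := by
      rw [← Real.rpow_add (by positivity)]; simp
    rw [← mul_assoc, ← mul_div_assoc, ← mul_assoc, h2, one_mul]

end Pool.Agent.H60.LM
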