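import Pool.Agent.H60.LM.All
import Pool.Agent.H60.LM.Gau

/-! The constants. -/

set_option autoImplicit false

open Complex MeasureTheory Filter Topology Set

namespace Pool.Agent.H60.LM

/-- the distances -/
noncomputable def eps (n : ℕ) : ℝ := (n : ℝ) ^ (-(1 / 4 : ℝ))

lemma eps_pos {n : ℕ} (hn : 0 < n) : 0 < eps n := by
  have : (0 : ℝ) < n := by exact_mod_cast hn
  unfold eps; positivity

/-- small errors -/
lemma ev_eps {k : ℝ} (hk : 1 ≤ k) (hk4 : k < 4) {C δ : ℝ} (hC : 0 < C) (hδ : 0 < δ) : ∀ᶠ n : ℕ in atTop,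
    C * (eps n ^ (k - k ^ 2 / 4) + eps n ^ (-(k ^ 2 / 4) - k) * ((n : ℝ)⁻¹) ^ k) ≤ δ := by
  have hk0 : 0 < k := by linarith
  have h1 : Tendsto (fun n : ℕ => C * ((n : ℝ) ^ (-(((k - k ^ 2 / 4) / 4))) + (n : ℝ) ^ (-(3 * k / 4 - k ^ 2 / 16)))) atTop
      (𝓝 (C * (0 + 0))) := by
    refine Tendsto.const_mul C (Tendsto.add ?_ ?_)
    · exact (tendsto_rpow_neg_atTop (by nlinarith)).comp tendsto_natCast_atTop_atTop
    · exact (tendsto_rpow_neg_atTop (by nlinarith)).comp tendsto_natCast_atTop_atTop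
  rw [add_zero, mul_zero] at h1
  filter_upwards [h1.eventually_le_const hδ, eventually_gt_atTop 0] with n h2 hn
  have hn0 : (0 : ℝ) < n := by exact_mod_cast hn
  refine le_trans (le_of_eq ?_) h2
  congr 2
  · unfold eps
    rw [← Real.rpow_mul hn0.le]
    congr 1
    ring
  · unfold eps
    rw [← Real.rpow_mul hn0.le, Real.inv_rpow hn0.le, ← Real.rpow_neg hn0.le, ← Real.rpow_add hn0]
    congr 1
    ring

/-- approximation of the moments by those of Riemann sums -/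
theorem approx {m : ℕ} {k : ℝ} (hk : 1 ≤ k) (hk4 : k < 4) {f : Fin m → ℝ → ℂ} (hf : ∀ j, ContDiff ℝ 1 (f j))
    {a b : Fin m → ℝ} (ha : ∀ j, 0 ≤ a j) (hab : ∀ j, a j < b j) {Φ : (Fin m → ℂ) → ℝ} (hc : Continuous Φ)
    (hh : Pool.Agent.V11128.CXL.Hom k Φ) {h : ℝ → ℝ} (h0 : Tendsto h atTop (𝓝 0))
    (hL : Tendsto (fun T : ℝ => h T * Real.log T) atTop atTop) :
    ∀ η : ℝ, 0 < η → ∀ᶠ n : ℕ in atTop, ∀ᶠ T : ℝ in atTop,
      |h T ^ (k ^ 2 / 4) / T * (∫ t in (0:ℝ)..T, Φ (fun j => lm (f j) (a j) (b j) (h T) 0 t)) -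
        h T ^ (k ^ 2 / 4) / T * ∫ t in Set.Icc 0 T, Φ (fun j => rs (f j) (a j) (b j) (h T) (eps n * h T) n t)| ≤ η := by
  have hk0 : 0 < k := by linarith
  choose M hM0 hM using fun j => lm_bdd hk hk4 (hf j) (ha j) (hab j) h0 hL
  choose C hC hd using fun j => diff_bound hk hk4 (hf j) (ha j) (hab j)
  set MS := ∑ j, M j with hMS
  have hMS0 : 0 ≤ MS := Finset.sum_nonneg fun j _ => hM0 j
  set CS := 1 + ∑ j, C j with hCS
  have hCS0 : 0 < CS := by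
    have : 0 ≤ ∑ j, C j := Finset.sum_nonneg fun j _ => (hC j).le
    rw [hCS]; linarith
  intro η hη
  obtain ⟨D, hD, hmod⟩ := hom_mod hk0 hc hh (η := η / (2 * (MS + 1))) (by positivity)
  filter_upwards [ev_eps hk hk4 (C := D * CS) (δ := η / 2) (by positivity) (by positivity), eventually_gt_atTop 0] with n hsmall hn
  obtain ⟨ε, hεd⟩ : ∃ ε : ℝ, ε = eps n := ⟨_, rfl⟩
  have hε : 0 < ε := by rw [hεd]; exact eps_pos hn
  rw [← hεd] at hsmall ⊢
  filter_upwards [eventually_all.2 hM, eventually_all.2 fun j => hd j h h0 hL ε hε n hn, ev_pos hL,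
    h0.eventually (gt_mem_nhds (show (0 : ℝ) < 1 / (4 * ε) by positivity)), eventually_gt_atTop (0 : ℝ)] with T h1 h2 h3 h4 h5
  have hx : ε * h T ≤ 1 / 4 := by
    have := mul_le_mul_of_nonneg_left h4.le hε.le
    have e : ε * (1 / (4 * ε)) = 1 / 4 := by field_simp
    linarith
  have hT' : 0 ≤ h T ^ (k ^ 2 / 4) / T := by positivity
  rw [integral_Icc_eq_integral_Ioc, ← intervalIntegral.integral_of_le h5.le, ← mul_sub]
  have c0 := fun j => lm_cont (hf j).continuous (a j) (b j) (h T) (x := 0) (by norm_num)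
  have c2 := fun j => rs_cont (f j) (a j) (b j) (h T) hx n
  have p0 : Continuous fun t => Φ (fun j => lm (f j) (a j) (b j) (h T) 0 t) := hc.comp (continuous_pi c0)
  have p2 : Continuous fun t => Φ (fun j => rs (f j) (a j) (b j) (h T) (ε * h T) n t) := hc.comp (continuous_pi c2)
  rw [← intervalIntegral.integral_sub (p0.intervalIntegrable _ _) (p2.intervalIntegrable _ _), abs_mul, abs_of_nonneg hT']
  have i1 : ∀ j, Continuous fun t => ‖lm (f j) (a j) (b j) (h T) 0 t - rs (f j) (a j) (b j) (h T) (ε * h T) n t‖ ^ k :=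
    fun j => ((c0 j).sub (c2 j)).norm.rpow_const fun _ => Or.inr hk0.le
  have i3 : ∀ j, Continuous fun t => ‖lm (f j) (a j) (b j) (h T) 0 t‖ ^ k :=
    fun j => (c0 j).norm.rpow_const fun _ => Or.inr hk0.le
  have s1 : Continuous fun t => ∑ j, ‖lm (f j) (a j) (b j) (h T) 0 t - rs (f j) (a j) (b j) (h T) (ε * h T) n t‖ ^ k :=
    continuous_finsetSum _ fun j _ => i1 j
  have s3 : Continuous fun t => ∑ j, ‖lm (f j) (a j) (b j) (h T) 0 t‖ ^ k := continuous_finsetSum _ fun j _ => i3 j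
  have s4 : Continuous fun t => η / (2 * (MS + 1)) * (∑ j, ‖lm (f j) (a j) (b j) (h T) 0 t‖ ^ k) := continuous_const.mul s3
  have s5 : Continuous fun t => D * ∑ j, ‖lm (f j) (a j) (b j) (h T) 0 t - rs (f j) (a j) (b j) (h T) (ε * h T) n t‖ ^ k :=
    continuous_const.mul s1
  have s6 : Continuous fun t => η / (2 * (MS + 1)) * (∑ j, ‖lm (f j) (a j) (b j) (h T) 0 t‖ ^ k) +
      D * ∑ j, ‖lm (f j) (a j) (b j) (h T) 0 t - rs (f j) (a j) (b j) (h T) (ε * h T) n t‖ ^ k := s4.add s5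
  have h7 : |∫ t in (0:ℝ)..T, (Φ (fun j => lm (f j) (a j) (b j) (h T) 0 t) -
      Φ (fun j => rs (f j) (a j) (b j) (h T) (ε * h T) n t))| ≤
      ∫ t in (0:ℝ)..T, (η / (2 * (MS + 1)) * (∑ j, ‖lm (f j) (a j) (b j) (h T) 0 t‖ ^ k) +
      D * ∑ j, ‖lm (f j) (a j) (b j) (h T) 0 t - rs (f j) (a j) (b j) (h T) (ε * h T) n t‖ ^ k) := by
    rw [← Real.norm_eq_abs]
    refine intervalIntegral.norm_integral_le_of_norm_le h5.le (ae_of_all _ fun t _ => ?_) (s6.intervalIntegrable _ _)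
    rw [Real.norm_eq_abs, abs_sub_comm]
    refine (hmod _ _).trans (le_of_eq ?_)
    congr 2
    refine Finset.sum_congr rfl fun j _ => ?_
    rw [norm_sub_rev]
  rw [intervalIntegral.integral_add (s4.intervalIntegrable _ _) (s5.intervalIntegrable _ _),
    intervalIntegral.integral_const_mul, intervalIntegral.integral_const_mul,
    intervalIntegral.integral_finsetSum (fun j _ => (i3 j).intervalIntegrable _ _),
    intervalIntegral.integral_finsetSum (fun j _ => (i1 j).intervalIntegrable _ _)] at h7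
  have h8 : h T ^ (k ^ 2 / 4) / T * ∑ j, ∫ t in (0:ℝ)..T, ‖lm (f j) (a j) (b j) (h T) 0 t‖ ^ k ≤ MS := by
    rw [Finset.mul_sum]
    exact Finset.sum_le_sum fun j _ => h1 j
  set E := ε ^ (k - k ^ 2 / 4) + ε ^ (-(k ^ 2 / 4) - k) * ((n : ℝ)⁻¹) ^ k with hE
  have hE0 : 0 ≤ E := by positivity
  have h9 : h T ^ (k ^ 2 / 4) / T * ∑ j, ∫ t in (0:ℝ)..T,
      ‖lm (f j) (a j) (b j) (h T) 0 t - rs (f j) (a j) (b j) (h T) (ε * h T) n t‖ ^ k ≤ CS * E := by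
    rw [Finset.mul_sum]
    refine (Finset.sum_le_sum fun j _ => h2 j).trans ?_
    rw [← Finset.sum_mul]
    exact mul_le_mul_of_nonneg_right (by rw [hCS]; linarith) hE0
  calc h T ^ (k ^ 2 / 4) / T * |∫ t in (0:ℝ)..T, (Φ (fun j => lm (f j) (a j) (b j) (h T) 0 t) -
      Φ (fun j => rs (f j) (a j) (b j) (h T) (ε * h T) n t))| ≤ h T ^ (k ^ 2 / 4) / T *
        (η / (2 * (MS + 1)) * (∑ j, ∫ t in (0:ℝ)..T, ‖lm (f j) (a j) (b j) (h T) 0 t‖ ^ k) +
        D * ∑ j, ∫ t in (0:ℝ)..T, ‖lm (f j) (a j) (b j) (h T) 0 t - rs (f j) (a j) (b j) (h T) (ε * h T) n t‖ ^ k) :=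
        mul_le_mul_of_nonneg_left h7 hT'
    _ = η / (2 * (MS + 1)) * (h T ^ (k ^ 2 / 4) / T * ∑ j, ∫ t in (0:ℝ)..T, ‖lm (f j) (a j) (b j) (h T) 0 t‖ ^ k) +
        D * (h T ^ (k ^ 2 / 4) / T * ∑ j, ∫ t in (0:ℝ)..T,
          ‖lm (f j) (a j) (b j) (h T) 0 t - rs (f j) (a j) (b j) (h T) (ε * h T) n t‖ ^ k) := by ring
    _ ≤ η / (2 * (MS + 1)) * MS + D * (CS * E) := by gcongr
    _ ≤ η / 2 + η / 2 := by
        refine add_le_add ?_ (le_trans (le_of_eq (by ring)) hsmall)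
        rw [div_mul_eq_mul_div, div_le_div_iff₀ (by positivity) (by norm_num)]
        nlinarith
    _ = η := by ring

/-- the constants -/
theorem expl {m : ℕ} {k : ℝ} (hk : 1 ≤ k) (hk4 : k < 4) {f : Fin m → ℝ → ℂ} (hf : ∀ j, ContDiff ℝ 1 (f j))
    {a b : Fin m → ℝ} (ha : ∀ j, 0 ≤ a j) (hab : ∀ j, a j < b j) {Φ : (Fin m → ℂ) → ℝ} (hc : Continuous Φ)
    (hh : Pool.Agent.V11128.CXL.Hom k Φ) : ∃ G : ℝ,
    (∃ ρ : (n : ℕ) → Measure (Fin m × Fin n → ℂ),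
      (∀ n : ℕ, 0 < n → NL k (fun q : Fin m × Fin n => up (a q.1) (b q.1) n q.2 / eps n) (ρ n) ∧
        Integrable (fun y : Fin m × Fin n → ℂ => Φ (fun j => ∑ i : Fin n, wt (f j) (a j) (b j) n i * Complex.exp (y (j, i)))) (ρ n)) ∧
      Tendsto (fun n : ℕ => (2 * eps n) ^ (-(k ^ 2 / 4)) *
        ∫ y, Φ (fun j => ∑ i : Fin n, wt (f j) (a j) (b j) n i * Complex.exp (y (j, i))) ∂(ρ n)) atTop (𝓝 G)) ∧
    ∀ ε : ℝ, 0 < ε → ∃ c T₀ : ℝ, 0 < c ∧ ∀ T : ℝ, T₀ ≤ T → ∀ h : ℝ, c / Real.log T ≤ h → h ≤ 1 / c →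
      |h ^ (k ^ 2 / 4) * (T⁻¹ * ∫ t in (0:ℝ)..T, Φ (fun j => lm (f j) (a j) (b j) h 0 t)) -
        Pool.Agent.H306R2.aF (k / 2) * G| ≤ ε := by
  have hk0 : 0 < k := by linarith
  have haF : 0 < Pool.Agent.H306R2.aF (k / 2) := Pool.Agent.H306R2.aF_pos (by positivity)
  obtain ⟨C, hC⟩ := unif (Q := fun T h => h ^ (k ^ 2 / 4) *
      (T⁻¹ * ∫ t in (0:ℝ)..T, Φ (fun j => lm (f j) (a j) (b j) h 0 t))) fun h h0 hL => by
    obtain ⟨ℓ, hℓ⟩ := lim hk hk4 hf ha hab hc hh h0 hL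
    refine ⟨ℓ, hℓ.congr fun T => ?_⟩
    rw [div_eq_mul_inv, mul_assoc]
  obtain ⟨a1, a2⟩ := h0_seq
  obtain ⟨h, hhd⟩ : ∃ h : ℝ → ℝ, h = fun T : ℝ => (Real.log T) ^ (-(1 / 2 : ℝ)) := ⟨_, rfl⟩
  have b1 : Tendsto h atTop (𝓝 0) := by rw [hhd]; exact a1
  have b2 : Tendsto (fun T : ℝ => h T * Real.log T) atTop atTop := by rw [hhd]; exact a2
  -- the limit along the window
  have hA : Tendsto (fun T : ℝ => h T ^ (k ^ 2 / 4) / T * ∫ t in (0:ℝ)..T, Φ (fun j => lm (f j) (a j) (b j) (h T) 0 t)) atTop (𝓝 C) := by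
    rw [Metric.tendsto_atTop]
    intro ε hε
    obtain ⟨c, T₀, hc0, hu⟩ := hC (ε / 2) (by positivity)
    have hev := (eventually_ge_atTop (max T₀ 3)).and
      ((b2.eventually_ge_atTop c).and (b1.eventually (gt_mem_nhds (show (0 : ℝ) < 1 / c by positivity))))
    obtain ⟨N, hN⟩ := eventually_atTop.1 hev
    refine ⟨N, fun T hT => ?_⟩
    obtain ⟨t2, t3, t4⟩ := hN T hT
    have hT3 : 3 ≤ T := (le_max_right _ _).trans t2
    have hlog : 0 < Real.log T := Real.log_pos (by linarith)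
    have h5 := hu T ((le_max_left _ _).trans t2) (h T) (by rw [div_le_iff₀ hlog]; exact t3) t4.le
    rw [Real.dist_eq, div_eq_mul_inv, mul_assoc]
    linarith
  have hρ : ∀ n : ℕ, ∃ ρ : Measure (Fin m × Fin n → ℂ), 0 < n →
      (NL k (fun q : Fin m × Fin n => up (a q.1) (b q.1) n q.2 / eps n) ρ ∧
      Integrable (fun y : Fin m × Fin n → ℂ => Φ (fun j => ∑ i : Fin n, wt (f j) (a j) (b j) n i * Complex.exp (y (j, i)))) ρ ∧
      Tendsto (fun T : ℝ => h T ^ (k ^ 2 / 4) / T *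
        ∫ t in Set.Icc 0 T, Φ (fun j => rs (f j) (a j) (b j) (h T) (eps n * h T) n t)) atTop
        (𝓝 (Pool.Agent.H306R2.aF (k / 2) * ((2 * eps n) ^ (-(k ^ 2 / 4)) *
          ∫ y, Φ (fun j => ∑ i : Fin n, wt (f j) (a j) (b j) n i * Complex.exp (y (j, i))) ∂ρ)))) := by
    intro n
    rcases Nat.eq_zero_or_pos n with hn | hn
    · exact ⟨0, fun h => absurd h (by omega)⟩
    · obtain ⟨ρ, hρ⟩ := rs_lim2 hk0 hk4.le hc hh f a b b1 b2 (eps_pos hn) n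
      exact ⟨ρ, fun _ => hρ⟩
  choose ρ hρ using hρ
  refine ⟨C / Pool.Agent.H306R2.aF (k / 2), ⟨ρ, fun n hn => ⟨(hρ n hn).1, (hρ n hn).2.1⟩, ?_⟩, ?_⟩
  · have hmul : Tendsto (fun n : ℕ => Pool.Agent.H306R2.aF (k / 2) * ((2 * eps n) ^ (-(k ^ 2 / 4)) *
        ∫ y, Φ (fun j => ∑ i : Fin n, wt (f j) (a j) (b j) n i * Complex.exp (y (j, i))) ∂(ρ n))) atTop (𝓝 C) := by
      rw [Metric.tendsto_atTop]
      intro ε hε
      have hev := (approx hk hk4 hf ha hab hc hh b1 b2 (ε / 2) (by positivity)).and (eventually_gt_atTop 0)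
      obtain ⟨N, hN⟩ := eventually_atTop.1 hev
      refine ⟨N, fun n hn => ?_⟩
      obtain ⟨h1, h2⟩ := hN n hn
      have h3 := (hA.sub (hρ n h2).2.2).abs
      have h4 := le_of_tendsto h3 h1
      rw [Real.dist_eq, abs_sub_comm]
      linarith
    have h5 := hmul.div_const (Pool.Agent.H306R2.aF (k / 2))
    refine h5.congr fun n => ?_
    rw [mul_div_cancel_left₀ _ haF.ne']
  · intro ε hε
    obtain ⟨c, T₀, hc0, hu⟩ := hC ε hε
    refine ⟨c, T₀, hc0, fun T hT h' h1 h2 => ?_⟩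
    rw [mul_div_cancel₀ _ haF.ne']
    exact hu T hT h' h1 h2

end Pool.Agent.H60.LM
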