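import Pool.Agent.H60.LM.Rie

/-! Homogeneous functions; laws of Riemann sums; the derivative. -/

set_option autoImplicit false

open Complex MeasureTheory Filter Topology Set

namespace Pool.Agent.H60.LM

lemma sup_le_sum {m : ℕ} {k : ℝ} (hk : 0 < k) (z : Fin m → ℂ) : ‖z‖ ^ k ≤ ∑ j, ‖z j‖ ^ k := by
  have hS : 0 ≤ ∑ j, ‖z j‖ ^ k := Finset.sum_nonneg fun j _ => Real.rpow_nonneg (norm_nonneg _) _
  have h4 : ‖z‖ ≤ (∑ j, ‖z j‖ ^ k) ^ (1 / k) := by
    rw [pi_norm_le_iff_of_nonneg (Real.rpow_nonneg hS _)]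
    intro j
    have h5 : ‖z j‖ ^ k ≤ ∑ j, ‖z j‖ ^ k :=
      Finset.single_le_sum (f := fun j => ‖z j‖ ^ k) (fun i _ => Real.rpow_nonneg (norm_nonneg _) _) (Finset.mem_univ j)
    have h6 := Real.rpow_le_rpow (Real.rpow_nonneg (norm_nonneg _) _) h5 (show 0 ≤ 1 / k by positivity)
    rwa [← Real.rpow_mul (norm_nonneg _), mul_one_div_cancel hk.ne', Real.rpow_one] at h6
  have h5 := Real.rpow_le_rpow (norm_nonneg z) h4 hk.le
  rwa [← Real.rpow_mul hS, one_div_mul_cancel hk.ne', Real.rpow_one] at h5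

lemma sum_le_sup {m : ℕ} {k : ℝ} (hk : 0 < k) (z : Fin m → ℂ) : ∑ j, ‖z j‖ ^ k ≤ m * ‖z‖ ^ k := by
  calc ∑ j, ‖z j‖ ^ k ≤ ∑ _j : Fin m, ‖z‖ ^ k :=
        Finset.sum_le_sum fun j _ => Real.rpow_le_rpow (norm_nonneg _) (norm_le_pi_norm z j) hk.le
    _ = m * ‖z‖ ^ k := by rw [Finset.sum_const, Finset.card_univ, Fintype.card_fin, nsmul_eq_mul]

theorem hom_mod {m : ℕ} {k : ℝ} (hk : 0 < k) {Φ : (Fin m → ℂ) → ℝ} (hc : Continuous Φ)
    (hh : Pool.Agent.V11128.CXL.Hom k Φ) {η : ℝ} (hη : 0 < η) :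
    ∃ C : ℝ, 0 < C ∧ ∀ z w : Fin m → ℂ, |Φ z - Φ w| ≤ η * (∑ j, ‖w j‖ ^ k) + C * ∑ j, ‖z j - w j‖ ^ k := by
  obtain ⟨C0, hC0, hbd⟩ := Pool.Agent.V11128.CXL.hom_bound hk hc hh
  have huc := (isCompact_closedBall (0 : Fin m → ℂ) 2).uniformContinuousOn_of_continuous hc.continuousOn
  rw [Metric.uniformContinuousOn_iff_le] at huc
  obtain ⟨ρ0, hρ0, huc⟩ := huc η hη
  set ρ := min ρ0 1 with hρ
  have hρp : 0 < ρ := lt_min hρ0 one_pos
  have hρ1 : ρ ≤ 1 := min_le_right _ _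
  refine ⟨C0 * (m + 1) * ((1 + 1 / ρ) ^ k + (1 / ρ) ^ k) + C0 + 1, by positivity, fun z w => ?_⟩
  have hSw : 0 ≤ ∑ j, ‖w j‖ ^ k := Finset.sum_nonneg fun j _ => Real.rpow_nonneg (norm_nonneg _) _
  have hSd : 0 ≤ ∑ j, ‖z j - w j‖ ^ k := Finset.sum_nonneg fun j _ => Real.rpow_nonneg (norm_nonneg _) _
  have hMp : 0 ≤ C0 * (m + 1) * ((1 + 1 / ρ) ^ k + (1 / ρ) ^ k) := by positivity
  rcases eq_or_ne w 0 with hw | hw
  · have h0 : Φ w = 0 := by
      have h1 := hh 0 w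
      rw [norm_zero, Real.zero_rpow hk.ne', zero_mul] at h1
      rw [← h1, hw]
      congr 1
      funext j; simp
    rw [h0, sub_zero]
    have h1 := hbd z
    have h2 : ∑ j, ‖z j - w j‖ ^ k = ∑ j, ‖z j‖ ^ k := by rw [hw]; simp
    rw [h2] at hSd ⊢
    nlinarith [mul_nonneg hη.le hSw, mul_nonneg hMp hSd]
  · have hr : 0 < ‖w‖ := norm_pos_iff.2 hw
    set r := ‖w‖ with hrdef
    have hrc : ((r : ℝ) : ℂ) ≠ 0 := by exact_mod_cast hr.ne'
    rcases lt_or_ge ‖z - w‖ (ρ * r) with hd | hd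
    · have hscale : ∀ v : Fin m → ℂ, Φ v = r ^ k * Φ (fun j => ((r : ℝ) : ℂ)⁻¹ * v j) := by
        intro v
        have h1 := hh ((r : ℝ) : ℂ) (fun j => ((r : ℝ) : ℂ)⁻¹ * v j)
        have e : (fun j => ((r : ℝ) : ℂ) * (((r : ℝ) : ℂ)⁻¹ * v j)) = v := by
          funext j
          rw [← mul_assoc, mul_inv_cancel₀ hrc, one_mul]
        rw [e, Complex.norm_real, Real.norm_eq_abs, abs_of_pos hr] at h1
        exact h1
      have hnorm : ∀ v : Fin m → ℂ, ‖(fun j => ((r : ℝ) : ℂ)⁻¹ * v j)‖ = r⁻¹ * ‖v‖ := by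
        intro v
        have : (fun j => ((r : ℝ) : ℂ)⁻¹ * v j) = ((r : ℝ) : ℂ)⁻¹ • v := by
          funext j; simp
        rw [this, norm_smul, norm_inv, Complex.norm_real, Real.norm_eq_abs, abs_of_pos hr]
      have hw1 : ‖(fun j => ((r : ℝ) : ℂ)⁻¹ * w j)‖ = 1 := by
        rw [hnorm, ← hrdef, inv_mul_cancel₀ hr.ne']
      have hzw : ‖(fun j => ((r : ℝ) : ℂ)⁻¹ * z j) - (fun j => ((r : ℝ) : ℂ)⁻¹ * w j)‖ ≤ ρ := by
        have e : (fun j => ((r : ℝ) : ℂ)⁻¹ * z j) - (fun j => ((r : ℝ) : ℂ)⁻¹ * w j) =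
            fun j => ((r : ℝ) : ℂ)⁻¹ * (z - w) j := by
          funext j; simp; ring
        rw [e, hnorm, inv_mul_le_iff₀ hr]
        linarith
      have h1 := huc (fun j => ((r : ℝ) : ℂ)⁻¹ * z j) (by
          rw [Metric.mem_closedBall, dist_zero_right]
          have := norm_le_norm_add_norm_sub' (fun j => ((r : ℝ) : ℂ)⁻¹ * z j) (fun j => ((r : ℝ) : ℂ)⁻¹ * w j)
          linarith)
        (fun j => ((r : ℝ) : ℂ)⁻¹ * w j) (by
          rw [Metric.mem_closedBall, dist_zero_right, hw1]; norm_num)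
        (by rw [dist_eq_norm]; exact hzw.trans (min_le_left _ _))
      rw [Real.dist_eq] at h1
      have h2 : |Φ z - Φ w| ≤ η * r ^ k := by
        rw [hscale z, hscale w, ← mul_sub, abs_mul, abs_of_nonneg (by positivity), mul_comm]
        exact mul_le_mul_of_nonneg_right h1 (by positivity)
      have h3 : r ^ k ≤ ∑ j, ‖w j‖ ^ k := sup_le_sum hk w
      have h4 : η * r ^ k ≤ η * ∑ j, ‖w j‖ ^ k := mul_le_mul_of_nonneg_left h3 hη.le
      have h5 : 0 ≤ (C0 * (m + 1) * ((1 + 1 / ρ) ^ k + (1 / ρ) ^ k) + C0 + 1) * ∑ j, ‖z j - w j‖ ^ k := by positivity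
      linarith
    · have h1 := hbd z
      have h2 := hbd w
      have h3 := sum_le_sup hk z
      have h4 := sum_le_sup hk w
      set D := ‖z - w‖ with hD
      have hD0 : 0 ≤ D := norm_nonneg _
      have hrD : r ≤ 1 / ρ * D := by
        rw [one_div, ← div_eq_inv_mul, le_div_iff₀ hρp]; linarith
      have hzD : ‖z‖ ≤ (1 + 1 / ρ) * D := by
        have := norm_le_norm_add_norm_sub' z w
        linarith
      have h5 : ‖z‖ ^ k ≤ (1 + 1 / ρ) ^ k * D ^ k := by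
        rw [← Real.mul_rpow (by positivity) hD0]
        exact Real.rpow_le_rpow (norm_nonneg _) hzD hk.le
      have h6 : r ^ k ≤ (1 / ρ) ^ k * D ^ k := by
        rw [← Real.mul_rpow (by positivity) hD0]
        exact Real.rpow_le_rpow hr.le hrD hk.le
      have h7 : D ^ k ≤ ∑ j, ‖z j - w j‖ ^ k := sup_le_sum hk (z - w)
      have h8 : |Φ z - Φ w| ≤ C0 * (m * ((1 + 1 / ρ) ^ k * D ^ k)) + C0 * (m * ((1 / ρ) ^ k * D ^ k)) := by
        have hm : (0 : ℝ) ≤ m := Nat.cast_nonneg m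
        calc |Φ z - Φ w| ≤ |Φ z| + |Φ w| := abs_sub _ _
          _ ≤ C0 * (m * ‖z‖ ^ k) + C0 * (m * r ^ k) :=
              add_le_add (h1.trans (mul_le_mul_of_nonneg_left h3 hC0)) (h2.trans (mul_le_mul_of_nonneg_left h4 hC0))
          _ ≤ _ := by gcongr
      have h9 : C0 * (m * ((1 + 1 / ρ) ^ k * D ^ k)) + C0 * (m * ((1 / ρ) ^ k * D ^ k)) ≤
          C0 * (m + 1) * ((1 + 1 / ρ) ^ k + (1 / ρ) ^ k) * D ^ k := by
        have : 0 ≤ C0 * ((1 + 1 / ρ) ^ k + (1 / ρ) ^ k) * D ^ k := by positivity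
        nlinarith
      have h10 : C0 * (m + 1) * ((1 + 1 / ρ) ^ k + (1 / ρ) ^ k) * D ^ k ≤
          C0 * (m + 1) * ((1 + 1 / ρ) ^ k + (1 / ρ) ^ k) * ∑ j, ‖z j - w j‖ ^ k :=
        mul_le_mul_of_nonneg_left h7 hMp
      nlinarith [mul_nonneg hη.le hSw, mul_nonneg hC0 hSd]

/-! ### hypotheses on the window -/

lemma ev_pos {h : ℝ → ℝ} (hL : Tendsto (fun T : ℝ => h T * Real.log T) atTop atTop) : ∀ᶠ T : ℝ in atTop, 0 < h T := by
  filter_upwards [hL.eventually_gt_atTop 0, eventually_gt_atTop (1 : ℝ)] with T h1 h2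
  exact pos_of_mul_pos_left h1 (Real.log_pos h2).le

/-- laws of Riemann sums -/
theorem rs_lim {m : ℕ} {k : ℝ} (hk : 0 < k) (hk4 : k ≤ 4) {Φ : (Fin m → ℂ) → ℝ} (hc : Continuous Φ)
    (hh : Pool.Agent.V11128.CXL.Hom k Φ) (f : Fin m → ℝ → ℂ) (a b : Fin m → ℝ) {h : ℝ → ℝ}
    (h0 : Tendsto h atTop (𝓝 0)) (hL : Tendsto (fun T : ℝ => h T * Real.log T) atTop atTop) {ε : ℝ} (hε : 0 < ε) (n : ℕ) :
    ∃ ℓ : ℝ, Tendsto (fun T : ℝ => h T ^ (k ^ 2 / 4) / T *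
      ∫ t in Set.Icc 0 T, Φ (fun j => rs (f j) (a j) (b j) (h T) (ε * h T) n t)) atTop (𝓝 ℓ) := by
  have hδ : Tendsto (fun T => ε * h T) atTop (𝓝 0) := by simpa using h0.const_mul ε
  have hδL : Tendsto (fun T : ℝ => (ε * h T) * Real.log T) atTop atTop :=
    (hL.const_mul_atTop hε).congr fun T => by ring
  let e := finProdFinEquiv (m := m) (n := n)
  obtain ⟨ρ, -, hρ⟩ := Pool.Agent.V11128.CXL.homog_full hδ hδL hk hk4
    (fun q : Fin (m * n) => up (a (e.symm q).1) (b (e.symm q).1) n (e.symm q).2 / ε)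
  set Φ' : (Fin (m * n) → ℂ) → ℝ := fun z =>
    Φ (fun j => ∑ i : Fin n, wt (f j) (a j) (b j) n i * z (e (j, i))) with hΦ'
  have hc' : Continuous Φ' := by
    refine hc.comp (continuous_pi fun j => continuous_finsetSum _ fun i _ => ?_)
    exact continuous_const.mul (continuous_apply _)
  have hh' : Pool.Agent.V11128.CXL.Hom k Φ' := by
    intro l z
    simp only [hΦ']
    rw [← hh l]
    congr 1
    funext j
    rw [Finset.mul_sum]
    refine Finset.sum_congr rfl fun i _ => ?_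
    ring
  obtain ⟨-, hlim⟩ := hρ Φ' hc' hh'
  refine ⟨(2 * ε) ^ (-(k ^ 2 / 4)) * _, (hlim.const_mul ((2 * ε) ^ (-(k ^ 2 / 4)))).congr' ?_⟩
  filter_upwards [ev_pos hL] with T hT
  have e1 : (2 * (ε * h T)) ^ ((k / 2) ^ 2) = (2 * ε) ^ (k ^ 2 / 4) * h T ^ (k ^ 2 / 4) := by
    rw [← Real.mul_rpow (by positivity) hT.le]
    congr 1 <;> ring
  have e2 : ∀ t : ℝ, Φ' (fun q => Pool.Agent.V11128.CXL.zc (ε * h T)
      (up (a (e.symm q).1) (b (e.symm q).1) n (e.symm q).2 / ε) t) =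
      Φ (fun j => rs (f j) (a j) (b j) (h T) (ε * h T) n t) := by
    intro t
    simp only [hΦ']
    congr 1
    funext j
    unfold rs
    rw [Finset.sum_range (fun i => wt (f j) (a j) (b j) n i * zx (ε * h T) (t + h T * up (a j) (b j) n i))]
    refine Finset.sum_congr rfl fun i _ => ?_
    rw [Equiv.symm_apply_apply]
    congr 1
    unfold Pool.Agent.V11128.CXL.zc zx
    rw [H370.mk_eq]
    congr 1
    push_cast
    have : (ε : ℂ) ≠ 0 := by exact_mod_cast hε.ne'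
    field_simp
  simp only [e2]
  rw [e1]
  have h2 : (2 * ε) ^ (-(k ^ 2 / 4)) * (2 * ε) ^ (k ^ 2 / 4) = 1 := by
    rw [← Real.rpow_add (by positivity)]; simp
  rw [← mul_assoc, ← mul_div_assoc, ← mul_assoc, h2, one_mul]

/-- moments of the derivative -/
theorem dz_mom {k b : ℝ} (hk : 0 < k) (hk4 : k ≤ 4) (hb : 0 ≤ b) : ∃ C : ℝ, 0 < C ∧ ∀ δ : ℝ → ℝ,
    Tendsto δ atTop (𝓝 0) → Tendsto (fun T : ℝ => δ T * Real.log T) atTop atTop → ∀ᶠ T : ℝ in atTop,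
      ∫ t in (0:ℝ)..(T + b), ‖dz (δ T) t‖ ^ k ≤ C * T * δ T ^ (-(k ^ 2 / 4) - k) := by
  obtain ⟨Φ, hΦ⟩ : ∃ Φ : ℂ × ℂ → ℝ, Φ = fun p => ‖p.2‖ ^ k := ⟨_, rfl⟩
  have hc : Continuous Φ := by
    rw [hΦ]; exact continuous_snd.norm.rpow_const fun _ => Or.inr hk.le
  have hh : Pool.Agent.V11128.CXL.Hom2 k Φ := by
    intro l x y
    rw [hΦ]
    simp only
    rw [norm_mul, Real.mul_rpow (norm_nonneg _) (norm_nonneg _)]
  set ℓ : ℝ := Pool.Agent.H306R2.aF (k / 2) * ∫ p, Φ (1, Pool.Agent.V11128.CXL.q0 k p) ∂Pool.Agent.V11128.CXL.N2 with hℓ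
  have hℓ0 : 0 ≤ ℓ := by
    refine mul_nonneg (Pool.Agent.H306R2.aF_pos (by positivity)).le (integral_nonneg fun p => ?_)
    rw [hΦ]
    exact Real.rpow_nonneg (norm_nonneg _) _
  refine ⟨(ℓ + 1) * (b + 1), by positivity, fun δ h0 hL => ?_⟩
  have hpos := ev_pos hL
  set δ' : ℝ → ℝ := fun T => δ (T - b) with hδ'
  have hs : Tendsto (fun T : ℝ => T - b) atTop atTop := tendsto_atTop_add_const_right _ _ tendsto_id
  have h0' : Tendsto δ' atTop (𝓝 0) := h0.comp hs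
  have hL' : Tendsto (fun T : ℝ => δ' T * Real.log T) atTop atTop := by
    refine tendsto_atTop_mono' _ ?_ (hL.comp hs)
    filter_upwards [hs.eventually hpos, eventually_gt_atTop (b + 1)] with T h1 h2
    simp only [Function.comp, hδ']
    refine mul_le_mul_of_nonneg_left (Real.log_le_log (by linarith) (by linarith)) h1.le
  obtain ⟨-, hlim⟩ := Pool.Agent.V11128.CXL.deriv_moment h0' hL' hk hk4 hc hh
  have hup : Tendsto (fun T : ℝ => T + b) atTop atTop := tendsto_atTop_add_const_right _ _ tendsto_id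
  have hlim' := (hlim.comp hup).eventually_le_const (show ℓ < ℓ + 1 by linarith)
  filter_upwards [hlim', hpos, eventually_ge_atTop (1 : ℝ)] with T h1 h2 h3
  have hT0 : 0 < T + b := by linarith
  simp only [Function.comp, hδ', add_sub_cancel_right] at h1
  have e1 : ∫ t in Set.Icc 0 (T + b), Φ (riemannZeta (Pool.Agent.V11128.CXL.pt (δ T) t),
      δ T * deriv riemannZeta (Pool.Agent.V11128.CXL.pt (δ T) t)) = δ T ^ k * ∫ t in (0:ℝ)..(T + b), ‖dz (δ T) t‖ ^ k := by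
    rw [integral_Icc_eq_integral_Ioc, ← intervalIntegral.integral_of_le hT0.le, ← intervalIntegral.integral_const_mul]
    refine intervalIntegral.integral_congr fun t _ => ?_
    rw [hΦ]
    simp only
    rw [norm_mul, Complex.norm_real, Real.norm_eq_abs, abs_of_pos h2, Real.mul_rpow h2.le (norm_nonneg _)]
    unfold dz Pool.Agent.V11128.CXL.pt
    rw [H370.mk_eq]
    congr 4
    push_cast
    ring
  rw [e1] at h1
  have h4 : 1 ≤ (2 : ℝ) ^ ((k / 2) ^ 2) := Real.one_le_rpow (by norm_num) (by positivity)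
  set S := ∫ t in (0:ℝ)..(T + b), ‖dz (δ T) t‖ ^ k with hS
  have hS0 : 0 ≤ S := intervalIntegral.integral_nonneg hT0.le fun t _ => by positivity
  have e2 : (2 * δ T) ^ ((k / 2) ^ 2) / (T + b) * (δ T ^ k * S) =
      (2 : ℝ) ^ ((k / 2) ^ 2) * (δ T ^ (k ^ 2 / 4 + k) * S) / (T + b) := by
    rw [Real.mul_rpow (by norm_num) h2.le, Real.rpow_add h2, show (k / 2) ^ 2 = k ^ 2 / 4 by ring]
    ring
  rw [e2, div_le_iff₀ hT0] at h1
  have h5 : 0 ≤ δ T ^ (k ^ 2 / 4 + k) * S := by positivity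
  have h6 : δ T ^ (k ^ 2 / 4 + k) * S ≤ (ℓ + 1) * (T + b) := by
    refine le_trans ?_ h1
    exact le_mul_of_one_le_left h5 h4
  have h7 : δ T ^ (k ^ 2 / 4 + k) * δ T ^ (-(k ^ 2 / 4) - k) = 1 := by
    rw [← Real.rpow_add h2]
    rw [show k ^ 2 / 4 + k + (-(k ^ 2 / 4) - k) = 0 by ring, Real.rpow_zero]
  have h8 : 0 < δ T ^ (-(k ^ 2 / 4) - k) := by positivity
  calc S = (δ T ^ (k ^ 2 / 4 + k) * S) * δ T ^ (-(k ^ 2 / 4) - k) := by
        rw [mul_right_comm, h7, one_mul]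
    _ ≤ ((ℓ + 1) * (T + b)) * δ T ^ (-(k ^ 2 / 4) - k) := mul_le_mul_of_nonneg_right h6 h8.le
    _ ≤ ((ℓ + 1) * ((b + 1) * T)) * δ T ^ (-(k ^ 2 / 4) - k) := by
        refine mul_le_mul_of_nonneg_right (mul_le_mul_of_nonneg_left ?_ (by linarith)) h8.le
        nlinarith
    _ = _ := by ring

end Pool.Agent.H60.LM
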