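import Pool.Agent.H60.LM.Ord

/-! Positivity for all weights. -/

set_option autoImplicit false

open Complex MeasureTheory Filter Topology Set

namespace Pool.Agent.H60.LM

/-- the equation of the horizontal integrals -/
lemma rect_eq {x1 x2 c d : ℝ} (h12 : x1 ≤ x2) (hx : x2 ≤ 1 / 4) (hcd : c ≤ d) :
    I * ((∫ y in c..d, zx x2 y) - ∫ y in c..d, zx x1 y) = (∫ x in x1..x2, zx x d) - ∫ x in x1..x2, zx x c := by
  have hd : DifferentiableOn ℂ riemannZeta (Set.Icc (1 / 2 + x1) (1 / 2 + x2) ×ℂ Set.Icc c d) := by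
    intro z hz
    refine (differentiableAt_riemannZeta ?_).differentiableWithinAt
    intro h
    have h1 : z.re ∈ Set.Icc (1 / 2 + x1) (1 / 2 + x2) := hz.1
    rw [h] at h1
    have := h1.2
    simp only [one_re] at this
    linarith
  have h := H370.RI_zero (by linarith) hcd hd
  unfold H370.RI at h
  have e1 : ∀ y : ℝ, ∫ x in (1 / 2 + x1)..(1 / 2 + x2), riemannZeta ⟨x, y⟩ = ∫ x in x1..x2, zx x y := by
    intro y
    rw [← intervalIntegral.integral_comp_add_left (fun x : ℝ => riemannZeta ⟨x, y⟩)]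
    rfl
  rw [e1, e1] at h
  have h3 : (∫ y in c..d, riemannZeta ⟨1 / 2 + x2, y⟩) = ∫ y in c..d, zx x2 y := rfl
  have h4 : (∫ y in c..d, riemannZeta ⟨1 / 2 + x1, y⟩) = ∫ y in c..d, zx x1 y := rfl
  rw [h3, h4] at h
  linear_combination h

/-- the mean with the weight `F` and the mean with the weight `F' = f` -/
theorem ode {f F : ℝ → ℂ} (hf : Continuous f) (hF : ∀ u, HasDerivAt F (f u) u) {a b h e t : ℝ} (hab : a < b) (hh : 0 < h)
    (he : 0 ≤ e) (he4 : e ≤ 1 / 4) (hFa : F a = 0) (hFb : F b = 0) :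
    lm F a b h 0 t = lm F a b h e t - (I / h) * ∫ x in (0:ℝ)..e, ∫ v in a..b, f v * zy x (t + h * v) := by
  have hFc : Continuous F := continuous_iff_continuousAt.2 fun v => (hF v).continuousAt
  set g : ℝ → ℂ := fun u => zx e (t + h * u) - zx 0 (t + h * u) with hg
  have hze : ∀ x : ℝ, x ≤ 1 / 4 → Continuous fun u : ℝ => zx x (t + h * u) := fun x hx => (zx_cont hx).comp (by fun_prop)
  have hgc : Continuous g := (hze e he4).sub (hze 0 (by norm_num))
  set G : ℝ → ℂ := fun v => ∫ u in a..v, g u with hG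
  have hGd : ∀ v, HasDerivAt G (g v) v := fun v =>
    intervalIntegral.integral_hasDerivAt_right (hgc.intervalIntegrable _ _) (hgc.stronglyMeasurableAtFilter _ _) hgc.continuousAt
  have hGc : Continuous G := continuous_iff_continuousAt.2 fun v => (hGd v).continuousAt
  have e1 : lm F a b h e t - lm F a b h 0 t = ∫ u in a..b, F u * g u := by
    unfold lm
    have i1 : Continuous fun u => F u * zx e (t + h * u) := hFc.mul (hze e he4)
    have i2 : Continuous fun u => F u * zx 0 (t + h * u) := hFc.mul (hze 0 (by norm_num))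
    rw [← intervalIntegral.integral_sub (i1.intervalIntegrable _ _) (i2.intervalIntegrable _ _)]
    refine intervalIntegral.integral_congr fun u _ => ?_
    simp only [hg]
    ring
  have e2 := intervalIntegral.integral_mul_deriv_eq_deriv_mul (a := a) (b := b) (u := F) (v := G) (u' := f) (v' := g)
    (fun v _ => hF v) (fun v _ => hGd v) (hf.intervalIntegrable _ _) (hgc.intervalIntegrable _ _)
  rw [hFa, hFb, zero_mul, zero_mul, sub_zero, zero_sub] at e2
  rw [e2] at e1
  -- the horizontal integrals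
  set H : ℝ → ℂ := fun y => ∫ x in (0:ℝ)..e, zy x y with hH
  have hHc : Continuous H := intervalIntegral.continuous_parametric_intervalIntegral_of_continuous'
    (f := fun y x : ℝ => zy x y) ((zy_cont.comp (by fun_prop : Continuous fun q : ℝ × ℝ => (q.2, q.1)))) _ _
  have hHz : ∀ y, H y = ∫ x in (0:ℝ)..e, zx x y := fun y => by
    simp only [hH]
    refine intervalIntegral.integral_congr fun x hx => ?_
    rw [Set.uIcc_of_le he] at hx
    rw [zy_eq (hx.2.trans he4)]
  have hhc : (h : ℂ) ≠ 0 := by exact_mod_cast hh.ne'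
  have hGb : ∀ v, a ≤ v → G v = (-I / h) * (H (t + h * v) - H (t + h * a)) := by
    intro v hv
    have h2 : (h : ℂ) * G v = (∫ y in (t + h * a)..(t + h * v), zx e y) - ∫ y in (t + h * a)..(t + h * v), zx 0 y := by
      have h3 := intervalIntegral.smul_integral_comp_add_mul (a := a) (b := v) (f := zx e) (c := h) t
      have h4 := intervalIntegral.smul_integral_comp_add_mul (a := a) (b := v) (f := zx 0) (c := h) t
      rw [← h3, ← h4, ← smul_sub, ← intervalIntegral.integral_sub ((hze e he4).intervalIntegrable _ _)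
        ((hze 0 (by norm_num)).intervalIntegrable _ _), Complex.real_smul]
    have h5 := rect_eq (x1 := 0) (x2 := e) (c := t + h * a) (d := t + h * v) he he4
      (by have := mul_le_mul_of_nonneg_left hv hh.le; linarith)
    rw [← hHz, ← hHz, ← h2] at h5
    rw [← h5]
    field_simp
    rw [I_sq]
    ring
  have hHvc : Continuous fun v => H (t + h * v) := hHc.comp (by fun_prop)
  have hf0 : ∫ v in a..b, f v = 0 := by
    rw [intervalIntegral.integral_eq_sub_of_hasDerivAt (fun v _ => hF v) (hf.intervalIntegrable _ _), hFa, hFb, sub_zero]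
  have e3 : ∫ v in a..b, f v * G v = (-I / h) * ∫ v in a..b, f v * H (t + h * v) := by
    have e4 : ∫ v in a..b, f v * G v = ∫ v in a..b, ((-I / h) * (f v * H (t + h * v)) - (-I / h * H (t + h * a)) * f v) := by
      refine intervalIntegral.integral_congr fun v hv => ?_
      rw [Set.uIcc_of_le hab.le] at hv
      rw [hGb v hv.1]
      ring
    have j1 : Continuous fun v => (-I / h) * (f v * H (t + h * v)) := continuous_const.mul (hf.mul hHvc)
    have j2 : Continuous fun v => (-I / h * H (t + h * a)) * f v := continuous_const.mul hf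
    rw [e4, intervalIntegral.integral_sub (j1.intervalIntegrable _ _) (j2.intervalIntegrable _ _),
      intervalIntegral.integral_const_mul, intervalIntegral.integral_const_mul, hf0, mul_zero, sub_zero]
  have e5 : ∫ v in a..b, f v * H (t + h * v) = ∫ x in (0:ℝ)..e, ∫ v in a..b, f v * zy x (t + h * v) := by
    have e6 : ∀ v, f v * H (t + h * v) = ∫ x in (0:ℝ)..e, f v * zy x (t + h * v) := fun v => by
      simp only [hH]
      rw [intervalIntegral.integral_const_mul]
    simp only [e6]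
    refine MeasureTheory.intervalIntegral_intervalIntegral_swap ?_
    have hcc : Continuous fun q : ℝ × ℝ => f q.1 * zy q.2 (t + h * q.1) :=
      (hf.comp continuous_fst).mul (zy_cont.comp (by fun_prop : Continuous fun q : ℝ × ℝ => (q.2, t + h * q.1)))
    refine ((hcc.continuousOn (s := Set.uIcc a b ×ˢ Set.uIcc 0 e)).integrableOn_compact
      (isCompact_uIcc.prod isCompact_uIcc)).mono_set ?_
    exact Set.prod_mono Set.uIoc_subset_uIcc Set.uIoc_subset_uIcc
  rw [e3, e5] at e1
  have e7 : lm F a b h 0 t = lm F a b h e t - (lm F a b h e t - lm F a b h 0 t) := by ring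
  rw [e7, e1]
  ring

lemma lmy_eq (f : ℝ → ℂ) (a b h : ℝ) {x : ℝ} (hx : x ≤ 1 / 4) (t : ℝ) :
    ∫ v in a..b, f v * zy x (t + h * v) = lm f a b h x t := by
  unfold lm
  simp only [zy_eq hx]

/-- moments of means decrease to the right, up to constants -/
theorem shift_lm {k a b : ℝ} (hk : 1 ≤ k) {f : ℝ → ℂ} (hf : Continuous f) (ha : 0 ≤ a) (hab : a < b) :
    ∃ C : ℝ, 0 < C ∧ ∀ᶠ T : ℝ in atTop, ∀ h : ℝ, 0 < h → h ≤ 1 → ∀ δ : ℝ, 0 < δ → δ ≤ 1 / 16 →
      ∫ t in (Real.log T + 2)..(T / 2), ‖lm f a b h δ t‖ ^ k ≤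
        4 ^ k * (∫ t in (0:ℝ)..T, ‖lm f a b h 0 t‖ ^ k) + C * T := by
  have hk0 : 0 < k := by linarith
  have hba : 0 < b - a := by linarith
  have hb : 0 ≤ b := by linarith
  obtain ⟨K₁, hK₁⟩ := isCompact_Icc.exists_bound_of_continuousOn (s := Set.Icc a b) hf.continuousOn
  set K : ℝ := max K₁ 1 with hK
  have hK0 : 0 < K := lt_of_lt_of_le one_pos (le_max_right _ _)
  have hK1 : ∀ v ∈ Set.Icc a b, ‖f v‖ ≤ K := fun v hv => (hK₁ v hv).trans (le_max_left _ _)
  set M₀ : ℝ := K * (b - a) with hM₀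
  have hM₀p : 0 < M₀ := by positivity
  set C5 : ℝ := 2 ^ k * (60 * (2 * M₀) * 1 + 60 * (24 * M₀)) ^ k with hC5
  have hC5p : 0 < C5 := by positivity
  refine ⟨C5, hC5p, ?_⟩
  filter_upwards [ev_expsq, Pool.Agent.H60.WM.ev_log (η := 1) (K := 4) (A := 1) one_pos,
    eventually_ge_atTop (max 4 (16 * (b + 1)))] with T g8 g9 g11
  intro h g2 g3 δ hδp hδ16
  have hT4 : 4 ≤ T := (le_max_left _ _).trans g11
  have hTb : 16 * (b + 1) ≤ T := (le_max_right _ _).trans g11
  have hT0 : 0 < T := by linarith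
  obtain ⟨Y, hY⟩ : ∃ Y : ℝ, Y = Real.log T := ⟨_, rfl⟩
  have hYT : 4 * Y + 12 ≤ T := by rw [Real.rpow_one] at g9; rw [hY]; linarith
  clear g9
  have hlog1 : 1 ≤ Y := by
    rw [hY, Real.le_log_iff_exp_le hT0]
    linarith [Real.exp_one_lt_d9]
  rw [← hY] at g8 ⊢
  have hsh := shift_mom (F := Fm f a b h) (a := Y + 2) (b := T / 2) (Y := Y) (δ := δ) (B := 24 * M₀ * T) (M := 2 * M₀) hk
    (by linarith) hlog1 hδp (by linarith) im_open (Fm_diff hf ha hab g2.le)
    (fun z hz => by
      have : z.im ∈ Set.Icc (Y + 2 - Y) (T / 2 + Y) := hz.2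
      show 0 < z.im
      linarith [this.1])
    (fun z hz => by
      have q1 : z.im ∈ Set.Icc (Y + 2 - Y) (T / 2 + Y) := hz.2
      have q2 : z.re ∈ Set.Icc (1 / 2 : ℝ) (5 / 2) := hz.1
      unfold Fm
      have hn : ∀ u ∈ Set.uIoc a b, ‖f u * riemannZeta (z + ((h * u : ℝ) : ℂ) * I)‖ ≤ K * (24 * T) := by
        intro u hu
        rw [Set.uIoc_of_le hab.le] at hu
        rw [norm_mul]
        have hu0 : 0 ≤ h * u := mul_nonneg g2.le (by linarith [hu.1])
        have hu1 : h * u ≤ b := (mul_le_of_le_one_left (ha.trans hu.1.le) g3).trans hu.2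
        have r1 : (z + ((h * u : ℝ) : ℂ) * I).re = z.re := by simp
        have r2 : (z + ((h * u : ℝ) : ℂ) * I).im = z.im + h * u := by simp
        refine mul_le_mul (hK1 u ⟨hu.1.le, hu.2⟩) ?_ (norm_nonneg _) hK0.le
        have d1 := Pool.Agent.H388LH.zeta_growth (s := z + ((h * u : ℝ) : ℂ) * I) (by rw [r1]; linarith [q2.1])
          (by rw [r2]; linarith [q1.1])
        have d3 := Complex.norm_le_abs_re_add_abs_im (z + ((h * u : ℝ) : ℂ) * I)
        rw [r1, r2, abs_of_pos (by linarith [q2.1] : 0 < z.re), abs_of_pos (by linarith [q1.1] : 0 < z.im + h * u)] at d3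
        linarith [q1.2, q2.2]
      refine (intervalIntegral.norm_integral_le_of_norm_le_const hn).trans (le_of_eq ?_)
      rw [abs_of_pos hba, hM₀]
      ring)
    (fun y _ => by
      unfold Fm
      have hn : ∀ u ∈ Set.uIoc a b, ‖f u * riemannZeta ((⟨5 / 2, y⟩ : ℂ) + ((h * u : ℝ) : ℂ) * I)‖ ≤ K * 2 := by
        intro u hu
        rw [Set.uIoc_of_le hab.le] at hu
        rw [norm_mul]
        refine mul_le_mul (hK1 u ⟨hu.1.le, hu.2⟩) ?_ (norm_nonneg _) hK0.le
        refine Pool.Agent.W188.Ray.norm_zeta_le_two ?_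
        simp
        norm_num
      refine (intervalIntegral.norm_integral_le_of_norm_le_const hn).trans (le_of_eq ?_)
      rw [abs_of_pos hba, hM₀]
      ring)
  have e0 : ∀ t : ℝ, Fm f a b h ⟨1 / 2, t⟩ = lm f a b h 0 t := by
    intro t
    rw [← Fm_eq, add_zero]
  simp only [Fm_eq, e0] at hsh
  have c0c := lm_cont hf a b h (x := 0) (by norm_num)
  have i0 : Continuous fun t => ‖lm f a b h 0 t‖ ^ k := c0c.norm.rpow_const fun _ => Or.inr hk0.le
  have hline : ∫ t in (Y + 2 - Y)..(T / 2 + Y), ‖lm f a b h 0 t‖ ^ k ≤ ∫ t in (0:ℝ)..T, ‖lm f a b h 0 t‖ ^ k :=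
    intervalIntegral.integral_mono_interval (by linarith) (by linarith) (by linarith)
      (Eventually.of_forall fun t => by positivity) (i0.intervalIntegrable _ _)
  have hE2 : 60 * (2 * M₀) * δ + 60 * (24 * M₀ * T) * Real.exp (-Y ^ 2) ≤ 60 * (2 * M₀) * 1 + 60 * (24 * M₀) := by
    have h1 : 60 * (24 * M₀ * T) * Real.exp (-Y ^ 2) = 60 * (24 * M₀) * (T * Real.exp (-Y ^ 2)) := by ring
    rw [h1]
    have h2 : 60 * (24 * M₀) * (T * Real.exp (-Y ^ 2)) ≤ 60 * (24 * M₀) * 1 := mul_le_mul_of_nonneg_left g8 (by positivity)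
    have h3 : 60 * (2 * M₀) * δ ≤ 60 * (2 * M₀) * 1 := mul_le_mul_of_nonneg_left (by linarith) (by positivity)
    linarith
  have hE3 : 2 ^ k * (60 * (2 * M₀) * δ + 60 * (24 * M₀ * T) * Real.exp (-Y ^ 2)) ^ k * (T / 2 - (Y + 2)) ≤ C5 * T := by
    rw [hC5]
    refine mul_le_mul (mul_le_mul_of_nonneg_left (Real.rpow_le_rpow (by positivity) hE2 hk0.le) (by positivity))
      (by linarith) (by linarith) (by positivity)
  have h4k : (0 : ℝ) < 4 ^ k := by positivity
  exact hsh.trans (add_le_add (mul_le_mul_of_nonneg_left hline h4k.le) hE3)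

end Pool.Agent.H60.LM
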