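import Pool.Agent.H60.LM.Pois

/-! Weighted Jensen inequalities with integration. -/

set_option autoImplicit false

open Complex MeasureTheory Filter Topology Set

namespace Pool.Agent.H60.LM

/-- averages in a second variable with an integrable singularity -/
theorem wj {k e T B : ℝ} (hk : 1 ≤ k) (hk4 : k < 4) (he : 0 < e) (hT : 0 ≤ T) (hB : 0 ≤ B) {W : ℝ → ℝ → ℝ}
    (hW : Continuous fun q : ℝ × ℝ => W q.1 q.2) (hW0 : ∀ x t, 0 ≤ W x t)
    (hb : ∀ x : ℝ, 0 < x → x ≤ e → ∫ t in (0:ℝ)..T, W x t ^ k ≤ B * x ^ (-(k ^ 2 / 4))) :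
    ∫ t in (0:ℝ)..T, (∫ x in (0:ℝ)..e, W x t) ^ k ≤ B * ((1 - k / 4) ^ (-k) * e ^ (k - k ^ 2 / 4)) := by
  have hk0 : 0 < k := by linarith
  obtain ⟨s, hs⟩ : ∃ s : ℝ, s = k / 4 := ⟨_, rfl⟩
  have hs0 : 0 < s := by rw [hs]; positivity
  have hs1 : 0 < 1 - s := by rw [hs]; linarith
  obtain ⟨c0, hc0⟩ : ∃ c0 : ℝ, c0 = (1 - s) * e ^ (s - 1) := ⟨_, rfl⟩
  have hc0p : 0 < c0 := by rw [hc0]; positivity
  have hrp : IntervalIntegrable (fun x : ℝ => x ^ (-s)) volume 0 e :=
    intervalIntegral.intervalIntegrable_rpow' (by linarith)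
  have hrv : ∫ x in (0:ℝ)..e, x ^ (-s) = e ^ (1 - s) / (1 - s) := by
    rw [integral_rpow (Or.inl (by linarith)), Real.zero_rpow (by linarith)]
    rw [show -s + 1 = 1 - s by ring, sub_zero]
  set μ : Measure ℝ := volume.restrict (Set.Ioc 0 e) with hμ
  set p : ℝ → ℝ := fun x => c0 * |x| ^ (-s) with hp
  have hp0 : ∀ x, 0 ≤ p x := fun x => by simp only [hp]; positivity
  have hpe : ∀ x ∈ Set.Ioc 0 e, p x = c0 * x ^ (-s) := fun x hx => by simp only [hp]; rw [abs_of_pos hx.1]
  have hpp : ∀ x ∈ Set.Ioc 0 e, 0 < p x := fun x hx => by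
    rw [hpe x hx]
    have := Real.rpow_pos_of_pos hx.1 (-s)
    positivity
  have hpi : Integrable p μ := by
    have h1 : IntegrableOn (fun x : ℝ => c0 * x ^ (-s)) (Set.Ioc 0 e) :=
      ((intervalIntegrable_iff_integrableOn_Ioc_of_le he.le).1 hrp).const_mul c0
    exact h1.congr_fun (fun x hx => (hpe x hx).symm) measurableSet_Ioc
  have hp1 : ∫ x, p x ∂μ ≤ 1 := by
    rw [hμ, setIntegral_congr_fun measurableSet_Ioc hpe, ← intervalIntegral.integral_of_le he.le,
      intervalIntegral.integral_const_mul, hrv, hc0]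
    have : (1 - s) * e ^ (s - 1) * (e ^ (1 - s) / (1 - s)) = e ^ (s - 1) * e ^ (1 - s) := by
      field_simp
    rw [this, ← Real.rpow_add he]
    rw [show s - 1 + (1 - s) = 0 by ring, Real.rpow_zero]
  -- the pointwise inequality
  have hWt : ∀ t, Continuous fun x => W x t := fun t => hW.comp (by fun_prop : Continuous fun x : ℝ => ((x, t) : ℝ × ℝ))
  have hWk : Continuous fun q : ℝ × ℝ => W q.1 q.2 ^ k := hW.rpow_const fun _ => Or.inr hk0.le
  have hsk : 0 ≤ s * (k - 1) := mul_nonneg hs0.le (by linarith)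
  have hxk : Continuous fun x : ℝ => x ^ (s * (k - 1)) := Real.continuous_rpow_const hsk
  have hV : Continuous fun q : ℝ × ℝ => c0 ^ (1 - k) * (q.1 ^ (s * (k - 1)) * W q.1 q.2 ^ k) :=
    continuous_const.mul ((hxk.comp continuous_fst).mul hWk)
  have hpt : ∀ t, (∫ x in (0:ℝ)..e, W x t) ^ k ≤ ∫ x in (0:ℝ)..e, c0 ^ (1 - k) * (x ^ (s * (k - 1)) * W x t ^ k) := by
    intro t
    have e1 : ∀ x ∈ Set.Ioc 0 e, p x * (W x t / p x) = W x t := fun x hx => by
      have := (hpp x hx).ne'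
      field_simp
    have e2 : ∀ x ∈ Set.Ioc 0 e, p x * (W x t / p x) ^ k = c0 ^ (1 - k) * (x ^ (s * (k - 1)) * W x t ^ k) := fun x hx => by
      have h1 := hpp x hx
      rw [Real.div_rpow (hW0 x t) h1.le]
      have h2 : p x * (W x t ^ k / p x ^ k) = p x ^ (1 - k) * W x t ^ k := by
        rw [Real.rpow_sub h1, Real.rpow_one]; ring
      rw [h2, hpe x hx, Real.mul_rpow hc0p.le (Real.rpow_nonneg hx.1.le _), ← Real.rpow_mul hx.1.le,
        show -s * (1 - k) = s * (k - 1) by ring]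
      ring
    have hct : Continuous fun x => c0 ^ (1 - k) * (x ^ (s * (k - 1)) * W x t ^ k) :=
      hV.comp (by fun_prop : Continuous fun x : ℝ => ((x, t) : ℝ × ℝ))
    have hJ := jensen (μ := μ) hk hp0 (G := fun x => W x t / p x) (fun x => div_nonneg (hW0 x t) (hp0 x)) hpi hp1
      (((hWt t).integrableOn_Ioc (a := 0) (b := e)).congr_fun (fun x hx => (e1 x hx).symm) measurableSet_Ioc)
      ((hct.integrableOn_Ioc (a := 0) (b := e)).congr_fun (fun x hx => (e2 x hx).symm) measurableSet_Ioc)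
    rw [hμ, setIntegral_congr_fun measurableSet_Ioc e1, setIntegral_congr_fun measurableSet_Ioc e2] at hJ
    rw [intervalIntegral.integral_of_le he.le, intervalIntegral.integral_of_le he.le]
    exact hJ
  have hc1 : Continuous fun t : ℝ => (∫ x in (0:ℝ)..e, W x t) ^ k :=
    (intervalIntegral.continuous_parametric_intervalIntegral_of_continuous'
      (f := fun t x : ℝ => W x t) (hW.comp (by fun_prop : Continuous fun q : ℝ × ℝ => (q.2, q.1))) _ _).rpow_const
      fun _ => Or.inr hk0.le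
  have hc2 : Continuous fun t : ℝ => ∫ x in (0:ℝ)..e, c0 ^ (1 - k) * (x ^ (s * (k - 1)) * W x t ^ k) :=
    intervalIntegral.continuous_parametric_intervalIntegral_of_continuous'
      (f := fun t x : ℝ => c0 ^ (1 - k) * (x ^ (s * (k - 1)) * W x t ^ k))
      (hV.comp (by fun_prop : Continuous fun q : ℝ × ℝ => (q.2, q.1))) _ _
  have hmain := intervalIntegral.integral_mono_on (μ := volume) hT (hc1.intervalIntegrable 0 T) (hc2.intervalIntegrable 0 T) fun t _ => hpt t
  have hsw : ∫ t in (0:ℝ)..T, (∫ x in (0:ℝ)..e, c0 ^ (1 - k) * (x ^ (s * (k - 1)) * W x t ^ k)) =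
      ∫ x in (0:ℝ)..e, (∫ t in (0:ℝ)..T, c0 ^ (1 - k) * (x ^ (s * (k - 1)) * W x t ^ k)) := by
    refine MeasureTheory.intervalIntegral_intervalIntegral_swap ?_
    refine (((hV.comp (by fun_prop : Continuous fun q : ℝ × ℝ => (q.2, q.1))).continuousOn
      (s := Set.uIcc 0 T ×ˢ Set.uIcc 0 e)).integrableOn_compact (isCompact_uIcc.prod isCompact_uIcc)).mono_set ?_
    exact Set.prod_mono Set.uIoc_subset_uIcc Set.uIoc_subset_uIcc
  rw [hsw] at hmain
  refine hmain.trans ?_
  have hc3 : Continuous fun x : ℝ => ∫ t in (0:ℝ)..T, c0 ^ (1 - k) * (x ^ (s * (k - 1)) * W x t ^ k) :=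
    intervalIntegral.continuous_parametric_intervalIntegral_of_continuous' hV _ _
  have hfin : ∫ x in (0:ℝ)..e, (∫ t in (0:ℝ)..T, c0 ^ (1 - k) * (x ^ (s * (k - 1)) * W x t ^ k)) ≤
      ∫ x in (0:ℝ)..e, c0 ^ (1 - k) * (B * x ^ (-s)) := by
    refine intervalIntegral.integral_mono_on_of_le_Ioo he.le (hc3.intervalIntegrable _ _)
      ((hrp.const_mul B).const_mul _) fun x hx => ?_
    rw [intervalIntegral.integral_const_mul, intervalIntegral.integral_const_mul]
    refine mul_le_mul_of_nonneg_left ?_ (by positivity)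
    have h1 := hb x hx.1 hx.2.le
    have h2 : 0 ≤ x ^ (s * (k - 1)) := Real.rpow_nonneg hx.1.le _
    calc x ^ (s * (k - 1)) * ∫ t in (0:ℝ)..T, W x t ^ k ≤ x ^ (s * (k - 1)) * (B * x ^ (-(k ^ 2 / 4))) :=
          mul_le_mul_of_nonneg_left h1 h2
      _ = B * (x ^ (s * (k - 1)) * x ^ (-(k ^ 2 / 4))) := by ring
      _ = B * x ^ (-s) := by
          rw [← Real.rpow_add hx.1]
          congr 2
          rw [hs]; ring
  refine hfin.trans (le_of_eq ?_)
  rw [intervalIntegral.integral_const_mul, intervalIntegral.integral_const_mul, hrv]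
  have e3 : c0 ^ (1 - k) * (e ^ (1 - s) / (1 - s)) = (1 - s) ^ (-k) * e ^ (k - k ^ 2 / 4) := by
    rw [hc0, Real.mul_rpow hs1.le (by positivity), ← Real.rpow_mul he.le]
    have e4 : (1 - s) ^ (1 - k) = (1 - s) ^ (-k) * (1 - s) := by
      rw [← Real.rpow_add_one hs1.ne']; congr 1; ring
    have e5 : e ^ (k - k ^ 2 / 4) = e ^ ((s - 1) * (1 - k)) * e ^ (1 - s) := by
      rw [← Real.rpow_add he]; congr 1; rw [hs]; ring
    rw [e4, e5]
    field_simp
  calc c0 ^ (1 - k) * (B * (e ^ (1 - s) / (1 - s))) = B * (c0 ^ (1 - k) * (e ^ (1 - s) / (1 - s))) := by ring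
    _ = B * ((1 - k / 4) ^ (-k) * e ^ (k - k ^ 2 / 4)) := by rw [e3, hs]

/-- averages over windows -/
theorem ij {k a b h L T : ℝ} (hk : 1 ≤ k) (ha : 0 ≤ a) (hab : a < b) (hh : 0 ≤ h) (hL : h * b ≤ L) (hT : 0 ≤ T)
    {g : ℝ → ℝ} (hg : Continuous g) (hg0 : ∀ t, 0 ≤ g t) :
    ∫ t in (0:ℝ)..T, (∫ v in a..b, g (t + h * v)) ^ k ≤ (b - a) ^ k * ∫ t in (0:ℝ)..(T + L), g t ^ k := by
  have hk0 : 0 < k := by linarith
  have hab' : 0 < b - a := by linarith
  have hb : 0 ≤ b := by linarith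
  have hgk : Continuous fun t => g t ^ k := hg.rpow_const fun _ => Or.inr hk0.le
  have hpt : ∀ t, (∫ v in a..b, g (t + h * v)) ^ k ≤ (b - a) ^ (k - 1) * ∫ v in a..b, g (t + h * v) ^ k := by
    intro t
    have hgt : Continuous fun v => g (t + h * v) := hg.comp (by fun_prop)
    have hJ := jensen_int hk hab.le (p := fun _ => (b - a)⁻¹) (G := fun v => g (t + h * v)) continuousOn_const hgt.continuousOn
      (fun _ => by positivity) (fun v => hg0 _) (by
        rw [intervalIntegral.integral_const, smul_eq_mul, mul_inv_cancel₀ hab'.ne'])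
    rw [intervalIntegral.integral_const_mul, intervalIntegral.integral_const_mul] at hJ
    have hI0 : 0 ≤ ∫ v in a..b, g (t + h * v) := intervalIntegral.integral_nonneg hab.le fun v _ => hg0 _
    rw [Real.mul_rpow (by positivity) hI0, Real.inv_rpow hab'.le] at hJ
    have h1 : 0 < (b - a) ^ k := by positivity
    have h2 : (b - a) ^ k * (((b - a) ^ k)⁻¹ * (∫ v in a..b, g (t + h * v)) ^ k) ≤
        (b - a) ^ k * ((b - a)⁻¹ * ∫ v in a..b, g (t + h * v) ^ k) := mul_le_mul_of_nonneg_left hJ h1.le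
    rw [← mul_assoc, mul_inv_cancel₀ h1.ne', one_mul, ← mul_assoc, ← Real.rpow_neg_one (b - a),
      ← Real.rpow_add hab'] at h2
    exact h2
  have hV : Continuous fun q : ℝ × ℝ => g (q.1 + h * q.2) ^ k := hgk.comp (by fun_prop : Continuous fun q : ℝ × ℝ => q.1 + h * q.2)
  have hc1 : Continuous fun t : ℝ => (∫ v in a..b, g (t + h * v)) ^ k :=
    (intervalIntegral.continuous_parametric_intervalIntegral_of_continuous'
      (f := fun t v : ℝ => g (t + h * v)) (hg.comp (by fun_prop : Continuous fun q : ℝ × ℝ => q.1 + h * q.2)) _ _).rpow_const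
      fun _ => Or.inr hk0.le
  have hc2 : Continuous fun t : ℝ => (b - a) ^ (k - 1) * ∫ v in a..b, g (t + h * v) ^ k :=
    continuous_const.mul (intervalIntegral.continuous_parametric_intervalIntegral_of_continuous' hV _ _)
  have hmain := intervalIntegral.integral_mono_on (μ := volume) hT (hc1.intervalIntegrable 0 T) (hc2.intervalIntegrable 0 T) fun t _ => hpt t
  refine hmain.trans ?_
  rw [intervalIntegral.integral_const_mul]
  have hsw : ∫ t in (0:ℝ)..T, (∫ v in a..b, g (t + h * v) ^ k) = ∫ v in a..b, (∫ t in (0:ℝ)..T, g (t + h * v) ^ k) := by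
    refine MeasureTheory.intervalIntegral_intervalIntegral_swap ?_
    refine ((hV.continuousOn (s := Set.uIcc 0 T ×ˢ Set.uIcc a b)).integrableOn_compact
      (isCompact_uIcc.prod isCompact_uIcc)).mono_set ?_
    exact Set.prod_mono Set.uIoc_subset_uIcc Set.uIoc_subset_uIcc
  rw [hsw]
  have hc3 : Continuous fun v : ℝ => ∫ t in (0:ℝ)..T, g (t + h * v) ^ k :=
    intervalIntegral.continuous_parametric_intervalIntegral_of_continuous'
      (f := fun v t : ℝ => g (t + h * v) ^ k) (hV.comp (by fun_prop : Continuous fun q : ℝ × ℝ => (q.2, q.1))) _ _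
  have hin : ∫ v in a..b, (∫ t in (0:ℝ)..T, g (t + h * v) ^ k) ≤ ∫ _v in a..b, (∫ t in (0:ℝ)..(T + L), g t ^ k) := by
    refine intervalIntegral.integral_mono_on hab.le (hc3.intervalIntegrable _ _) (by simp) fun v hv => ?_
    rw [intervalIntegral.integral_comp_add_right (fun t => g t ^ k)]
    have h1 : 0 ≤ h * v := mul_nonneg hh (by linarith [hv.1])
    have h2 : h * v ≤ L := (mul_le_mul_of_nonneg_left hv.2 hh).trans hL
    exact intervalIntegral.integral_mono_interval (by linarith) (by linarith) (by linarith)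
      (Eventually.of_forall fun t => Real.rpow_nonneg (hg0 t) _) (hgk.intervalIntegrable _ _)
  rw [intervalIntegral.integral_const, smul_eq_mul] at hin
  calc (b - a) ^ (k - 1) * ∫ v in a..b, (∫ t in (0:ℝ)..T, g (t + h * v) ^ k)
      ≤ (b - a) ^ (k - 1) * ((b - a) * ∫ t in (0:ℝ)..(T + L), g t ^ k) := mul_le_mul_of_nonneg_left hin (by positivity)
    _ = (b - a) ^ k * ∫ t in (0:ℝ)..(T + L), g t ^ k := by
        rw [← mul_assoc, ← Real.rpow_add_one hab'.ne']; congr 2; ring

end Pool.Agent.H60.LM
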