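import Pool.Agent.H60.LM.Hom

/-! Existence of the limits. -/

set_option autoImplicit false

open Complex MeasureTheory Filter Topology Set

namespace Pool.Agent.H60.LM

lemma lm_cont {f : ℝ → ℂ} (hf : Continuous f) (a b h : ℝ) {x : ℝ} (hx : x ≤ 1 / 4) : Continuous fun t => lm f a b h x t := by
  unfold lm
  exact intervalIntegral.continuous_parametric_intervalIntegral_of_continuous'
    (f := fun t u : ℝ => f u * zx x (t + h * u))
    ((hf.comp continuous_snd).mul ((zx_cont hx).comp (by fun_prop : Continuous fun q : ℝ × ℝ => q.1 + h * q.2))) _ _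

lemma rs_cont (f : ℝ → ℂ) (a b h : ℝ) {x : ℝ} (hx : x ≤ 1 / 4) (n : ℕ) : Continuous fun t => rs f a b h x n t := by
  unfold rs
  exact continuous_finsetSum _ fun i _ => continuous_const.mul ((zx_cont hx).comp (by fun_prop))

/-- the error of the approximation -/
theorem diff_bound {k a b : ℝ} (hk : 1 ≤ k) (hk4 : k < 4) {f : ℝ → ℂ} (hf : ContDiff ℝ 1 f) (ha : 0 ≤ a) (hab : a < b) :
    ∃ C : ℝ, 0 < C ∧ ∀ h : ℝ → ℝ, Tendsto h atTop (𝓝 0) → Tendsto (fun T : ℝ => h T * Real.log T) atTop atTop →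
      ∀ ε : ℝ, 0 < ε → ∀ n : ℕ, 0 < n → ∀ᶠ T : ℝ in atTop,
        h T ^ (k ^ 2 / 4) / T * ∫ t in (0:ℝ)..T, ‖lm f a b (h T) 0 t - rs f a b (h T) (ε * h T) n t‖ ^ k ≤
          C * (ε ^ (k - k ^ 2 / 4) + ε ^ (-(k ^ 2 / 4) - k) * ((n : ℝ)⁻¹) ^ k) := by
  have hk0 : 0 < k := by linarith
  have hba : 0 < b - a := by linarith
  obtain ⟨C1, x₀, T₀, hC1, hx₀, hx16, hT₀, hver⟩ := ver hk hk4 hf ha hab
  obtain ⟨C2, hC2, hdz⟩ := dz_mom (b := b) hk0 hk4.le (by linarith)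
  obtain ⟨K₁, hK₁⟩ := isCompact_Icc.exists_bound_of_continuousOn (s := Set.Icc a b) hf.continuous.continuousOn
  set K : ℝ := max K₁ 1 with hK
  have hK0 : 0 < K := lt_of_lt_of_le one_pos (le_max_right _ _)
  have hK1 : ∀ v ∈ Set.Icc a b, ‖f v‖ ≤ K := fun v hv => (hK₁ v hv).trans (le_max_left _ _)
  refine ⟨2 ^ k * (C1 + (K * (b - a) ^ 2) ^ k * C2), by positivity, fun h h0 hL ε hε n hn => ?_⟩
  have hn0 : (0 : ℝ) < n := by exact_mod_cast hn
  have hδ : Tendsto (fun T => ε * h T) atTop (𝓝 0) := by simpa using h0.const_mul ε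
  have hδL : Tendsto (fun T : ℝ => (ε * h T) * Real.log T) atTop atTop :=
    (hL.const_mul_atTop hε).congr fun T => by ring
  filter_upwards [hdz _ hδ hδL, ev_pos hL, h0.eventually (gt_mem_nhds one_pos), hδ.eventually (gt_mem_nhds hx₀),
    eventually_ge_atTop T₀, eventually_ge_atTop (1 : ℝ)] with T h1 h2 h3 h4 h5 h6
  have hT0 : 0 < T := by linarith
  have hδp : 0 < ε * h T := by positivity
  have hδ4 : ε * h T ≤ 1 / 4 := by linarith
  have hv := hver T h5 (h T) h2 h3.le (ε * h T) hδp h4.le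
  have hr := rs_mom hk hf.continuous (x := ε * h T) (T := T) ha hab h2.le h3.le hδ4 hK0.le hK1 hn hT0.le
  set D1 := ∫ t in (0:ℝ)..T, ‖lm f a b (h T) (ε * h T) t - lm f a b (h T) 0 t‖ ^ k with hD1
  set D2 := ∫ t in (0:ℝ)..T, ‖lm f a b (h T) (ε * h T) t - rs f a b (h T) (ε * h T) n t‖ ^ k with hD2
  have c0 := lm_cont hf.continuous a b (h T) (x := 0) (by norm_num)
  have c1 := lm_cont hf.continuous a b (h T) hδ4
  have c2 := rs_cont f a b (h T) hδ4 n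
  have i1 : Continuous fun t => ‖lm f a b (h T) (ε * h T) t - lm f a b (h T) 0 t‖ ^ k :=
    (c1.sub c0).norm.rpow_const fun _ => Or.inr hk0.le
  have i2 : Continuous fun t => ‖lm f a b (h T) (ε * h T) t - rs f a b (h T) (ε * h T) n t‖ ^ k :=
    (c1.sub c2).norm.rpow_const fun _ => Or.inr hk0.le
  have i3 : Continuous fun t => ‖lm f a b (h T) 0 t - rs f a b (h T) (ε * h T) n t‖ ^ k :=
    (c0.sub c2).norm.rpow_const fun _ => Or.inr hk0.le
  have i4 : Continuous fun t => 2 ^ k * (‖lm f a b (h T) (ε * h T) t - lm f a b (h T) 0 t‖ ^ k +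
      ‖lm f a b (h T) (ε * h T) t - rs f a b (h T) (ε * h T) n t‖ ^ k) := continuous_const.mul (i1.add i2)
  have hsum : ∫ t in (0:ℝ)..T, ‖lm f a b (h T) 0 t - rs f a b (h T) (ε * h T) n t‖ ^ k ≤ 2 ^ k * (D1 + D2) := by
    have h7 := intervalIntegral.integral_mono_on (μ := volume) hT0.le (i3.intervalIntegrable 0 T) (i4.intervalIntegrable 0 T)
      (fun t _ => by
        refine le_trans (Real.rpow_le_rpow (norm_nonneg _) ?_ hk0.le)
          (add_rpow_le (norm_nonneg (lm f a b (h T) (ε * h T) t - lm f a b (h T) 0 t))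
            (norm_nonneg (lm f a b (h T) (ε * h T) t - rs f a b (h T) (ε * h T) n t)) hk0.le)
        have e : lm f a b (h T) 0 t - rs f a b (h T) (ε * h T) n t =
            -(lm f a b (h T) (ε * h T) t - lm f a b (h T) 0 t) +
            (lm f a b (h T) (ε * h T) t - rs f a b (h T) (ε * h T) n t) := by ring
        rw [e]
        refine (norm_add_le _ _).trans ?_
        rw [norm_neg])
    rw [intervalIntegral.integral_const_mul, intervalIntegral.integral_add (i1.intervalIntegrable _ _)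
      (i2.intervalIntegrable _ _)] at h7
    exact h7
  have hT' : 0 ≤ h T ^ (k ^ 2 / 4) / T := by positivity
  -- the two terms
  have t1 : h T ^ (k ^ 2 / 4) / T * D1 ≤ C1 * ε ^ (k - k ^ 2 / 4) := by
    refine (mul_le_mul_of_nonneg_left hv hT').trans (le_of_eq ?_)
    have e1 : (ε * h T) ^ (k - k ^ 2 / 4) = ε ^ (k - k ^ 2 / 4) * (h T ^ k * h T ^ (-(k ^ 2 / 4))) := by
      rw [Real.mul_rpow hε.le h2.le, ← Real.rpow_add h2]
      congr 2
    have e2 : h T ^ (k ^ 2 / 4) * h T ^ (-(k ^ 2 / 4)) = 1 := by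
      rw [← Real.rpow_add h2]; simp
    have e3 : h T ^ k ≠ 0 := by positivity
    rw [e1]
    calc h T ^ (k ^ 2 / 4) / T * (C1 * T * (ε ^ (k - k ^ 2 / 4) * (h T ^ k * h T ^ (-(k ^ 2 / 4))) / h T ^ k))
        = C1 * ε ^ (k - k ^ 2 / 4) * (h T ^ (k ^ 2 / 4) * h T ^ (-(k ^ 2 / 4))) := by field_simp
      _ = _ := by rw [e2, mul_one]
  have t2 : h T ^ (k ^ 2 / 4) / T * D2 ≤ (K * (b - a) ^ 2) ^ k * C2 * (ε ^ (-(k ^ 2 / 4) - k) * ((n : ℝ)⁻¹) ^ k) := by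
    have h7 : D2 ≤ (K * (b - a) ^ 2 * h T / n) ^ k * (C2 * T * (ε * h T) ^ (-(k ^ 2 / 4) - k)) :=
      hr.trans (mul_le_mul_of_nonneg_left h1 (by positivity))
    refine (mul_le_mul_of_nonneg_left h7 hT').trans (le_of_eq ?_)
    have e1 : (K * (b - a) ^ 2 * h T / n) ^ k = (K * (b - a) ^ 2) ^ k * h T ^ k * ((n : ℝ)⁻¹) ^ k := by
      rw [div_eq_mul_inv, Real.mul_rpow (by positivity) (by positivity), Real.mul_rpow (by positivity) h2.le]
    have e2 : (ε * h T) ^ (-(k ^ 2 / 4) - k) = ε ^ (-(k ^ 2 / 4) - k) * h T ^ (-(k ^ 2 / 4) - k) :=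
      Real.mul_rpow hε.le h2.le
    have e3 : h T ^ (k ^ 2 / 4) * (h T ^ k * h T ^ (-(k ^ 2 / 4) - k)) = 1 := by
      rw [← Real.rpow_add h2, ← Real.rpow_add h2]
      rw [show k ^ 2 / 4 + (k + (-(k ^ 2 / 4) - k)) = 0 by ring, Real.rpow_zero]
    rw [e1, e2]
    calc h T ^ (k ^ 2 / 4) / T * ((K * (b - a) ^ 2) ^ k * h T ^ k * ((n : ℝ)⁻¹) ^ k *
          (C2 * T * (ε ^ (-(k ^ 2 / 4) - k) * h T ^ (-(k ^ 2 / 4) - k))))
        = (K * (b - a) ^ 2) ^ k * C2 * (ε ^ (-(k ^ 2 / 4) - k) * ((n : ℝ)⁻¹) ^ k) *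
          (h T ^ (k ^ 2 / 4) * (h T ^ k * h T ^ (-(k ^ 2 / 4) - k))) := by field_simp
      _ = _ := by rw [e3, mul_one]
  have hA : 0 ≤ ε ^ (k - k ^ 2 / 4) := by positivity
  have hB : 0 ≤ ε ^ (-(k ^ 2 / 4) - k) * ((n : ℝ)⁻¹) ^ k := by positivity
  have hKK : 0 ≤ (K * (b - a) ^ 2) ^ k * C2 := by positivity
  have h2k : (0 : ℝ) ≤ 2 ^ k := by positivity
  calc h T ^ (k ^ 2 / 4) / T * ∫ t in (0:ℝ)..T, ‖lm f a b (h T) 0 t - rs f a b (h T) (ε * h T) n t‖ ^ k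
      ≤ h T ^ (k ^ 2 / 4) / T * (2 ^ k * (D1 + D2)) := mul_le_mul_of_nonneg_left hsum hT'
    _ = 2 ^ k * (h T ^ (k ^ 2 / 4) / T * D1 + h T ^ (k ^ 2 / 4) / T * D2) := by ring
    _ ≤ 2 ^ k * (C1 * ε ^ (k - k ^ 2 / 4) + (K * (b - a) ^ 2) ^ k * C2 * (ε ^ (-(k ^ 2 / 4) - k) * ((n : ℝ)⁻¹) ^ k)) :=
        mul_le_mul_of_nonneg_left (add_le_add t1 t2) h2k
    _ ≤ 2 ^ k * ((C1 + (K * (b - a) ^ 2) ^ k * C2) * (ε ^ (k - k ^ 2 / 4) + ε ^ (-(k ^ 2 / 4) - k) * ((n : ℝ)⁻¹) ^ k)) := by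
        refine mul_le_mul_of_nonneg_left ?_ h2k
        nlinarith [mul_nonneg hC1.le hB, mul_nonneg hKK hA]
    _ = _ := by ring

/-- a function approximated by convergent ones converges -/
lemma conv_of_approx {A : ℝ → ℝ} (H : ∀ η : ℝ, 0 < η → ∃ (B : ℝ → ℝ) (ℓ : ℝ), Tendsto B atTop (𝓝 ℓ) ∧
    ∀ᶠ T : ℝ in atTop, |A T - B T| ≤ η) : ∃ ℓ, Tendsto A atTop (𝓝 ℓ) := by
  apply cauchySeq_tendsto_of_complete
  rw [Metric.cauchySeq_iff]
  intro δ hδ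
  obtain ⟨B, ℓ, hB, hAB⟩ := H (δ / 8) (by positivity)
  have h1 : ∀ᶠ T : ℝ in atTop, |B T - ℓ| < δ / 8 := by
    have := (Metric.tendsto_nhds.1 hB) (δ / 8) (by positivity)
    simpa [Real.dist_eq] using this
  obtain ⟨N, hN⟩ := eventually_atTop.1 (hAB.and h1)
  refine ⟨N, fun x hx y hy => ?_⟩
  obtain ⟨a1, a2⟩ := hN x hx
  obtain ⟨b1, b2⟩ := hN y hy
  rw [Real.dist_eq]
  have a1' := abs_le.1 a1
  have b1' := abs_le.1 b1
  have a2' := abs_lt.1 a2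
  have b2' := abs_lt.1 b2
  rw [abs_lt]
  constructor <;> linarith [a1'.1, a1'.2, b1'.1, b1'.2, a2'.1, a2'.2, b2'.1, b2'.2]

/-- small errors -/
lemma choose_eps {k : ℝ} (hk : 1 ≤ k) (hk4 : k < 4) {C δ : ℝ} (hC : 0 < C) (hδ : 0 < δ) : ∃ (ε : ℝ) (n : ℕ), 0 < ε ∧ 0 < n ∧
    C * (ε ^ (k - k ^ 2 / 4) + ε ^ (-(k ^ 2 / 4) - k) * ((n : ℝ)⁻¹) ^ k) ≤ δ := by
  have hk0 : 0 < k := by linarith
  have hexp : 0 < k - k ^ 2 / 4 := by nlinarith
  have h1 : Tendsto (fun ε : ℝ => C * ε ^ (k - k ^ 2 / 4)) (𝓝[>] 0) (𝓝 0) := by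
    have h2 : Tendsto (fun ε : ℝ => ε ^ (k - k ^ 2 / 4)) (𝓝[>] 0) (𝓝 ((0 : ℝ) ^ (k - k ^ 2 / 4))) :=
      ((Real.continuous_rpow_const hexp.le).tendsto 0).mono_left nhdsWithin_le_nhds
    rw [Real.zero_rpow hexp.ne'] at h2
    simpa using h2.const_mul C
  obtain ⟨ε, hε1, hε2⟩ := ((h1.eventually (gt_mem_nhds (show (0 : ℝ) < δ / 2 by positivity))).and self_mem_nhdsWithin).exists
  have hε : 0 < ε := hε2
  have h3 : Tendsto (fun n : ℕ => C * ε ^ (-(k ^ 2 / 4) - k) * ((n : ℝ)⁻¹) ^ k) atTop (𝓝 0) := by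
    have h4 : Tendsto (fun n : ℕ => ((n : ℝ)⁻¹) ^ k) atTop (𝓝 ((0 : ℝ) ^ k)) :=
      ((Real.continuous_rpow_const hk0.le).tendsto 0).comp tendsto_inv_atTop_nhds_zero_nat
    rw [Real.zero_rpow hk0.ne'] at h4
    simpa using h4.const_mul (C * ε ^ (-(k ^ 2 / 4) - k))
  obtain ⟨n, hn1, hn2⟩ := ((h3.eventually (gt_mem_nhds (show (0 : ℝ) < δ / 2 by positivity))).and (eventually_gt_atTop 0)).exists
  exact ⟨ε, n, hε, hn2, by linarith⟩

/-- boundedness -/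
theorem lm_bdd {k a b : ℝ} (hk : 1 ≤ k) (hk4 : k < 4) {f : ℝ → ℂ} (hf : ContDiff ℝ 1 f) (ha : 0 ≤ a) (hab : a < b)
    {h : ℝ → ℝ} (h0 : Tendsto h atTop (𝓝 0)) (hL : Tendsto (fun T : ℝ => h T * Real.log T) atTop atTop) :
    ∃ M : ℝ, 0 ≤ M ∧ ∀ᶠ T : ℝ in atTop, h T ^ (k ^ 2 / 4) / T * ∫ t in (0:ℝ)..T, ‖lm f a b (h T) 0 t‖ ^ k ≤ M := by
  have hk0 : 0 < k := by linarith
  obtain ⟨C, hC, hd⟩ := diff_bound hk hk4 hf ha hab
  have hd1 := hd h h0 hL 1 one_pos 1 one_pos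
  have hΦh : Pool.Agent.V11128.CXL.Hom k (fun z : Fin 1 → ℂ => ‖z 0‖ ^ k) := by
    intro l z
    simp only
    rw [norm_mul, Real.mul_rpow (norm_nonneg _) (norm_nonneg _)]
  have hΦc : Continuous (fun z : Fin 1 → ℂ => ‖z 0‖ ^ k) := (continuous_apply 0).norm.rpow_const fun _ => Or.inr hk0.le
  obtain ⟨ℓ, hℓ⟩ := rs_lim hk0 hk4.le hΦc hΦh (fun _ => f) (fun _ => a) (fun _ => b) h0 hL one_pos 1
  have hℓ' := hℓ.eventually_le_const (show ℓ < ℓ + 1 by linarith)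
  refine ⟨max (2 ^ k * (C * ((1 : ℝ) ^ (k - k ^ 2 / 4) + (1 : ℝ) ^ (-(k ^ 2 / 4) - k) * (((1 : ℕ) : ℝ)⁻¹) ^ k) + (ℓ + 1))) 0,
    le_max_right _ _, ?_⟩
  filter_upwards [hd1, hℓ', ev_pos hL, h0.eventually (gt_mem_nhds (show (0 : ℝ) < 1 / 4 by norm_num)),
    eventually_gt_atTop (0 : ℝ)] with T h1 h2 h3 h4 h5
  refine le_trans ?_ (le_max_left _ _)
  have hT' : 0 ≤ h T ^ (k ^ 2 / 4) / T := by positivity
  rw [integral_Icc_eq_integral_Ioc, ← intervalIntegral.integral_of_le h5.le] at h2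
  have hx : 1 * h T ≤ 1 / 4 := by linarith
  have c0 := lm_cont hf.continuous a b (h T) (x := 0) (by norm_num)
  have c2 := rs_cont f a b (h T) hx 1
  have i1 : Continuous fun t => ‖lm f a b (h T) 0 t - rs f a b (h T) (1 * h T) 1 t‖ ^ k :=
    (c0.sub c2).norm.rpow_const fun _ => Or.inr hk0.le
  have i2 : Continuous fun t => ‖rs f a b (h T) (1 * h T) 1 t‖ ^ k := c2.norm.rpow_const fun _ => Or.inr hk0.le
  have i3 : Continuous fun t => ‖lm f a b (h T) 0 t‖ ^ k := c0.norm.rpow_const fun _ => Or.inr hk0.le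
  have i4 : Continuous fun t => 2 ^ k * (‖lm f a b (h T) 0 t - rs f a b (h T) (1 * h T) 1 t‖ ^ k +
      ‖rs f a b (h T) (1 * h T) 1 t‖ ^ k) := continuous_const.mul (i1.add i2)
  have h7 := intervalIntegral.integral_mono_on (μ := volume) h5.le (i3.intervalIntegrable 0 T) (i4.intervalIntegrable 0 T)
    (fun t _ => by
      refine le_trans (Real.rpow_le_rpow (norm_nonneg _) ?_ hk0.le)
        (add_rpow_le (norm_nonneg (lm f a b (h T) 0 t - rs f a b (h T) (1 * h T) 1 t))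
          (norm_nonneg (rs f a b (h T) (1 * h T) 1 t)) hk0.le)
      have := norm_add_le (lm f a b (h T) 0 t - rs f a b (h T) (1 * h T) 1 t) (rs f a b (h T) (1 * h T) 1 t)
      rwa [sub_add_cancel] at this)
  rw [intervalIntegral.integral_const_mul, intervalIntegral.integral_add (i1.intervalIntegrable _ _)
    (i2.intervalIntegrable _ _)] at h7
  have h8 := mul_le_mul_of_nonneg_left h7 hT'
  refine h8.trans ?_
  have h2k : (0 : ℝ) ≤ 2 ^ k := by positivity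
  calc h T ^ (k ^ 2 / 4) / T * (2 ^ k * ((∫ t in (0:ℝ)..T, ‖lm f a b (h T) 0 t - rs f a b (h T) (1 * h T) 1 t‖ ^ k) +
        ∫ t in (0:ℝ)..T, ‖rs f a b (h T) (1 * h T) 1 t‖ ^ k))
      = 2 ^ k * (h T ^ (k ^ 2 / 4) / T * (∫ t in (0:ℝ)..T, ‖lm f a b (h T) 0 t - rs f a b (h T) (1 * h T) 1 t‖ ^ k) +
        h T ^ (k ^ 2 / 4) / T * ∫ t in (0:ℝ)..T, ‖rs f a b (h T) (1 * h T) 1 t‖ ^ k) := by ring
    _ ≤ _ := mul_le_mul_of_nonneg_left (add_le_add h1 h2) h2k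

/-- existence of the limit along every admissible window function -/
theorem lim {m : ℕ} {k : ℝ} (hk : 1 ≤ k) (hk4 : k < 4) {f : Fin m → ℝ → ℂ} (hf : ∀ j, ContDiff ℝ 1 (f j))
    {a b : Fin m → ℝ} (ha : ∀ j, 0 ≤ a j) (hab : ∀ j, a j < b j) {Φ : (Fin m → ℂ) → ℝ} (hc : Continuous Φ)
    (hh : Pool.Agent.V11128.CXL.Hom k Φ) {h : ℝ → ℝ} (h0 : Tendsto h atTop (𝓝 0))
    (hL : Tendsto (fun T : ℝ => h T * Real.log T) atTop atTop) :
    ∃ ℓ : ℝ, Tendsto (fun T : ℝ => h T ^ (k ^ 2 / 4) / T *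
      ∫ t in (0:ℝ)..T, Φ (fun j => lm (f j) (a j) (b j) (h T) 0 t)) atTop (𝓝 ℓ) := by
  have hk0 : 0 < k := by linarith
  choose M hM0 hM using fun j => lm_bdd hk hk4 (hf j) (ha j) (hab j) h0 hL
  choose C hC hd using fun j => diff_bound hk hk4 (hf j) (ha j) (hab j)
  set MS := ∑ j, M j with hMS
  have hMS0 : 0 ≤ MS := Finset.sum_nonneg fun j _ => hM0 j
  set CS := 1 + ∑ j, C j with hCS
  have hCS0 : 0 < CS := by
    have : 0 ≤ ∑ j, C j := Finset.sum_nonneg fun j _ => (hC j).le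
    rw [hCS]; linarith
  refine conv_of_approx fun η hη => ?_
  obtain ⟨D, hD, hmod⟩ := hom_mod hk0 hc hh (η := η / (2 * (MS + 1))) (by positivity)
  obtain ⟨ε, n, hε, hn, hsmall⟩ := choose_eps hk hk4 (C := D * CS) (δ := η / 2) (by positivity) (by positivity)
  obtain ⟨ℓ, hℓ⟩ := rs_lim hk0 hk4.le hc hh f a b h0 hL hε n
  refine ⟨_, ℓ, hℓ, ?_⟩
  filter_upwards [eventually_all.2 hM, eventually_all.2 fun j => hd j h h0 hL ε hε n hn, ev_pos hL,
    h0.eventually (gt_mem_nhds (show (0 : ℝ) < 1 / (4 * ε) by positivity)), eventually_gt_atTop (0 : ℝ)] with T h1 h2 h3 h4 h5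
  have hx : ε * h T ≤ 1 / 4 := by
    have := mul_le_mul_of_nonneg_left h4.le hε.le
    have e : ε * (1 / (4 * ε)) = 1 / 4 := by field_simp
    linarith
  have hT' : 0 ≤ h T ^ (k ^ 2 / 4) / T := by positivity
  rw [integral_Icc_eq_integral_Ioc, ← intervalIntegral.integral_of_le h5.le, ← mul_sub]
  have c0 := fun j => lm_cont (hf j).continuous (a j) (b j) (h T) (x := 0) (by norm_num)
  have c2 := fun j => rs_cont (f j) (a j) (b j) (h T) hx n
  have p0 : Continuous fun t => Φ (fun j => lm (f j) (a j) (b j) (h T) 0 t) := hc.comp (continuous_pi c0)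
  have p2 : Continuous fun t => Φ (fun j => rs (f j) (a j) (b j) (h T) (ε * h T) n t) := hc.comp (continuous_pi c2)
  rw [← intervalIntegral.integral_sub (p0.intervalIntegrable _ _) (p2.intervalIntegrable _ _), abs_mul, abs_of_nonneg hT']
  have i1 : ∀ j, Continuous fun t => ‖lm (f j) (a j) (b j) (h T) 0 t - rs (f j) (a j) (b j) (h T) (ε * h T) n t‖ ^ k :=
    fun j => ((c0 j).sub (c2 j)).norm.rpow_const fun _ => Or.inr hk0.le
  have i3 : ∀ j, Continuous fun t => ‖lm (f j) (a j) (b j) (h T) 0 t‖ ^ k :=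
    fun j => (c0 j).norm.rpow_const fun _ => Or.inr hk0.le
  have s1 : Continuous fun t => ∑ j, ‖lm (f j) (a j) (b j) (h T) 0 t - rs (f j) (a j) (b j) (h T) (ε * h T) n t‖ ^ k :=
    continuous_finsetSum _ fun j _ => i1 j
  have s3 : Continuous fun t => ∑ j, ‖lm (f j) (a j) (b j) (h T) 0 t‖ ^ k := continuous_finsetSum _ fun j _ => i3 j
  have s4 : Continuous fun t => η / (2 * (MS + 1)) * (∑ j, ‖lm (f j) (a j) (b j) (h T) 0 t‖ ^ k) := continuous_const.mul s3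
  have s5 : Continuous fun t => D * ∑ j, ‖lm (f j) (a j) (b j) (h T) 0 t - rs (f j) (a j) (b j) (h T) (ε * h T) n t‖ ^ k :=
    continuous_const.mul s1
  have s6 : Continuous fun t => η / (2 * (MS + 1)) * (∑ j, ‖lm (f j) (a j) (b j) (h T) 0 t‖ ^ k) +
      D * ∑ j, ‖lm (f j) (a j) (b j) (h T) 0 t - rs (f j) (a j) (b j) (h T) (ε * h T) n t‖ ^ k := s4.add s5
  have h7 : |∫ t in (0:ℝ)..T, (Φ (fun j => lm (f j) (a j) (b j) (h T) 0 t) -
      Φ (fun j => rs (f j) (a j) (b j) (h T) (ε * h T) n t))| ≤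
      ∫ t in (0:ℝ)..T, (η / (2 * (MS + 1)) * (∑ j, ‖lm (f j) (a j) (b j) (h T) 0 t‖ ^ k) +
      D * ∑ j, ‖lm (f j) (a j) (b j) (h T) 0 t - rs (f j) (a j) (b j) (h T) (ε * h T) n t‖ ^ k) := by
    rw [← Real.norm_eq_abs]
    refine intervalIntegral.norm_integral_le_of_norm_le h5.le (ae_of_all _ fun t _ => ?_) (s6.intervalIntegrable _ _)
    rw [Real.norm_eq_abs, abs_sub_comm]
    refine (hmod _ _).trans (le_of_eq ?_)
    congr 2
    refine Finset.sum_congr rfl fun j _ => ?_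
    rw [norm_sub_rev]
  rw [intervalIntegral.integral_add (s4.intervalIntegrable _ _) (s5.intervalIntegrable _ _),
    intervalIntegral.integral_const_mul, intervalIntegral.integral_const_mul,
    intervalIntegral.integral_finsetSum (fun j _ => (i3 j).intervalIntegrable _ _),
    intervalIntegral.integral_finsetSum (fun j _ => (i1 j).intervalIntegrable _ _)] at h7
  have h8 : h T ^ (k ^ 2 / 4) / T * ∑ j, ∫ t in (0:ℝ)..T, ‖lm (f j) (a j) (b j) (h T) 0 t‖ ^ k ≤ MS := by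
    rw [Finset.mul_sum]
    exact Finset.sum_le_sum fun j _ => h1 j
  set E := ε ^ (k - k ^ 2 / 4) + ε ^ (-(k ^ 2 / 4) - k) * ((n : ℝ)⁻¹) ^ k with hE
  have hE0 : 0 ≤ E := by positivity
  have h9 : h T ^ (k ^ 2 / 4) / T * ∑ j, ∫ t in (0:ℝ)..T,
      ‖lm (f j) (a j) (b j) (h T) 0 t - rs (f j) (a j) (b j) (h T) (ε * h T) n t‖ ^ k ≤ CS * E := by
    rw [Finset.mul_sum]
    refine (Finset.sum_le_sum fun j _ => h2 j).trans ?_
    rw [← Finset.sum_mul]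
    exact mul_le_mul_of_nonneg_right (by rw [hCS]; linarith) hE0
  calc h T ^ (k ^ 2 / 4) / T * |∫ t in (0:ℝ)..T, (Φ (fun j => lm (f j) (a j) (b j) (h T) 0 t) -
      Φ (fun j => rs (f j) (a j) (b j) (h T) (ε * h T) n t))| ≤ h T ^ (k ^ 2 / 4) / T *
        (η / (2 * (MS + 1)) * (∑ j, ∫ t in (0:ℝ)..T, ‖lm (f j) (a j) (b j) (h T) 0 t‖ ^ k) +
        D * ∑ j, ∫ t in (0:ℝ)..T, ‖lm (f j) (a j) (b j) (h T) 0 t - rs (f j) (a j) (b j) (h T) (ε * h T) n t‖ ^ k) :=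
        mul_le_mul_of_nonneg_left h7 hT'
    _ = η / (2 * (MS + 1)) * (h T ^ (k ^ 2 / 4) / T * ∑ j, ∫ t in (0:ℝ)..T, ‖lm (f j) (a j) (b j) (h T) 0 t‖ ^ k) +
        D * (h T ^ (k ^ 2 / 4) / T * ∑ j, ∫ t in (0:ℝ)..T,
          ‖lm (f j) (a j) (b j) (h T) 0 t - rs (f j) (a j) (b j) (h T) (ε * h T) n t‖ ^ k) := by ring
    _ ≤ η / (2 * (MS + 1)) * MS + D * (CS * E) := by gcongr
    _ ≤ η / 2 + η / 2 := by
        refine add_le_add ?_ (le_trans (le_of_eq (by ring)) hsmall)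
        rw [div_mul_eq_mul_div, div_le_div_iff₀ (by positivity) (by norm_num)]
        nlinarith
    _ = η := by ring

end Pool.Agent.H60.LM
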