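import Mathlib

/-! From window functions to a uniform statement. -/

set_option autoImplicit false

open Filter Topology Set

namespace Pool.Agent.H60.LM

/-- If `Q T (h T)` converges for all admissible functions `h` then the limit is the same for all of them and
the convergence is uniform. -/
theorem unif {Q : ℝ → ℝ → ℝ} (H : ∀ h : ℝ → ℝ, Tendsto h atTop (𝓝 0) →
    Tendsto (fun T : ℝ => h T * Real.log T) atTop atTop → ∃ ℓ, Tendsto (fun T => Q T (h T)) atTop (𝓝 ℓ)) :
    ∃ ℓ : ℝ, ∀ ε : ℝ, 0 < ε → ∃ c T₀ : ℝ, 0 < c ∧ ∀ T : ℝ, T₀ ≤ T → ∀ h : ℝ, c / Real.log T ≤ h → h ≤ 1 / c →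
      |Q T h - ℓ| ≤ ε := by
  set h₀ : ℝ → ℝ := fun T => (Real.log T) ^ (-(1 / 2 : ℝ)) with hh₀
  have a1 : Tendsto h₀ atTop (𝓝 0) := (tendsto_rpow_neg_atTop (by norm_num)).comp Real.tendsto_log_atTop
  have a2 : Tendsto (fun T : ℝ => h₀ T * Real.log T) atTop atTop := by
    have h1 : Tendsto (fun T : ℝ => Real.log T ^ (1 / 2 : ℝ)) atTop atTop :=
      (tendsto_rpow_atTop (by norm_num)).comp Real.tendsto_log_atTop
    refine h1.congr' ?_
    filter_upwards [eventually_gt_atTop (1 : ℝ)] with T hT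
    have h2 := Real.log_pos hT
    simp only [hh₀]
    rw [← Real.rpow_add_one h2.ne']
    norm_num
  obtain ⟨ℓ, hℓ⟩ := H h₀ a1 a2
  refine ⟨ℓ, fun ε hε => ?_⟩
  by_contra hcon
  push Not at hcon
  have key : ∀ (n : ℕ) (T₀ : ℝ), ∃ T : ℝ, T₀ ≤ T ∧ ∃ h : ℝ, ((n : ℝ) + 1) / Real.log T ≤ h ∧ h ≤ 1 / ((n : ℝ) + 1) ∧
      ε < |Q T h - ℓ| := fun n T₀ => hcon _ T₀ (by positivity)
  choose F hF G hG1 hG2 hG3 using key
  -- a sequence
  let S : ℕ → ℝ := fun n => Nat.rec (F 0 2) (fun n s => F (n + 1) (s + 1)) n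
  have hS1 : ∀ n, S n + 1 ≤ S (n + 1) := fun n => hF _ _
  have hSm : StrictMono S := strictMono_nat_of_lt_succ fun n => by linarith [hS1 n]
  have hS2 : ∀ n : ℕ, (n : ℝ) + 2 ≤ S n := by
    intro n
    induction n with
    | zero =>
      have : (2 : ℝ) ≤ S 0 := hF 0 2
      simpa using this
    | succ n ih => push_cast; linarith [hS1 n]
  have hSgt : ∀ n : ℕ, (1 : ℝ) < S n := fun n => by
    have h1 := hS2 n
    have h5 : (0 : ℝ) ≤ n := Nat.cast_nonneg n
    linarith
  have hg : ∀ n : ℕ, ∃ h : ℝ, ((n : ℝ) + 1) / Real.log (S n) ≤ h ∧ h ≤ 1 / ((n : ℝ) + 1) ∧ ε < |Q (S n) h - ℓ| := by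
    intro n
    cases n with
    | zero => exact ⟨G 0 2, hG1 0 2, hG2 0 2, hG3 0 2⟩
    | succ n => exact ⟨G (n + 1) (S n + 1), hG1 _ _, hG2 _ _, hG3 _ _⟩
  choose g hg1 hg2 hg3 using hg
  set h : ℝ → ℝ := Function.extend S g h₀ with hh
  have hS : ∀ n, h (S n) = g n := fun n => hSm.injective.extend_apply _ _ _
  have hN : ∀ T, (¬ ∃ n, S n = T) → h T = h₀ T := fun T hT => Function.extend_apply' _ _ _ hT
  -- large points of the sequence have large index
  have hidx : ∀ N : ℕ, ∀ T, S N < T → ∀ n, S n = T → N < n := fun N T hT n hn => by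
    rw [← hn] at hT
    exact hSm.lt_iff_lt.1 hT
  have b1 : Tendsto h atTop (𝓝 0) := by
    rw [Metric.tendsto_nhds]
    intro δ hδ
    obtain ⟨N, hN1⟩ := exists_nat_one_div_lt hδ
    filter_upwards [(Metric.tendsto_nhds.1 a1) δ hδ, eventually_gt_atTop (S N)] with T h1 h2
    rcases Classical.em (∃ n, S n = T) with hT | hT
    · obtain ⟨n, hn⟩ := hT
      have h3 := hidx N T h2 n hn
      rw [← hn, hS n, Real.dist_eq, sub_zero]
      have h4 : 0 < g n := by
        refine lt_of_lt_of_le ?_ (hg1 n)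
        have := Real.log_pos (hSgt n)
        positivity
      rw [abs_of_pos h4]
      refine (hg2 n).trans_lt (lt_of_le_of_lt ?_ hN1)
      apply one_div_le_one_div_of_le (by positivity)
      have : (N : ℝ) ≤ n := by exact_mod_cast h3.le
      linarith
    · rw [hN T hT]; exact h1
  have b2 : Tendsto (fun T : ℝ => h T * Real.log T) atTop atTop := by
    rw [tendsto_atTop]
    intro M
    obtain ⟨N, hN1⟩ := exists_nat_ge M
    filter_upwards [a2.eventually_ge_atTop M, eventually_gt_atTop (S N)] with T h1 h2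
    rcases Classical.em (∃ n, S n = T) with hT | hT
    · obtain ⟨n, hn⟩ := hT
      have h3 := hidx N T h2 n hn
      rw [← hn, hS n]
      have hl := Real.log_pos (hSgt n)
      have h4 := hg1 n
      rw [div_le_iff₀ hl] at h4
      have : (N : ℝ) ≤ n := by exact_mod_cast h3.le
      linarith
    · rw [hN T hT]; exact h1
  obtain ⟨ℓ', hℓ'⟩ := H h b1 b2
  have hStop : Tendsto S atTop atTop := by
    refine tendsto_atTop_mono hS2 ?_
    exact tendsto_atTop_add_const_right _ _ tendsto_natCast_atTop_atTop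
  -- the limit along other points
  have hmid : Tendsto (fun n : ℕ => S n + 1 / 2) atTop atTop := tendsto_atTop_add_const_right _ _ hStop
  have hne : ∀ n, ¬ ∃ n', S n' = S n + 1 / 2 := by
    rintro n ⟨n', hn'⟩
    have h1 : n < n' := hSm.lt_iff_lt.1 (by linarith)
    have h2 : S (n + 1) ≤ S n' := hSm.monotone (Nat.succ_le_of_lt h1)
    linarith [hS1 n]
  have e1 : ℓ' = ℓ := by
    have h1 := hℓ'.comp hmid
    have h2 := hℓ.comp hmid
    refine tendsto_nhds_unique h1 (h2.congr fun n => ?_)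
    simp only [Function.comp]
    rw [hN _ (hne n)]
  have h3 := hℓ'.comp hStop
  rw [e1] at h3
  have h4 : ∀ᶠ n : ℕ in atTop, |Q (S n) (h (S n)) - ℓ| < ε := by
    have := (Metric.tendsto_nhds.1 h3) ε hε
    simpa [Real.dist_eq] using this
  obtain ⟨n, hn⟩ := h4.exists
  rw [hS n] at hn
  exact absurd hn (not_lt.2 (hg3 n).le)

end Pool.Agent.H60.LM
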