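import Pool.Agent.H60.LM.PosB
import Pool.Agent.H60.LM.Uni

/-! The order of the moments for all windows. -/

set_option autoImplicit false

open Complex MeasureTheory Filter Topology Set

namespace Pool.Agent.H60.LM

lemma h0_seq : Tendsto (fun T : ℝ => (Real.log T) ^ (-(1 / 2 : ℝ))) atTop (𝓝 0) ∧
    Tendsto (fun T : ℝ => (Real.log T) ^ (-(1 / 2 : ℝ)) * Real.log T) atTop atTop := by
  refine ⟨(tendsto_rpow_neg_atTop (by norm_num)).comp Real.tendsto_log_atTop, ?_⟩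
  have h1 : Tendsto (fun T : ℝ => Real.log T ^ (1 / 2 : ℝ)) atTop atTop :=
    (tendsto_rpow_atTop (by norm_num)).comp Real.tendsto_log_atTop
  refine h1.congr' ?_
  filter_upwards [eventually_gt_atTop (1 : ℝ)] with T hT
  have h2 := Real.log_pos hT
  rw [← Real.rpow_add_one h2.ne']
  norm_num

/-- from window functions to a uniform statement -/
theorem unif_ev {P : ℝ → ℝ → Prop} (H : ∀ h : ℝ → ℝ, Tendsto h atTop (𝓝 0) →
    Tendsto (fun T : ℝ => h T * Real.log T) atTop atTop → ∀ᶠ T : ℝ in atTop, P T (h T)) :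
    ∃ c T₀ : ℝ, 0 < c ∧ ∀ T : ℝ, T₀ ≤ T → ∀ h : ℝ, c / Real.log T ≤ h → h ≤ 1 / c → P T h := by
  classical
  have H' : ∀ h : ℝ → ℝ, Tendsto h atTop (𝓝 0) → Tendsto (fun T : ℝ => h T * Real.log T) atTop atTop →
      ∃ ℓ : ℝ, Tendsto (fun T => (fun T h : ℝ => if P T h then (0 : ℝ) else 1) T (h T)) atTop (𝓝 ℓ) := by
    intro h h0 hL
    refine ⟨0, tendsto_const_nhds.congr' ?_⟩
    filter_upwards [H h h0 hL] with T hT
    simp only [hT, if_true]
  obtain ⟨ℓ, hℓ⟩ := unif (Q := fun T h : ℝ => if P T h then (0 : ℝ) else 1) H'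
  have hℓ0 : |ℓ| ≤ 1 / 4 := by
    obtain ⟨c, T₀, hc, hu⟩ := hℓ (1 / 4) (by norm_num)
    obtain ⟨a1, a2⟩ := h0_seq
    obtain ⟨T, t1, t2, t3, t4⟩ := ((H _ a1 a2).and ((eventually_ge_atTop (max T₀ 3)).and
      ((a2.eventually_ge_atTop c).and (a1.eventually (gt_mem_nhds (show (0 : ℝ) < 1 / c by positivity)))))).exists
    have hT3 : 3 ≤ T := (le_max_right _ _).trans t2
    have hlog : 0 < Real.log T := Real.log_pos (by linarith)
    have h5 := hu T ((le_max_left _ _).trans t2) _ (by rw [div_le_iff₀ hlog]; exact t3) t4.le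
    simp only [t1, if_true, zero_sub, abs_neg] at h5
    exact h5
  obtain ⟨c, T₀, hc, hu⟩ := hℓ (1 / 4) (by norm_num)
  refine ⟨c, T₀, hc, fun T hT h h1 h2 => ?_⟩
  by_contra hP
  have h3 := hu T hT h h1 h2
  simp only [hP, if_false] at h3
  have h4 := abs_le.1 h3
  have h5 := abs_le.1 hℓ0
  linarith [h4.2, h5.2]

/-- upper bound of the mean by the moment of zeta -/
theorem lm0_up {k a b : ℝ} (hk : 1 ≤ k) (hk4 : k < 4) {f : ℝ → ℂ} (hf : Continuous f) (ha : 0 ≤ a) (hab : a < b) :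
    ∃ C : ℝ, 0 < C ∧ ∀ᶠ T : ℝ in atTop, ∀ h : ℝ, 0 < h → h ≤ 1 →
      T⁻¹ * ∫ t in (0:ℝ)..T, ‖lm f a b h 0 t‖ ^ k ≤ C * Real.log T ^ (k ^ 2 / 4) := by
  have hk0 : 0 < k := by linarith
  have hba : 0 < b - a := by linarith
  have hb : 0 ≤ b := by linarith
  obtain ⟨K₁, hK₁⟩ := isCompact_Icc.exists_bound_of_continuousOn (s := Set.Icc a b) hf.continuousOn
  set K : ℝ := max K₁ 1 with hK
  have hK0 : 0 < K := lt_of_lt_of_le one_pos (le_max_right _ _)
  have hK1 : ∀ v ∈ Set.Icc a b, ‖f v‖ ≤ K := fun v hv => (hK₁ v hv).trans (le_max_left _ _)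
  obtain ⟨C1, hC1, hmom⟩ := Pool.Agent.Helper156_SP.mom_upper_all hk0 hk4.le
  refine ⟨K ^ k * (b - a) ^ k * (C1 * (2 * (2 : ℝ) ^ (k ^ 2 / 4))), by positivity, ?_⟩
  have h1 : ∀ᶠ T : ℝ in atTop, ∫ t in (0:ℝ)..(T + b), Pool.Agent.Helper156_SP.az t ^ k ≤
      C1 * ((T + b) * Real.log (T + b) ^ (k ^ 2 / 4)) :=
    (tendsto_atTop_add_const_right atTop b tendsto_id).eventually hmom
  filter_upwards [h1, eventually_ge_atTop (max b 3)] with T h1 h2 h hh hh1
  have hTb : b ≤ T := (le_max_left _ _).trans h2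
  have hT3 : 3 ≤ T := (le_max_right _ _).trans h2
  have hT0 : 0 < T := by linarith
  have hlog : 0 < Real.log T := Real.log_pos (by linarith)
  have hlog2 : Real.log (T + b) ≤ 2 * Real.log T := by
    have : Real.log (T + b) ≤ Real.log (T ^ 2) := Real.log_le_log (by linarith) (by nlinarith)
    rw [Real.log_pow] at this
    push_cast at this
    exact this
  have hlog3 : 0 ≤ Real.log (T + b) := Real.log_nonneg (by linarith)
  have hgc : Continuous fun t => ‖zx 0 t‖ := (zx_cont (by norm_num)).norm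
  have hij := ij (g := fun t => ‖zx 0 t‖) (T := T) (L := b) hk ha hab hh.le (mul_le_of_le_one_left hb hh1) hT0.le hgc
    (fun t => norm_nonneg _)
  have c0 := lm_cont hf a b h (x := 0) (by norm_num)
  have i1 : Continuous fun t => ‖lm f a b h 0 t‖ ^ k := c0.norm.rpow_const fun _ => Or.inr hk0.le
  have i2c : Continuous fun t : ℝ => (∫ v in a..b, ‖zx 0 (t + h * v)‖) ^ k :=
    (intervalIntegral.continuous_parametric_intervalIntegral_of_continuous'
      (f := fun t v : ℝ => ‖zx 0 (t + h * v)‖) (hgc.comp (by fun_prop : Continuous fun q : ℝ × ℝ => q.1 + h * q.2)) _ _).rpow_const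
      fun _ => Or.inr hk0.le
  have i2 : Continuous fun t : ℝ => K ^ k * (∫ v in a..b, ‖zx 0 (t + h * v)‖) ^ k := continuous_const.mul i2c
  have hm := intervalIntegral.integral_mono_on (μ := volume) hT0.le (i1.intervalIntegrable 0 T) (i2.intervalIntegrable 0 T)
    (fun t _ => by
      have hn0 : 0 ≤ ∫ v in a..b, ‖zx 0 (t + h * v)‖ := intervalIntegral.integral_nonneg hab.le fun v _ => norm_nonneg _
      rw [← Real.mul_rpow hK0.le hn0]
      refine Real.rpow_le_rpow (norm_nonneg _) ?_ hk0.le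
      unfold lm
      rw [← intervalIntegral.integral_const_mul]
      refine intervalIntegral.norm_integral_le_of_norm_le hab.le (ae_of_all _ fun u hu => ?_)
        ((continuous_const.mul (hgc.comp (by fun_prop : Continuous fun v : ℝ => t + h * v))).intervalIntegrable _ _)
      rw [norm_mul]
      exact mul_le_mul_of_nonneg_right (hK1 u ⟨hu.1.le, hu.2⟩) (norm_nonneg _))
  rw [intervalIntegral.integral_const_mul] at hm
  have h3 : ∫ t in (0:ℝ)..(T + b), ‖zx 0 t‖ ^ k ≤ C1 * (2 * T * (2 * Real.log T) ^ (k ^ 2 / 4)) := by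
    simp only [az_eq] at h1
    refine h1.trans (mul_le_mul_of_nonneg_left ?_ hC1.le)
    refine mul_le_mul (by linarith) (Real.rpow_le_rpow hlog3 hlog2 (by positivity)) (Real.rpow_nonneg hlog3 _) (by positivity)
  have h4 : ∫ t in (0:ℝ)..T, ‖lm f a b h 0 t‖ ^ k ≤
      K ^ k * ((b - a) ^ k * (C1 * (2 * T * (2 * Real.log T) ^ (k ^ 2 / 4)))) :=
    hm.trans (mul_le_mul_of_nonneg_left (hij.trans (mul_le_mul_of_nonneg_left h3 (by positivity))) (by positivity))
  rw [inv_mul_le_iff₀ hT0]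
  refine h4.trans (le_of_eq ?_)
  rw [Real.mul_rpow (by norm_num) hlog.le]
  ring

theorem order {k a b : ℝ} (hk : 1 ≤ k) (hk4 : k < 4) {f : ℝ → ℂ} (hf : Continuous f) (ha : 0 ≤ a) (hab : a < b)
    (hI : ∫ u in a..b, f u ≠ 0) {C₀ : ℝ} (hC₀ : 0 < C₀)
    (hU : ∀ ε : ℝ, 0 < ε → ∃ c T₀ : ℝ, 0 < c ∧ ∀ T : ℝ, T₀ ≤ T → ∀ h : ℝ, c / Real.log T ≤ h → h ≤ 1 / c →
      |h ^ (k ^ 2 / 4) * (T⁻¹ * ∫ t in (0:ℝ)..T, ‖lm f a b h 0 t‖ ^ k) - C₀| ≤ ε) :
    ∃ c C h₀ T₀ : ℝ, 0 < c ∧ 0 < C ∧ 0 < h₀ ∧ ∀ T : ℝ, T₀ ≤ T → ∀ h : ℝ, 0 < h → h ≤ h₀ →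
      c * min (1 / h) (Real.log T) ^ (k ^ 2 / 4) ≤ T⁻¹ * ∫ t in (0:ℝ)..T, ‖lm f a b h 0 t‖ ^ k ∧
      T⁻¹ * ∫ t in (0:ℝ)..T, ‖lm f a b h 0 t‖ ^ k ≤ C * min (1 / h) (Real.log T) ^ (k ^ 2 / 4) := by
  have hk0 : 0 < k := by linarith
  have hq : 0 < k ^ 2 / 4 := by positivity
  obtain ⟨c₁, T₁, hc₁, h1⟩ := hU (C₀ / 2) (by positivity)
  set c₂ := max c₁ 1 with hc₂
  have hc₂1 : 1 ≤ c₂ := le_max_right _ _
  have hc₂0 : 0 < c₂ := by linarith
  have hc12 : c₁ ≤ c₂ := le_max_left _ _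
  obtain ⟨c₃, L, hc₃, hL1, h2⟩ := pos2 hk hk4 hf ha hab hI
  obtain ⟨c₄, T₂, hc₄, h3⟩ := unif_ev (P := fun T δ => ∀ h : ℝ, 0 < h → L * h ≤ δ →
    c₃ ≤ δ ^ (k ^ 2 / 4) / T * ∫ t in (0:ℝ)..T, ‖lm f a b h 0 t‖ ^ k) fun δf q1 q2 => h2 δf q1 q2
  obtain ⟨C₅, hC₅, h5⟩ := lm0_up hk hk4 hf ha hab
  obtain ⟨T₃, hT₃⟩ := eventually_atTop.1 h5
  set q := max c₄ (L * c₂) with hqd
  have hq4 : c₄ ≤ q := le_max_left _ _
  have hqL : L * c₂ ≤ q := le_max_right _ _
  have hq0 : 0 < q := lt_of_lt_of_le hc₄ hq4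
  set B := k ^ 2 / 4 with hB
  refine ⟨min (C₀ / 2) (c₃ * q ^ (-B)), max (3 * C₀ / 2) (C₅ * c₂ ^ B), 1 / c₂,
    max (max T₁ T₂) (max T₃ (max 3 (Real.exp (q * c₄)))), by positivity, by positivity, by positivity,
    fun T hT h hh hh1 => ?_⟩
  have hTT₁ : T₁ ≤ T := ((le_max_left _ _).trans (le_max_left _ _)).trans hT
  have hTT₂ : T₂ ≤ T := ((le_max_right _ _).trans (le_max_left _ _)).trans hT
  have hTT₃ : T₃ ≤ T := ((le_max_left _ _).trans (le_max_right _ _)).trans hT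
  have hT3 : 3 ≤ T := (((le_max_left _ _).trans (le_max_right _ _)).trans (le_max_right _ _)).trans hT
  have hTe : Real.exp (q * c₄) ≤ T := (((le_max_right _ _).trans (le_max_right _ _)).trans (le_max_right _ _)).trans hT
  have hT0 : 0 < T := by linarith
  have hlog : 0 < Real.log T := Real.log_pos (by linarith)
  have hlogq : q * c₄ ≤ Real.log T := (Real.le_log_iff_exp_le hT0).2 hTe
  set J := T⁻¹ * ∫ t in (0:ℝ)..T, ‖lm f a b h 0 t‖ ^ k with hJ
  have hmin0 : 0 < min (1 / h) (Real.log T) := lt_min (by positivity) hlog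
  rcases le_or_gt (c₂ / Real.log T) h with hc | hc
  · -- large windows
    have e1 := h1 T hTT₁ h (le_trans (by gcongr) hc) (hh1.trans (by gcongr))
    rw [← hJ] at e1
    have e2 := abs_le.1 e1
    have hm : min (1 / h) (Real.log T) = 1 / h := by
      refine min_eq_left ?_
      rw [div_le_iff₀ hlog] at hc
      rw [div_le_iff₀ hh, mul_comm]
      linarith
    rw [hm, one_div, Real.inv_rpow hh.le]
    have hhB : 0 < h ^ B := by positivity
    constructor
    · rw [mul_inv_le_iff₀ hhB]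
      refine (min_le_left _ _).trans ?_
      rw [mul_comm J]
      linarith [e2.1]
    · have e3 : J ≤ 3 * C₀ / 2 * (h ^ B)⁻¹ := by
        rw [← div_eq_mul_inv, le_div_iff₀ hhB, mul_comm J]
        linarith [e2.2]
      exact e3.trans (mul_le_mul_of_nonneg_right (le_max_left _ _) (by positivity))
  · -- small windows
    have hh1' : h ≤ 1 := hh1.trans (by rw [div_le_one hc₂0]; exact hc₂1)
    constructor
    · have e1 := h3 T hTT₂ (q / Real.log T) (by gcongr) (by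
        rw [div_le_div_iff₀ hlog hc₄]; linarith) h hh (by
        have : L * h ≤ L * (c₂ / Real.log T) := mul_le_mul_of_nonneg_left hc.le (by linarith)
        refine this.trans ?_
        rw [← mul_div_assoc]
        gcongr)
      have e2 : (q / Real.log T) ^ B / T * ∫ t in (0:ℝ)..T, ‖lm f a b h 0 t‖ ^ k = (q / Real.log T) ^ B * J := by
        rw [hJ, div_eq_mul_inv, mul_assoc]
      rw [e2, Real.div_rpow hq0.le hlog.le] at e1
      have hqB : 0 < q ^ B := by positivity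
      have hlB : 0 < Real.log T ^ B := by positivity
      have e3 : c₃ * q ^ (-B) * Real.log T ^ B ≤ J := by
        rw [Real.rpow_neg hq0.le]
        have : c₃ * Real.log T ^ B ≤ q ^ B * J := by
          rw [div_mul_eq_mul_div, le_div_iff₀ hlB] at e1
          exact e1
        calc c₃ * (q ^ B)⁻¹ * Real.log T ^ B = (c₃ * Real.log T ^ B) * (q ^ B)⁻¹ := by ring
          _ ≤ (q ^ B * J) * (q ^ B)⁻¹ := mul_le_mul_of_nonneg_right this (by positivity)
          _ = J := by field_simp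
      refine le_trans ?_ e3
      refine mul_le_mul (min_le_right _ _) (Real.rpow_le_rpow hmin0.le (min_le_right _ _) hq.le) (by positivity) (by positivity)
    · have e1 := hT₃ T hTT₃ h hh hh1'
      rw [← hJ] at e1
      have hm : Real.log T / c₂ ≤ min (1 / h) (Real.log T) := by
        refine le_min ?_ ?_
        · rw [div_le_div_iff₀ hc₂0 hh]
          rw [lt_div_iff₀ hlog] at hc
          linarith
        · rw [div_le_iff₀ hc₂0]
          nlinarith
      have e2 : Real.log T ^ B ≤ c₂ ^ B * min (1 / h) (Real.log T) ^ B := by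
        have := Real.rpow_le_rpow (by positivity) hm hq.le
        rw [Real.div_rpow hlog.le hc₂0.le, div_le_iff₀ (by positivity)] at this
        linarith
      calc J ≤ C₅ * Real.log T ^ B := e1
        _ ≤ C₅ * (c₂ ^ B * min (1 / h) (Real.log T) ^ B) := mul_le_mul_of_nonneg_left e2 hC₅.le
        _ = (C₅ * c₂ ^ B) * min (1 / h) (Real.log T) ^ B := by ring
        _ ≤ _ := mul_le_mul_of_nonneg_right (le_max_right _ _) (by positivity)

end Pool.Agent.H60.LM
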