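import Pool.Graph.R_seed8.H370R2.Rect
import Pool.Graph.R_seed8.H382R2.Rect

/-! A Poisson type inequality on vertical lines. -/

set_option autoImplicit false

open Complex MeasureTheory Filter Topology Set

namespace Pool.Agent.H60.LM

lemma cauchy_rect {a b c d : ℝ} (hab : a < b) (hcd : c < d) {U : Set ℂ} (hU : IsOpen U) {g : ℂ → ℂ}
    (hg : DifferentiableOn ℂ g U) (hsub : Set.Icc a b ×ℂ Set.Icc c d ⊆ U) {p : ℂ}
    (hp : p ∈ Set.Ioo a b ×ℂ Set.Ioo c d) :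
    H370.RI a b c d (fun s => g s * (s - p)⁻¹) = 2 * Real.pi * I * g p := by
  have hpU : p ∈ U := hsub ⟨Ioo_subset_Icc_self hp.1, Ioo_subset_Icc_self hp.2⟩
  have hds : DifferentiableOn ℂ (dslope g p) U := (Complex.differentiableOn_dslope (hU.mem_nhds hpU)).2 hg
  have hB : ∀ s ∈ H370.Bd a b c d, s ≠ p := fun s hs he => H370.Bd_not_Ioo hs (he ▸ hp)
  have hBU : H370.Bd a b c d ⊆ U := (H370.Bd_sub hab.le hcd.le).trans hsub
  have hci : ContinuousOn (fun s : ℂ => (s - p)⁻¹) (H370.Bd a b c d) := by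
    apply ContinuousOn.inv₀ (by fun_prop)
    intro s hs
    exact sub_ne_zero.2 (hB s hs)
  have e1 : H370.RI a b c d (fun s => g s * (s - p)⁻¹) =
      H370.RI a b c d (fun s => dslope g p s + g p * (s - p)⁻¹) := by
    apply H370.RI_congr hab.le hcd.le
    intro s hs
    rw [dslope_of_ne _ (hB s hs), slope_def_field]
    ring
  rw [e1, H370.RI_add hab.le hcd.le (g := fun s => g p * (s - p)⁻¹) (hds.continuousOn.mono hBU)
    (continuousOn_const.mul hci),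
    H370.RI_zero hab.le hcd.le (hds.mono hsub), H370.RI_const_mul, H370.RI_inv hp]
  ring

lemma int_exp_le (Y : ℝ) (hY : 0 ≤ Y) : ∫ y in (-Y)..Y, Real.exp (-y ^ 2) ≤ 2 := by
  have h1 : ∫ y in (-Y)..Y, Real.exp (-y ^ 2) ≤ ∫ y : ℝ, Real.exp (-y ^ 2) := by
    rw [intervalIntegral.integral_of_le (by linarith)]
    refine setIntegral_le_integral ?_ (Eventually.of_forall fun y => (Real.exp_pos _).le)
    have := integrable_exp_neg_mul_sq one_pos
    simpa using this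
  have h2 := integral_gaussian 1
  simp only [neg_mul, one_mul, div_one] at h2
  rw [h2] at h1
  refine h1.trans ?_
  rw [Real.sqrt_le_left (by norm_num)]
  linarith [Real.pi_lt_four]

/-- the kernel -/
noncomputable def pk (δ y : ℝ) : ℝ := δ / (Real.pi * (δ ^ 2 + y ^ 2)) * Real.exp (-y ^ 2)

lemma pk_nonneg {δ : ℝ} (hδ : 0 < δ) (y : ℝ) : 0 ≤ pk δ y := by
  unfold pk
  have := Real.pi_pos
  positivity

lemma pk_cont {δ : ℝ} (hδ : 0 < δ) : Continuous (pk δ) := by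
  unfold pk
  have := Real.pi_pos
  refine Continuous.mul (Continuous.div continuous_const (by fun_prop) fun y => ?_) (by fun_prop)
  positivity

lemma pk_int {δ : ℝ} (hδ : 0 < δ) {Y : ℝ} (hY : 0 ≤ Y) : ∫ y in (-Y)..Y, pk δ y ≤ 1 := by
  have hpi := Real.pi_pos
  have h1 : ∫ y in (-Y)..Y, pk δ y ≤ ∫ y in (-Y)..Y, (Real.pi * δ)⁻¹ * (fun x : ℝ => (1 + x ^ 2)⁻¹) (y / δ) := by
    refine intervalIntegral.integral_mono_on (by linarith) ((pk_cont hδ).intervalIntegrable _ _) ?_ fun y _ => ?_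
    · apply Continuous.intervalIntegrable
      refine continuous_const.mul (Continuous.inv₀ (by fun_prop) fun y => ?_)
      positivity
    · unfold pk
      have e : (Real.pi * δ)⁻¹ * (fun x : ℝ => (1 + x ^ 2)⁻¹) (y / δ) = δ / (Real.pi * (δ ^ 2 + y ^ 2)) := by
        have : δ ^ 2 + y ^ 2 ≠ 0 := by positivity
        simp only
        field_simp
      rw [e]
      refine mul_le_of_le_one_right (by positivity) ?_
      rw [Real.exp_le_one_iff]
      nlinarith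
  refine h1.trans ?_
  rw [intervalIntegral.integral_const_mul, intervalIntegral.integral_comp_div (fun x : ℝ => (1 + x ^ 2)⁻¹) hδ.ne',
    integral_inv_one_add_sq, smul_eq_mul]
  have h2 := Real.arctan_lt_pi_div_two (Y / δ)
  have h3 := Real.neg_pi_div_two_lt_arctan (-Y / δ)
  calc (Real.pi * δ)⁻¹ * (δ * (Real.arctan (Y / δ) - Real.arctan (-Y / δ))) ≤ (Real.pi * δ)⁻¹ * (δ * Real.pi) := by
        gcongr
        linarith
    _ = 1 := by field_simp

theorem pois {F : ℂ → ℂ} {t Y δ B M : ℝ} (hY : 1 ≤ Y) (hδ : 0 < δ) (hδ1 : δ ≤ 1 / 2) {U : Set ℂ} (hU : IsOpen U)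
    (hF : DifferentiableOn ℂ F U) (hsub : Set.Icc (1 / 2 : ℝ) (5 / 2) ×ℂ Set.Icc (t - Y) (t + Y) ⊆ U)
    (hB : ∀ s ∈ Set.Icc (1 / 2 : ℝ) (5 / 2) ×ℂ Set.Icc (t - Y) (t + Y), ‖F s‖ ≤ B)
    (hM : ∀ y ∈ Set.Icc (t - Y) (t + Y), ‖F ⟨5 / 2, y⟩‖ ≤ M) :
    ‖F ⟨1 / 2 + δ, t⟩‖ ≤ 2 * (∫ y in (-Y)..Y, pk δ y * ‖F ⟨1 / 2, t + y⟩‖) + 60 * M * δ +
      60 * B * Real.exp (-Y ^ 2) := by
  have hpi := Real.pi_pos
  have hpi3 := Real.pi_gt_three
  have hM0 : 0 ≤ M := (norm_nonneg _).trans (hM t ⟨by linarith, by linarith⟩)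
  have hB0 : 0 ≤ B := (norm_nonneg _).trans (hB ⟨1 / 2, t⟩ ⟨⟨le_rfl, by norm_num⟩, ⟨by simp; linarith, by simp; linarith⟩⟩)
  set s0 : ℂ := ⟨1 / 2 + δ, t⟩ with hs0
  set s1 : ℂ := ⟨1 / 2 - δ, t⟩ with hs1
  set g : ℂ → ℂ := fun z => F z * (cexp ((z - s0) ^ 2) * (((2 * δ : ℝ) : ℂ) * (z - s1)⁻¹)) with hg
  have hs01 : s0 - s1 = ((2 * δ : ℝ) : ℂ) := by
    apply Complex.ext <;> simp [hs0, hs1]
    ring
  have hgs0 : g s0 = F s0 := by
    have : (((2 * δ : ℝ) : ℂ)) ≠ 0 := by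
      rw [Ne, ofReal_eq_zero]; positivity
    simp only [hg]
    rw [hs01, sub_self, zero_pow two_ne_zero, Complex.exp_zero, one_mul, mul_inv_cancel₀ this, mul_one]
  have hU' : IsOpen (U ∩ {s1}ᶜ) := hU.inter isOpen_compl_singleton
  have hgd : DifferentiableOn ℂ g (U ∩ {s1}ᶜ) := by
    refine (hF.mono inter_subset_left).mul (DifferentiableOn.mul (by fun_prop) ?_)
    refine DifferentiableOn.mul (differentiableOn_const _) ?_
    refine DifferentiableOn.inv (by fun_prop) fun z hz => ?_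
    exact sub_ne_zero.2 hz.2
  have hsub' : Set.Icc (1 / 2 : ℝ) (5 / 2) ×ℂ Set.Icc (t - Y) (t + Y) ⊆ U ∩ {s1}ᶜ := by
    intro z hz
    refine ⟨hsub hz, fun h => ?_⟩
    rw [mem_singleton_iff] at h
    have := hz.1.1
    rw [h] at this
    simp only [hs1] at this
    linarith
  have hp : s0 ∈ Set.Ioo (1 / 2 : ℝ) (5 / 2) ×ℂ Set.Ioo (t - Y) (t + Y) := by
    refine ⟨⟨?_, ?_⟩, ⟨?_, ?_⟩⟩ <;> simp only [hs0] <;> linarith
  have hC := cauchy_rect (by norm_num) (by linarith) hU' hgd hsub' hp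
  rw [hgs0] at hC
  -- the modulus of the integrand
  have hmod : ∀ x y : ℝ, ‖g ⟨x, y⟩ * ((⟨x, y⟩ : ℂ) - s0)⁻¹‖ = ‖F ⟨x, y⟩‖ *
      (Real.exp ((x - 1 / 2 - δ) ^ 2 - (y - t) ^ 2) * (2 * δ * ‖(⟨x, y⟩ : ℂ) - s1‖⁻¹)) * ‖(⟨x, y⟩ : ℂ) - s0‖⁻¹ := by
    intro x y
    simp only [hg]
    rw [norm_mul, norm_mul, norm_mul, norm_mul, norm_inv, norm_inv, Complex.norm_exp, Complex.norm_real,
      Real.norm_eq_abs, abs_of_pos (by positivity)]
    congr 4
    rw [pow_two, mul_re]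
    simp [hs0]
    ring
  unfold H370.RI at hC
  have hF0 : 2 * Real.pi * ‖F s0‖ ≤
      ‖∫ x in (1 / 2 : ℝ)..(5 / 2), g ⟨x, t - Y⟩ * ((⟨x, t - Y⟩ : ℂ) - s0)⁻¹‖ +
      ‖∫ x in (1 / 2 : ℝ)..(5 / 2), g ⟨x, t + Y⟩ * ((⟨x, t + Y⟩ : ℂ) - s0)⁻¹‖ +
      ‖∫ y in (t - Y)..(t + Y), g ⟨5 / 2, y⟩ * ((⟨5 / 2, y⟩ : ℂ) - s0)⁻¹‖ +
      ‖∫ y in (t - Y)..(t + Y), g ⟨1 / 2, y⟩ * ((⟨1 / 2, y⟩ : ℂ) - s0)⁻¹‖ := by
    have e : 2 * Real.pi * ‖F s0‖ = ‖(2 * Real.pi * I * F s0 : ℂ)‖ := by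
      rw [norm_mul, norm_mul, norm_mul, norm_I, Complex.norm_real, Real.norm_eq_abs, abs_of_pos hpi]
      simp
    rw [e, ← hC]
    refine (norm_sub_le _ _).trans (add_le_add ((norm_add_le _ _).trans (add_le_add (norm_sub_le _ _) ?_)) ?_)
    · rw [norm_mul, norm_I, one_mul]
    · rw [norm_mul, norm_I, one_mul]
  -- horizontal sides
  have hhor : ∀ y' : ℝ, |y' - t| = Y → y' ∈ Set.Icc (t - Y) (t + Y) →
      ‖∫ x in (1 / 2 : ℝ)..(5 / 2), g ⟨x, y'⟩ * ((⟨x, y'⟩ : ℂ) - s0)⁻¹‖ ≤ 110 * B * Real.exp (-Y ^ 2) := by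
    intro y' hy' hmem
    have hn : ∀ x ∈ Set.uIoc (1 / 2 : ℝ) (5 / 2), ‖g ⟨x, y'⟩ * ((⟨x, y'⟩ : ℂ) - s0)⁻¹‖ ≤ 55 * B * Real.exp (-Y ^ 2) := by
      intro x hx
      rw [Set.uIoc_of_le (by norm_num)] at hx
      rw [hmod]
      have h1 : ‖F ⟨x, y'⟩‖ ≤ B := hB _ ⟨⟨hx.1.le, hx.2⟩, hmem⟩
      have h2 : 1 ≤ ‖(⟨x, y'⟩ : ℂ) - s1‖ := by
        refine le_trans ?_ (Complex.abs_im_le_norm _)
        simp only [sub_im, hs1]
        linarith
      have h3 : 1 ≤ ‖(⟨x, y'⟩ : ℂ) - s0‖ := by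
        refine le_trans ?_ (Complex.abs_im_le_norm _)
        simp only [sub_im, hs0]
        linarith
      have h4 : ‖(⟨x, y'⟩ : ℂ) - s1‖⁻¹ ≤ 1 := inv_le_one_of_one_le₀ h2
      have h5 : ‖(⟨x, y'⟩ : ℂ) - s0‖⁻¹ ≤ 1 := inv_le_one_of_one_le₀ h3
      have h6 : Real.exp ((x - 1 / 2 - δ) ^ 2 - (y' - t) ^ 2) ≤ 55 * Real.exp (-Y ^ 2) := by
        have e1 : (y' - t) ^ 2 = Y ^ 2 := by rw [← sq_abs, hy']
        rw [e1, sub_eq_add_neg, Real.exp_add]
        have h7 : (x - 1 / 2 - δ) ^ 2 ≤ 4 := by nlinarith [hx.1, hx.2]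
        have h8 : Real.exp ((x - 1 / 2 - δ) ^ 2) ≤ 55 := by
          refine (Real.exp_le_exp.2 h7).trans ?_
          have e4 : Real.exp 4 = Real.exp 1 ^ 4 := by rw [← Real.exp_nat_mul]; norm_num
          rw [e4]
          calc Real.exp 1 ^ 4 ≤ 2.72 ^ 4 := by
                gcongr
                linarith [Real.exp_one_lt_d9]
            _ ≤ 55 := by norm_num
        exact mul_le_mul_of_nonneg_right h8 (Real.exp_pos _).le
      calc ‖F ⟨x, y'⟩‖ * (Real.exp ((x - 1 / 2 - δ) ^ 2 - (y' - t) ^ 2) * (2 * δ * ‖(⟨x, y'⟩ : ℂ) - s1‖⁻¹)) * ‖(⟨x, y'⟩ : ℂ) - s0‖⁻¹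
          ≤ B * ((55 * Real.exp (-Y ^ 2)) * (2 * δ * 1)) * 1 := by gcongr
        _ = 55 * B * Real.exp (-Y ^ 2) * (2 * δ) := by ring
        _ ≤ 55 * B * Real.exp (-Y ^ 2) * 1 := by gcongr; linarith
        _ = _ := mul_one _
    refine (intervalIntegral.norm_integral_le_of_norm_le_const hn).trans (le_of_eq ?_)
    norm_num
    ring
  -- the right side
  have hright : ‖∫ y in (t - Y)..(t + Y), g ⟨5 / 2, y⟩ * ((⟨5 / 2, y⟩ : ℂ) - s0)⁻¹‖ ≤ 110 * M * δ := by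
    have hn : ∀ y ∈ Set.Ioc (t - Y) (t + Y), ‖g ⟨5 / 2, y⟩ * ((⟨5 / 2, y⟩ : ℂ) - s0)⁻¹‖ ≤
        55 * M * δ * Real.exp (-(y - t) ^ 2) := by
      intro y hy
      rw [hmod]
      have h1 : ‖F ⟨5 / 2, y⟩‖ ≤ M := hM y ⟨hy.1.le, hy.2⟩
      have h2 : 2 ≤ ‖(⟨5 / 2, y⟩ : ℂ) - s1‖ := by
        refine le_trans ?_ (Complex.abs_re_le_norm _)
        simp only [sub_re, hs1]
        rw [abs_of_nonneg] <;> linarith
      have h3 : 1 ≤ ‖(⟨5 / 2, y⟩ : ℂ) - s0‖ := by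
        refine le_trans ?_ (Complex.abs_re_le_norm _)
        simp only [sub_re, hs0]
        rw [abs_of_nonneg] <;> linarith
      have h4 : ‖(⟨5 / 2, y⟩ : ℂ) - s1‖⁻¹ ≤ 2⁻¹ := inv_anti₀ (by norm_num) h2
      have h5 : ‖(⟨5 / 2, y⟩ : ℂ) - s0‖⁻¹ ≤ 1 := inv_le_one_of_one_le₀ h3
      have h6 : Real.exp ((5 / 2 - 1 / 2 - δ) ^ 2 - (y - t) ^ 2) ≤ 55 * Real.exp (-(y - t) ^ 2) := by
        rw [sub_eq_add_neg _ ((y - t) ^ 2), Real.exp_add]
        have h7 : (5 / 2 - 1 / 2 - δ) ^ 2 ≤ 4 := by nlinarith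
        have h8 : Real.exp ((5 / 2 - 1 / 2 - δ) ^ 2) ≤ 55 := by
          refine (Real.exp_le_exp.2 h7).trans ?_
          have e4 : Real.exp 4 = Real.exp 1 ^ 4 := by rw [← Real.exp_nat_mul]; norm_num
          rw [e4]
          calc Real.exp 1 ^ 4 ≤ 2.72 ^ 4 := by
                gcongr
                linarith [Real.exp_one_lt_d9]
            _ ≤ 55 := by norm_num
        exact mul_le_mul_of_nonneg_right h8 (Real.exp_pos _).le
      calc ‖F ⟨5 / 2, y⟩‖ * (Real.exp ((5 / 2 - 1 / 2 - δ) ^ 2 - (y - t) ^ 2) * (2 * δ * ‖(⟨5 / 2, y⟩ : ℂ) - s1‖⁻¹)) *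
            ‖(⟨5 / 2, y⟩ : ℂ) - s0‖⁻¹
          ≤ M * ((55 * Real.exp (-(y - t) ^ 2)) * (2 * δ * 2⁻¹)) * 1 := by gcongr
        _ = _ := by ring
    have hI : IntervalIntegrable (fun y => 55 * M * δ * Real.exp (-(y - t) ^ 2)) volume (t - Y) (t + Y) :=
      (by fun_prop : Continuous fun y : ℝ => 55 * M * δ * Real.exp (-(y - t) ^ 2)).intervalIntegrable _ _
    refine (intervalIntegral.norm_integral_le_of_norm_le (by linarith)
      (ae_of_all _ fun y hy => hn y hy) hI).trans ?_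
    rw [intervalIntegral.integral_const_mul, intervalIntegral.integral_comp_sub_right (fun y => Real.exp (-y ^ 2))]
    have e1 : t - Y - t = -Y := by ring
    have e2 : t + Y - t = Y := by ring
    rw [e1, e2]
    have := int_exp_le Y (by linarith)
    calc 55 * M * δ * ∫ y in (-Y)..Y, Real.exp (-y ^ 2) ≤ 55 * M * δ * 2 := by gcongr
      _ = _ := by ring
  -- the left side
  have hcontL : ContinuousOn (fun y : ℝ => pk δ (y - t) * ‖F ⟨1 / 2, y⟩‖) (Set.Icc (t - Y) (t + Y)) := by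
    refine ((pk_cont hδ).comp (by fun_prop : Continuous fun y : ℝ => y - t)).continuousOn.mul (ContinuousOn.norm ?_)
    refine hF.continuousOn.comp (Continuous.continuousOn ?_) fun y hy => hsub ⟨⟨le_rfl, by norm_num⟩, hy⟩
    exact (by fun_prop : Continuous fun y : ℝ => ((1 / 2 : ℝ) : ℂ) + (y : ℂ) * I).congr fun y => (H370.mk_eq _ _).symm
  have hleft : ‖∫ y in (t - Y)..(t + Y), g ⟨1 / 2, y⟩ * ((⟨1 / 2, y⟩ : ℂ) - s0)⁻¹‖ ≤
      4 * Real.pi * ∫ y in (-Y)..Y, pk δ y * ‖F ⟨1 / 2, t + y⟩‖ := by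
    have hn : ∀ y ∈ Set.Ioc (t - Y) (t + Y), ‖g ⟨1 / 2, y⟩ * ((⟨1 / 2, y⟩ : ℂ) - s0)⁻¹‖ ≤
        4 * Real.pi * (pk δ (y - t) * ‖F ⟨1 / 2, y⟩‖) := by
      intro y hy
      rw [hmod]
      have hr : 0 < δ ^ 2 + (y - t) ^ 2 := by positivity
      have h2 : ‖(⟨1 / 2, y⟩ : ℂ) - s1‖ = √(δ ^ 2 + (y - t) ^ 2) := by
        rw [Complex.norm_eq_sqrt_sq_add_sq]
        congr 1
        simp [hs1]
      have h3 : ‖(⟨1 / 2, y⟩ : ℂ) - s0‖ = √(δ ^ 2 + (y - t) ^ 2) := by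
        rw [Complex.norm_eq_sqrt_sq_add_sq]
        congr 1
        simp [hs0]
      rw [h2, h3]
      have h6 : Real.exp ((1 / 2 - 1 / 2 - δ) ^ 2 - (y - t) ^ 2) ≤ 2 * Real.exp (-(y - t) ^ 2) := by
        rw [sub_eq_add_neg _ ((y - t) ^ 2), Real.exp_add]
        have h7 : (1 / 2 - 1 / 2 - δ) ^ 2 ≤ 1 / 4 := by nlinarith
        have h8 : Real.exp ((1 / 2 - 1 / 2 - δ) ^ 2) ≤ 2 := by
          refine (Real.exp_le_exp.2 h7).trans ?_
          have e4 : Real.exp (1 / 4) ^ 4 = Real.exp 1 := by rw [← Real.exp_nat_mul]; norm_num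
          by_contra hcon
          push Not at hcon
          have : (2 : ℝ) ^ 4 < Real.exp (1 / 4) ^ 4 := by gcongr
          rw [e4] at this
          linarith [Real.exp_one_lt_d9]
        exact mul_le_mul_of_nonneg_right h8 (Real.exp_pos _).le
      have h9 : (√(δ ^ 2 + (y - t) ^ 2))⁻¹ * (√(δ ^ 2 + (y - t) ^ 2))⁻¹ = (δ ^ 2 + (y - t) ^ 2)⁻¹ := by
        rw [← mul_inv, Real.mul_self_sqrt hr.le]
      calc ‖F ⟨1 / 2, y⟩‖ * (Real.exp ((1 / 2 - 1 / 2 - δ) ^ 2 - (y - t) ^ 2) * (2 * δ * (√(δ ^ 2 + (y - t) ^ 2))⁻¹)) *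
            (√(δ ^ 2 + (y - t) ^ 2))⁻¹
          = ‖F ⟨1 / 2, y⟩‖ * (2 * δ * ((√(δ ^ 2 + (y - t) ^ 2))⁻¹ * (√(δ ^ 2 + (y - t) ^ 2))⁻¹)) *
            Real.exp ((1 / 2 - 1 / 2 - δ) ^ 2 - (y - t) ^ 2) := by ring
        _ ≤ ‖F ⟨1 / 2, y⟩‖ * (2 * δ * (δ ^ 2 + (y - t) ^ 2)⁻¹) * (2 * Real.exp (-(y - t) ^ 2)) := by
            rw [h9]
            gcongr
        _ = _ := by
            unfold pk
            field_simp
            ring
    have hI : IntervalIntegrable (fun y => 4 * Real.pi * (pk δ (y - t) * ‖F ⟨1 / 2, y⟩‖)) volume (t - Y) (t + Y) := by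
      refine ContinuousOn.intervalIntegrable ?_
      rw [Set.uIcc_of_le (by linarith)]
      exact continuousOn_const.mul hcontL
    refine (intervalIntegral.norm_integral_le_of_norm_le (by linarith)
      (ae_of_all _ fun y hy => hn y hy) hI).trans (le_of_eq ?_)
    rw [intervalIntegral.integral_const_mul]
    congr 1
    have e := intervalIntegral.integral_comp_add_left (a := -Y) (b := Y) (fun y => pk δ (y - t) * ‖F ⟨1 / 2, y⟩‖) t
    rw [show t + -Y = t - Y by ring] at e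
    rw [← e]
    refine intervalIntegral.integral_congr fun y _ => ?_
    simp only [add_sub_cancel_left]
  have hb := hhor (t - Y) (by rw [show t - Y - t = -Y by ring, abs_neg, abs_of_nonneg (by linarith)]) ⟨le_rfl, by linarith⟩
  have ht' := hhor (t + Y) (by rw [show t + Y - t = Y by ring, abs_of_nonneg (by linarith)]) ⟨by linarith, le_rfl⟩
  have hE : 0 ≤ B * Real.exp (-Y ^ 2) := by positivity
  have hMδ : 0 ≤ M * δ := by positivity
  have htot : 2 * Real.pi * ‖F s0‖ ≤ 2 * Real.pi * (2 * (∫ y in (-Y)..Y, pk δ y * ‖F ⟨1 / 2, t + y⟩‖) + 60 * M * δ +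
      60 * B * Real.exp (-Y ^ 2)) := by
    nlinarith [mul_nonneg (show 0 ≤ Real.pi - 3 by linarith) hE, mul_nonneg (show 0 ≤ Real.pi - 3 by linarith) hMδ]
  exact le_of_mul_le_mul_left htot (by positivity)

/-! ### Jensen's inequality and integration -/

lemma tangent {k : ℝ} (hk : 1 ≤ k) {y m : ℝ} (hy : 0 ≤ y) (hm : 0 < m) :
    m ^ k + k * m ^ (k - 1) * (y - m) ≤ y ^ k := by
  have h1 := one_add_mul_self_le_rpow_one_add (s := y / m - 1) (by have : 0 ≤ y / m := by positivity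
                                                                   linarith) hk
  rw [add_sub_cancel, Real.div_rpow hy hm.le, le_div_iff₀ (by positivity)] at h1
  refine le_trans (le_of_eq ?_) h1
  have e : m ^ k = m ^ (k - 1) * m := by
    rw [← Real.rpow_add_one hm.ne']
    congr 1; ring
  rw [e]
  field_simp

/-- Jensen's inequality -/
lemma jensen {α : Type*} [MeasurableSpace α] {μ : Measure α} {k : ℝ} (hk : 1 ≤ k) {p G : α → ℝ}
    (hp0 : ∀ x, 0 ≤ p x) (hG0 : ∀ x, 0 ≤ G x) (hp : Integrable p μ) (hp1 : ∫ x, p x ∂μ ≤ 1)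
    (h1 : Integrable (fun x => p x * G x) μ) (h2 : Integrable (fun x => p x * G x ^ k) μ) :
    (∫ x, p x * G x ∂μ) ^ k ≤ ∫ x, p x * G x ^ k ∂μ := by
  set m := ∫ x, p x * G x ∂μ with hm
  have hm0 : 0 ≤ m := integral_nonneg fun x => mul_nonneg (hp0 x) (hG0 x)
  rcases hm0.eq_or_lt with h0 | h0
  · rw [← h0, Real.zero_rpow (by linarith)]
    exact integral_nonneg fun x => mul_nonneg (hp0 x) (Real.rpow_nonneg (hG0 x) _)
  · have h3 : ∫ x, (m ^ k * p x + k * m ^ (k - 1) * (p x * G x - m * p x)) ∂μ ≤ ∫ x, p x * G x ^ k ∂μ := by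
      refine integral_mono ((hp.const_mul _).add ((h1.sub (hp.const_mul _)).const_mul _)) h2 fun x => ?_
      have := mul_le_mul_of_nonneg_left (tangent hk (hG0 x) h0) (hp0 x)
      simp only
      linarith
    have h5 : Integrable (fun x => p x * G x - m * p x) μ := h1.sub (hp.const_mul _)
    rw [integral_add (hp.const_mul _) (h5.const_mul _), integral_const_mul, integral_const_mul,
      integral_sub h1 (hp.const_mul _), integral_const_mul, ← hm] at h3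
    refine le_trans ?_ h3
    have h4 : 0 < m ^ k := by positivity
    have e : k * m ^ (k - 1) * (m - m * ∫ x, p x ∂μ) = k * m ^ k * (1 - ∫ x, p x ∂μ) := by
      have e : m ^ k = m ^ (k - 1) * m := by
        rw [← Real.rpow_add_one h0.ne']
        congr 1; ring
      rw [e]; ring
    rw [e]
    nlinarith [mul_nonneg h4.le (show 0 ≤ 1 - ∫ x, p x ∂μ by linarith),
      mul_nonneg (mul_nonneg h4.le (show 0 ≤ 1 - ∫ x, p x ∂μ by linarith)) (show 0 ≤ k - 1 by linarith)]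

/-- Jensen's inequality for continuous functions on an interval -/
lemma jensen_int {k : ℝ} (hk : 1 ≤ k) {a b : ℝ} (hab : a ≤ b) {p G : ℝ → ℝ} (hpc : ContinuousOn p (Set.Icc a b))
    (hGc : ContinuousOn G (Set.Icc a b)) (hp0 : ∀ x, 0 ≤ p x) (hG0 : ∀ x, 0 ≤ G x) (hp1 : ∫ x in a..b, p x ≤ 1) :
    (∫ x in a..b, p x * G x) ^ k ≤ ∫ x in a..b, p x * G x ^ k := by
  have hG : ContinuousOn (fun x => G x ^ k) (Set.Icc a b) := hGc.rpow_const fun _ _ => Or.inr (by linarith)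
  rw [intervalIntegral.integral_of_le hab, intervalIntegral.integral_of_le hab]
  rw [intervalIntegral.integral_of_le hab] at hp1
  have hsub : Set.Ioc a b ⊆ Set.Icc a b := Set.Ioc_subset_Icc_self
  exact jensen hk hp0 hG0 (hpc.integrableOn_compact isCompact_Icc |>.mono_set hsub) hp1
    ((hpc.mul hGc).integrableOn_compact isCompact_Icc |>.mono_set hsub)
    ((hpc.mul hG).integrableOn_compact isCompact_Icc |>.mono_set hsub)

lemma add_rpow_le {a b q : ℝ} (ha : 0 ≤ a) (hb : 0 ≤ b) (hq : 0 ≤ q) : (a + b) ^ q ≤ 2 ^ q * (a ^ q + b ^ q) := by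
  have h2 : (0 : ℝ) ≤ 2 ^ q := by positivity
  have haq := Real.rpow_nonneg ha q
  have hbq := Real.rpow_nonneg hb q
  rcases le_total a b with h | h
  · calc (a + b) ^ q ≤ (2 * b) ^ q := Real.rpow_le_rpow (by positivity) (by linarith) hq
      _ = 2 ^ q * b ^ q := Real.mul_rpow (by norm_num) hb
      _ ≤ _ := mul_le_mul_of_nonneg_left (by linarith) h2
  · calc (a + b) ^ q ≤ (2 * a) ^ q := Real.rpow_le_rpow (by positivity) (by linarith) hq
      _ = 2 ^ q * a ^ q := Real.mul_rpow (by norm_num) ha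
      _ ≤ _ := mul_le_mul_of_nonneg_left (by linarith) h2

/-- moments decrease to the right, up to constants -/
theorem shift_mom {F : ℂ → ℂ} {a b Y δ B M k : ℝ} (hk : 1 ≤ k) (hab : a ≤ b) (hY : 1 ≤ Y) (hδ : 0 < δ) (hδ1 : δ ≤ 1 / 2)
    {U : Set ℂ} (hU : IsOpen U) (hF : DifferentiableOn ℂ F U)
    (hsub : Set.Icc (1 / 2 : ℝ) (5 / 2) ×ℂ Set.Icc (a - Y) (b + Y) ⊆ U)
    (hB : ∀ s ∈ Set.Icc (1 / 2 : ℝ) (5 / 2) ×ℂ Set.Icc (a - Y) (b + Y), ‖F s‖ ≤ B)
    (hM : ∀ y ∈ Set.Icc (a - Y) (b + Y), ‖F ⟨5 / 2, y⟩‖ ≤ M) :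
    ∫ t in a..b, ‖F ⟨1 / 2 + δ, t⟩‖ ^ k ≤ 4 ^ k * (∫ t in (a - Y)..(b + Y), ‖F ⟨1 / 2, t⟩‖ ^ k) +
      2 ^ k * (60 * M * δ + 60 * B * Real.exp (-Y ^ 2)) ^ k * (b - a) := by
  have hk0 : 0 ≤ k := by linarith
  have hM0 : 0 ≤ M := (norm_nonneg _).trans (hM a ⟨by linarith, by linarith⟩)
  have hB0 : 0 ≤ B := (norm_nonneg _).trans (hB ⟨1 / 2, a⟩ ⟨⟨le_rfl, by norm_num⟩, ⟨by simp; linarith, by simp; linarith⟩⟩)
  have hlc : ∀ x : ℝ, 1 / 2 ≤ x → x ≤ 5 / 2 → ContinuousOn (fun y : ℝ => F ⟨x, y⟩) (Set.Icc (a - Y) (b + Y)) := by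
    intro x hx1 hx2
    refine hF.continuousOn.comp (Continuous.continuousOn ?_) fun y hy => hsub ⟨⟨hx1, hx2⟩, hy⟩
    exact (by fun_prop : Continuous fun y : ℝ => (x : ℂ) + (y : ℂ) * I).congr fun y => (H370.mk_eq _ _).symm
  -- a continuous extension
  set pr : ℝ → ℝ := fun y => max (a - Y) (min y (b + Y)) with hpr
  have hprc : Continuous pr := by simp only [hpr]; fun_prop
  have hprm : ∀ y, pr y ∈ Set.Icc (a - Y) (b + Y) := fun y =>
    ⟨le_max_left _ _, max_le (by linarith) (min_le_right _ _)⟩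
  have hpre : ∀ y ∈ Set.Icc (a - Y) (b + Y), pr y = y := fun y hy => by
    simp only [hpr]
    rw [min_eq_left hy.2, max_eq_right hy.1]
  set G : ℝ → ℝ := fun y => ‖F ⟨1 / 2, pr y⟩‖ with hG
  have hGc : Continuous G := by
    simp only [hG]
    exact ((hlc (1 / 2) le_rfl (by norm_num)).comp_continuous hprc hprm).norm
  have hG0 : ∀ y, 0 ≤ G y := fun y => norm_nonneg _
  have hGe : ∀ y ∈ Set.Icc (a - Y) (b + Y), G y = ‖F ⟨1 / 2, y⟩‖ := fun y hy => by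
    simp only [hG]; rw [hpre y hy]
  set E : ℝ := 60 * M * δ + 60 * B * Real.exp (-Y ^ 2) with hE
  have hE0 : 0 ≤ E := by positivity
  -- pointwise
  have hpt : ∀ t ∈ Set.Icc a b, ‖F ⟨1 / 2 + δ, t⟩‖ ^ k ≤
      4 ^ k * (∫ y in (-Y)..Y, pk δ y * G (t + y) ^ k) + 2 ^ k * E ^ k := by
    intro t ht
    have hs : Set.Icc (t - Y) (t + Y) ⊆ Set.Icc (a - Y) (b + Y) := Set.Icc_subset_Icc (by linarith [ht.1]) (by linarith [ht.2])
    have hs2 : Set.Icc (1 / 2 : ℝ) (5 / 2) ×ℂ Set.Icc (t - Y) (t + Y) ⊆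
        Set.Icc (1 / 2 : ℝ) (5 / 2) ×ℂ Set.Icc (a - Y) (b + Y) := fun z hz => ⟨hz.1, hs hz.2⟩
    have h1 := pois hY hδ hδ1 hU hF (hs2.trans hsub) (fun s hs' => hB s (hs2 hs')) (fun y hy => hM y (hs hy))
    have h2 : ∫ y in (-Y)..Y, pk δ y * ‖F ⟨1 / 2, t + y⟩‖ = ∫ y in (-Y)..Y, pk δ y * G (t + y) := by
      refine intervalIntegral.integral_congr fun y hy => ?_
      rw [Set.uIcc_of_le (by linarith)] at hy
      rw [hGe _ ⟨by linarith [hy.1, ht.1], by linarith [hy.2, ht.2]⟩]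
    rw [h2] at h1
    have hGt : Continuous fun y => G (t + y) := hGc.comp (by fun_prop)
    have hJ : (∫ y in (-Y)..Y, pk δ y * G (t + y)) ^ k ≤ ∫ y in (-Y)..Y, pk δ y * G (t + y) ^ k :=
      jensen_int hk (by linarith) (pk_cont hδ).continuousOn hGt.continuousOn (fun y => pk_nonneg hδ y)
        (fun y => hG0 _) (pk_int hδ (by linarith))
    have hI0 : 0 ≤ ∫ y in (-Y)..Y, pk δ y * G (t + y) :=
      intervalIntegral.integral_nonneg (by linarith) fun y _ => mul_nonneg (pk_nonneg hδ y) (hG0 _)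
    calc ‖F ⟨1 / 2 + δ, t⟩‖ ^ k ≤ (2 * (∫ y in (-Y)..Y, pk δ y * G (t + y)) + E) ^ k :=
          Real.rpow_le_rpow (norm_nonneg _) (by linarith) hk0
      _ ≤ 2 ^ k * ((2 * (∫ y in (-Y)..Y, pk δ y * G (t + y))) ^ k + E ^ k) := add_rpow_le (by positivity) hE0 hk0
      _ = 4 ^ k * (∫ y in (-Y)..Y, pk δ y * G (t + y)) ^ k + 2 ^ k * E ^ k := by
          rw [Real.mul_rpow (by norm_num) hI0, mul_add, ← mul_assoc, ← Real.mul_rpow (by norm_num) (by norm_num)]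
          norm_num
      _ ≤ _ := by gcongr
  -- continuity of the two sides
  have hc1 : ContinuousOn (fun t : ℝ => ‖F ⟨1 / 2 + δ, t⟩‖ ^ k) (Set.Icc a b) :=
    (((hlc (1 / 2 + δ) (by linarith) (by linarith)).mono (Set.Icc_subset_Icc (by linarith) (by linarith))).norm).rpow_const
      fun _ _ => Or.inr hk0
  have hGk : Continuous fun y => G y ^ k := hGc.rpow_const fun _ => Or.inr hk0
  have hc2 : Continuous fun q : ℝ × ℝ => pk δ q.2 * G (q.1 + q.2) ^ k :=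
    ((pk_cont hδ).comp continuous_snd).mul (hGk.comp (by fun_prop : Continuous fun q : ℝ × ℝ => q.1 + q.2))
  have hc3 : Continuous fun t : ℝ => ∫ y in (-Y)..Y, pk δ y * G (t + y) ^ k :=
    intervalIntegral.continuous_parametric_intervalIntegral_of_continuous' hc2 _ _
  have hi1 : IntervalIntegrable (fun t : ℝ => ‖F ⟨1 / 2 + δ, t⟩‖ ^ k) volume a b := by
    refine ContinuousOn.intervalIntegrable ?_
    rw [Set.uIcc_of_le hab]; exact hc1
  have hc5 : Continuous fun t : ℝ => 4 ^ k * (∫ y in (-Y)..Y, pk δ y * G (t + y) ^ k) + 2 ^ k * E ^ k :=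
    (continuous_const.mul hc3).add continuous_const
  have hmain := intervalIntegral.integral_mono_on hab hi1 (hc5.intervalIntegrable a b) hpt
  have hsw : ∫ t in a..b, (∫ y in (-Y)..Y, pk δ y * G (t + y) ^ k) =
      ∫ y in (-Y)..Y, (∫ t in a..b, pk δ y * G (t + y) ^ k) := by
    refine MeasureTheory.intervalIntegral_intervalIntegral_swap ?_
    refine ((hc2.continuousOn (s := Set.uIcc a b ×ˢ Set.uIcc (-Y) Y)).integrableOn_compact
      (isCompact_uIcc.prod isCompact_uIcc)).mono_set ?_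
    exact Set.prod_mono Set.uIoc_subset_uIcc Set.uIoc_subset_uIcc
  have hin : ∀ y ∈ Set.Icc (-Y) Y, ∫ t in a..b, pk δ y * G (t + y) ^ k ≤
      pk δ y * ∫ t in (a - Y)..(b + Y), G t ^ k := by
    intro y hy
    rw [intervalIntegral.integral_const_mul, intervalIntegral.integral_comp_add_right (fun t => G t ^ k)]
    refine mul_le_mul_of_nonneg_left ?_ (pk_nonneg hδ y)
    exact intervalIntegral.integral_mono_interval (by linarith [hy.1]) (by linarith) (by linarith [hy.2])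
      (Eventually.of_forall fun t => Real.rpow_nonneg (hG0 t) _) (hGk.intervalIntegrable _ _)
  have hS0 : 0 ≤ ∫ t in (a - Y)..(b + Y), G t ^ k :=
    intervalIntegral.integral_nonneg (by linarith) fun t _ => Real.rpow_nonneg (hG0 t) _
  have hc4 : Continuous fun y : ℝ => ∫ t in a..b, pk δ y * G (t + y) ^ k :=
    intervalIntegral.continuous_parametric_intervalIntegral_of_continuous'
      (f := fun y t : ℝ => pk δ y * G (t + y) ^ k) (hc2.comp (by fun_prop : Continuous fun q : ℝ × ℝ => (q.2, q.1))) _ _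
  have hall : ∫ t in a..b, (∫ y in (-Y)..Y, pk δ y * G (t + y) ^ k) ≤ ∫ t in (a - Y)..(b + Y), G t ^ k := by
    rw [hsw]
    calc ∫ y in (-Y)..Y, (∫ t in a..b, pk δ y * G (t + y) ^ k)
        ≤ ∫ y in (-Y)..Y, pk δ y * ∫ t in (a - Y)..(b + Y), G t ^ k :=
          intervalIntegral.integral_mono_on (by linarith) (hc4.intervalIntegrable _ _)
            (((pk_cont hδ).mul continuous_const).intervalIntegrable _ _) hin
      _ = (∫ y in (-Y)..Y, pk δ y) * ∫ t in (a - Y)..(b + Y), G t ^ k := by rw [intervalIntegral.integral_mul_const]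
      _ ≤ 1 * ∫ t in (a - Y)..(b + Y), G t ^ k := mul_le_mul_of_nonneg_right (pk_int hδ (by linarith)) hS0
      _ = _ := one_mul _
  have hGF : ∫ t in (a - Y)..(b + Y), G t ^ k = ∫ t in (a - Y)..(b + Y), ‖F ⟨1 / 2, t⟩‖ ^ k := by
    refine intervalIntegral.integral_congr fun y hy => ?_
    rw [Set.uIcc_of_le (by linarith)] at hy
    rw [hGe y hy]
  have hc6 : Continuous fun t : ℝ => 4 ^ k * (∫ y in (-Y)..Y, pk δ y * G (t + y) ^ k) := continuous_const.mul hc3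
  rw [intervalIntegral.integral_add (hc6.intervalIntegrable _ _) (by simp),
    intervalIntegral.integral_const_mul, intervalIntegral.integral_const, smul_eq_mul] at hmain
  rw [← hGF]
  refine hmain.trans ?_
  have h4 : (0 : ℝ) ≤ 4 ^ k := by positivity
  have := mul_le_mul_of_nonneg_left hall h4
  linarith

end Pool.Agent.H60.LM
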