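import Pool.Agent.H60.LM.Pos

/-! Lower bounds uniformly in the window. -/

set_option autoImplicit false

open Complex MeasureTheory Filter Topology Set

namespace Pool.Agent.H60.LM

theorem pos2 {k a b : ℝ} (hk : 1 ≤ k) (hk4 : k < 4) {f : ℝ → ℂ} (hf : Continuous f) (ha : 0 ≤ a) (hab : a < b)
    (hI : ∫ u in a..b, f u ≠ 0) : ∃ c L : ℝ, 0 < c ∧ 1 ≤ L ∧ ∀ δf : ℝ → ℝ, Tendsto δf atTop (𝓝 0) →
      Tendsto (fun T : ℝ => δf T * Real.log T) atTop atTop → ∀ᶠ T : ℝ in atTop, ∀ h : ℝ, 0 < h → L * h ≤ δf T →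
        c ≤ δf T ^ (k ^ 2 / 4) / T * ∫ t in (0:ℝ)..T, ‖lm f a b h 0 t‖ ^ k := by
  have hk0 : 0 < k := by linarith
  have hba : 0 < b - a := by linarith
  have hb : 0 ≤ b := by linarith
  set I₀ : ℂ := ∫ u in a..b, f u with hI₀
  have hIp : 0 < ‖I₀‖ := norm_pos_iff.2 hI
  obtain ⟨C2, hC2, hdz⟩ := dz_mom (b := b) hk0 hk4.le hb
  obtain ⟨K₁, hK₁⟩ := isCompact_Icc.exists_bound_of_continuousOn (s := Set.Icc a b) hf.continuousOn
  set K : ℝ := max K₁ 1 with hK
  have hK0 : 0 < K := lt_of_lt_of_le one_pos (le_max_right _ _)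
  have hK1 : ∀ v ∈ Set.Icc a b, ‖f v‖ ≤ K := fun v hv => (hK₁ v hv).trans (le_max_left _ _)
  obtain ⟨lam, hlam, hlow⟩ := Pool.Agent.Y755.full_low (α := k / 2) (ε := 1 / 2) (by positivity) (by linarith) (by norm_num)
  obtain ⟨c1, hc1, hDD⟩ := Pool.Agent.Y755.DD_low (α := k / 2) (by positivity)
  have e2k : 2 * (k / 2) = k := by ring
  have ek : (k / 2) ^ 2 = k ^ 2 / 4 := by ring
  rw [e2k] at hlow
  -- the choice of the distance
  set c3 : ℝ := ‖I₀‖ ^ k * (c1 / 4) with hc3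
  have hc3p : 0 < c3 := by positivity
  set C4 : ℝ := 2 ^ k * ((K * (b - a) ^ 2) ^ k * C2) with hC4
  have hC4p : 0 < C4 := by positivity
  obtain ⟨L, hL1, hL2⟩ : ∃ L : ℝ, 1 ≤ L ∧ C4 * L ^ (-k) ≤ c3 / 4 := by
    have h1 : Tendsto (fun L : ℝ => C4 * L ^ (-k)) atTop (𝓝 (C4 * 0)) := (tendsto_rpow_neg_atTop hk0).const_mul C4
    rw [mul_zero] at h1
    obtain ⟨L, h2, h3⟩ := ((h1.eventually (gt_mem_nhds (show (0 : ℝ) < c3 / 4 by positivity))).and (eventually_ge_atTop 1)).exists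
    exact ⟨L, h3, h2.le⟩
  have hL0 : 0 < L := by linarith
  set M₀ : ℝ := K * (b - a) with hM₀
  have hM₀p : 0 < M₀ := by positivity
  set C5 : ℝ := 2 ^ k * (60 * (2 * M₀) * 1 + 60 * (24 * M₀)) ^ k with hC5
  have hC5p : 0 < C5 := by positivity
  refine ⟨c3 / 8 / (2 ^ k * 4 ^ k), L, by positivity, hL1, fun δf hδ hδL => ?_⟩
  have hlow' : ∀ᶠ T : ℝ in atTop, ∀ δ : ℝ, lam / Real.log (T / 2) ≤ δ → δ ≤ 1 / 16 →
      (1 - 1 / 2) * (T / 2 * Pool.Agent.Y755.DD (k / 2) δ) ≤ ∫ t in (0:ℝ)..(T / 2), Pool.Agent.W184.zn (1 / 2 + δ) t ^ k :=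
    (tendsto_id.atTop_div_const (show (0 : ℝ) < 2 by norm_num)).eventually hlow
  have hlogs : ∀ᶠ T : ℝ in atTop, (Real.log T + 2 + b) * (9 * (3 + Real.log T + b)) ^ k ≤ c1 / 8 * T := by
    have h1 : ∀ᶠ T : ℝ in atTop, (9 : ℝ) ^ k * (8 / c1) ≤ T ^ (1 / 2 : ℝ) := Pool.Agent.H60.WM.ev_const (by norm_num)
    have h2 : ∀ᶠ T : ℝ in atTop, (1 * Real.log T + 2) * (1 + b) + 4 ≤ T ^ (1 / (4 * k + 4)) :=
      Pool.Agent.H60.WM.ev_log (by positivity)
    filter_upwards [h1, h2, eventually_ge_atTop (3 : ℝ)] with T h1 h2 h3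
    have hT0 : 0 < T := by linarith
    have hT1 : 1 ≤ T := by linarith
    have hlog : 1 ≤ Real.log T := by
      rw [Real.le_log_iff_exp_le hT0]
      linarith [Real.exp_one_lt_d9]
    set q := T ^ (1 / (4 * k + 4)) with hq
    have hq0 : 0 < q := by positivity
    have h4 : 3 + Real.log T + b ≤ q := by nlinarith
    calc (Real.log T + 2 + b) * (9 * (3 + Real.log T + b)) ^ k ≤ q * (9 * q) ^ k := by
          gcongr
          linarith
      _ = c1 / 8 * ((9 ^ k * (8 / c1)) * (q * q ^ k)) := by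
          rw [Real.mul_rpow (by norm_num) hq0.le]
          field_simp
      _ ≤ c1 / 8 * (T ^ (1 / 2 : ℝ) * T ^ (1 / 2 : ℝ)) := by
          refine mul_le_mul_of_nonneg_left (mul_le_mul h1 ?_ (by positivity) (by positivity)) (by positivity)
          nth_rewrite 1 [← Real.rpow_one q]
          rw [← Real.rpow_add hq0, hq, ← Real.rpow_mul hT0.le]
          apply Real.rpow_le_rpow_of_exponent_le hT1
          rw [div_mul_eq_mul_div, div_le_div_iff₀ (by positivity) (by norm_num)]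
          linarith
      _ = c1 / 8 * T := by rw [← Real.rpow_add hT0]; norm_num
  have hinf : ∀ᶠ T : ℝ in atTop, C5 ≤ c3 / 8 * (δf T) ^ (-(k ^ 2 / 4)) / 2 ^ k := by
    have h1 : Tendsto δf atTop (𝓝[>] 0) := by
      rw [tendsto_nhdsWithin_iff]
      refine ⟨hδ, ?_⟩
      filter_upwards [ev_pos hδL] with T hT
      exact hT
    have h2 : Tendsto (fun x : ℝ => x ^ (-(k ^ 2 / 4))) (𝓝[>] 0) atTop :=
      tendsto_rpow_neg_nhdsGT_zero (by have : 0 < k ^ 2 := by positivity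
                                       linarith)
    have h3 := ((h2.comp h1).const_mul_atTop (show 0 < c3 / 8 / 2 ^ k by positivity)).eventually_ge_atTop C5
    filter_upwards [h3] with T h4
    refine h4.trans (le_of_eq ?_)
    simp only [Function.comp]
    ring
  filter_upwards [hdz _ hδ hδL, ev_pos hδL,
    hδ.eventually (gt_mem_nhds (show (0:ℝ) < 1 / 16 by norm_num)),
    hlow', hlogs, hinf, ev_expsq, Pool.Agent.H60.WM.ev_log (η := 1) (K := 4) (A := 1) one_pos,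
    hδL.eventually_ge_atTop (2 * lam), eventually_ge_atTop (max 4 (16 * (b + 1)))]
    with T g1 gδ g4 g5 g6 g7 g8 g9 g10 g11
  intro h g2 ghL
  have hT4 : 4 ≤ T := (le_max_left _ _).trans g11
  have hTb : 16 * (b + 1) ≤ T := (le_max_right _ _).trans g11
  have hT0 : 0 < T := by linarith
  obtain ⟨Y, hY⟩ : ∃ Y : ℝ, Y = Real.log T := ⟨_, rfl⟩
  have hYT : 4 * Y + 12 ≤ T := by rw [Real.rpow_one] at g9; rw [hY]; linarith
  clear g9
  have hlog1 : 1 ≤ Y := by
    rw [hY, Real.le_log_iff_exp_le hT0]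
    linarith [Real.exp_one_lt_d9]
  rw [← hY] at g6 g8 g10
  obtain ⟨δ, hδd⟩ : ∃ δ : ℝ, δ = δf T := ⟨_, rfl⟩
  rw [← hδd] at g1 g4 g7 g10 gδ ghL ⊢
  have hδp : 0 < δ := gδ
  have hhδ : h ≤ δ := (le_mul_of_one_le_left g2.le hL1).trans ghL
  have g3 : h < 1 := by linarith
  have hδ4 : δ ≤ 1 / 4 := by linarith
  -- the lower bound for zeta
  have hl2 : Y / 2 ≤ Real.log (T / 2) := by
    rw [Real.log_div hT0.ne' (by norm_num), ← hY]
    have h1 : Real.log 2 * 2 ≤ Y := by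
      have : Real.log 2 * 2 = Real.log 4 := by rw [show (4 : ℝ) = 2 ^ 2 by norm_num, Real.log_pow]; push_cast; ring
      rw [this, hY]
      exact Real.log_le_log (by norm_num) hT4
    linarith
  have hz := g5 δ (by
    rw [div_le_iff₀ (by linarith)]
    have := mul_le_mul_of_nonneg_left hl2 hδp.le
    linarith) g4.le
  have hz2 := hDD δ hδp (by linarith)
  rw [ek] at hz2
  have hzn : ∀ t : ℝ, Pool.Agent.W184.zn (1 / 2 + δ) t ^ k = ‖zx δ t‖ ^ k := by
    intro t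
    unfold Pool.Agent.W184.zn zx
    rw [H370.mk_eq]
  simp only [hzn] at hz
  have hδk : 1 ≤ δ ^ (-(k ^ 2 / 4)) := Real.one_le_rpow_of_pos_of_le_one_of_nonpos hδp (by linarith)
    (by have : 0 < k ^ 2 := by positivity
        linarith)
  have hzc : Continuous fun t => ‖zx δ t‖ ^ k := zx_k_cont hδ4 hk0.le
  have ha1 : h * a ≤ b := (mul_le_of_le_one_left ha g3.le).trans hab.le
  have ha0 : 0 ≤ h * a := by positivity
  have hzlow : c1 / 8 * (T * δ ^ (-(k ^ 2 / 4))) ≤ ∫ t in (Y + 2)..(T / 2), ‖zx δ (t + h * a)‖ ^ k := by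
    rw [intervalIntegral.integral_comp_add_right (fun t => ‖zx δ t‖ ^ k)]
    have h1 : ∫ t in (0:ℝ)..(T / 2), ‖zx δ t‖ ^ k ≤ (∫ t in (0:ℝ)..(Y + 2 + b), ‖zx δ t‖ ^ k) +
        ∫ t in (Y + 2 + h * a)..(T / 2 + h * a), ‖zx δ t‖ ^ k := by
      have h2 : ∫ t in (0:ℝ)..(T / 2), ‖zx δ t‖ ^ k ≤ ∫ t in (0:ℝ)..(T / 2 + h * a), ‖zx δ t‖ ^ k :=
        intervalIntegral.integral_mono_interval le_rfl (by linarith) (by linarith)
          (Eventually.of_forall fun t => by positivity) (hzc.intervalIntegrable _ _)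
      have h3 := intervalIntegral.integral_add_adjacent_intervals (a := 0) (b := Y + 2 + h * a) (c := T / 2 + h * a)
        (hzc.intervalIntegrable (μ := volume) _ _) (hzc.intervalIntegrable _ _)
      have h4 : ∫ t in (0:ℝ)..(Y + 2 + h * a), ‖zx δ t‖ ^ k ≤ ∫ t in (0:ℝ)..(Y + 2 + b), ‖zx δ t‖ ^ k :=
        intervalIntegral.integral_mono_interval le_rfl (by linarith) (by linarith)
          (Eventually.of_forall fun t => by positivity) (hzc.intervalIntegrable _ _)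
      linarith
    have h5 : ∫ t in (0:ℝ)..(Y + 2 + b), ‖zx δ t‖ ^ k ≤ c1 / 8 * T := by
      have h7 : ∫ t in (0:ℝ)..(Y + 2 + b), ‖zx δ t‖ ^ k ≤ ∫ _t in (0:ℝ)..(Y + 2 + b), (9 * (3 + Y + b)) ^ k := by
        refine intervalIntegral.integral_mono_on (by linarith) (hzc.intervalIntegrable _ _) (by simp) fun t ht => ?_
        refine Real.rpow_le_rpow (norm_nonneg _) ((zx_le hδp.le hδ4).trans ?_) hk0.le
        have : |t| ≤ 2 + Y + b := by rw [abs_le]; constructor <;> linarith [ht.1, ht.2]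
        linarith
      rw [intervalIntegral.integral_const, smul_eq_mul, sub_zero] at h7
      exact h7.trans g6
    have h6 : c1 / 8 * T ≤ c1 / 8 * (T * δ ^ (-(k ^ 2 / 4))) :=
      mul_le_mul_of_nonneg_left (le_mul_of_one_le_right hT0.le hδk) (by positivity)
    have h7 : c1 / 4 * (T * δ ^ (-(k ^ 2 / 4))) ≤ ∫ t in (0:ℝ)..(T / 2), ‖zx δ t‖ ^ k := by
      refine le_trans ?_ hz
      calc c1 / 4 * (T * δ ^ (-(k ^ 2 / 4))) = (1 - 1 / 2) * (T / 2 * (c1 * δ ^ (-(k ^ 2 / 4)))) := by ring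
        _ ≤ _ := by gcongr
    linarith
  -- comparison with the mean on the shifted line
  have hrs : ∀ t, rs f a b (h) δ 1 t = I₀ * zx δ (t + h * a) := by
    intro t
    unfold rs wt
    rw [Finset.sum_range_one, up_zero]
    have : up a b 1 (0 + 1) = b := up_n a b one_pos
    rw [this]
  have hr := rs_mom hk hf (x := δ) (T := T) ha hab g2.le g3.le hδ4 hK0.le hK1 (n := 1) one_pos hT0.le
  rw [Nat.cast_one, div_one] at hr
  have c1c := lm_cont hf a b (h) hδ4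
  have c2c := rs_cont f a b (h) hδ4 1
  have i1 : Continuous fun t => ‖lm f a b (h) δ t‖ ^ k := c1c.norm.rpow_const fun _ => Or.inr hk0.le
  have i2 : Continuous fun t => ‖lm f a b (h) δ t - rs f a b (h) δ 1 t‖ ^ k :=
    (c1c.sub c2c).norm.rpow_const fun _ => Or.inr hk0.le
  have i3 : Continuous fun t => ‖I₀‖ ^ k * ‖zx δ (t + h * a)‖ ^ k :=
    continuous_const.mul (hzc.comp (by fun_prop : Continuous fun t : ℝ => t + h * a))
  have i4 : Continuous fun t => 2 ^ k * (‖lm f a b (h) δ t‖ ^ k + ‖lm f a b (h) δ t - rs f a b (h) δ 1 t‖ ^ k) :=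
    continuous_const.mul (i1.add i2)
  have hcmp := intervalIntegral.integral_mono_on (μ := volume) (a := Y + 2) (b := T / 2) (by linarith)
    (i3.intervalIntegrable _ _) (i4.intervalIntegrable _ _) (fun t _ => by
      rw [← Real.mul_rpow (norm_nonneg _) (norm_nonneg _), ← norm_mul, ← hrs t]
      refine le_trans (Real.rpow_le_rpow (norm_nonneg _) ?_ hk0.le)
        (add_rpow_le (norm_nonneg (lm f a b (h) δ t)) (norm_nonneg (lm f a b (h) δ t - rs f a b (h) δ 1 t)) hk0.le)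
      have := norm_sub_le (lm f a b (h) δ t) (lm f a b (h) δ t - rs f a b (h) δ 1 t)
      rwa [sub_sub_cancel] at this)
  rw [intervalIntegral.integral_const_mul, intervalIntegral.integral_const_mul,
    intervalIntegral.integral_add (i1.intervalIntegrable _ _) (i2.intervalIntegrable _ _)] at hcmp
  have hD : 2 ^ k * ∫ t in (Y + 2)..(T / 2), ‖lm f a b (h) δ t - rs f a b (h) δ 1 t‖ ^ k ≤
      c3 / 4 * (T * δ ^ (-(k ^ 2 / 4))) := by
    have h1 : ∫ t in (Y + 2)..(T / 2), ‖lm f a b (h) δ t - rs f a b (h) δ 1 t‖ ^ k ≤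
        ∫ t in (0:ℝ)..T, ‖lm f a b (h) δ t - rs f a b (h) δ 1 t‖ ^ k :=
      intervalIntegral.integral_mono_interval (by linarith) (by linarith) (by linarith)
        (Eventually.of_forall fun t => by positivity) (i2.intervalIntegrable _ _)
    have h2 : ∫ t in (Y + 2)..(T / 2), ‖lm f a b (h) δ t - rs f a b (h) δ 1 t‖ ^ k ≤
        (K * (b - a) ^ 2 * h) ^ k * (C2 * T * δ ^ (-(k ^ 2 / 4) - k)) :=
      h1.trans (hr.trans (mul_le_mul_of_nonneg_left g1 (by positivity)))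
    have h3 : (K * (b - a) ^ 2 * h) ^ k * (C2 * T * δ ^ (-(k ^ 2 / 4) - k)) ≤
        ((K * (b - a) ^ 2) ^ k * C2) * L ^ (-k) * (T * δ ^ (-(k ^ 2 / 4))) := by
      have e1 : h ≤ L⁻¹ * δ := by rw [inv_mul_eq_div, le_div_iff₀ hL0]; linarith
      have e3 : (K * (b - a) ^ 2 * h) ^ k ≤ (K * (b - a) ^ 2 * (L⁻¹ * δ)) ^ k :=
        Real.rpow_le_rpow (by positivity) (mul_le_mul_of_nonneg_left e1 (by positivity)) hk0.le
      refine (mul_le_mul_of_nonneg_right e3 (by positivity)).trans (le_of_eq ?_)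
      rw [Real.mul_rpow (by positivity) (by positivity), Real.mul_rpow (by positivity) hδp.le, Real.inv_rpow hL0.le,
        ← Real.rpow_neg hL0.le]
      have e2 : δ ^ k * δ ^ (-(k ^ 2 / 4) - k) = δ ^ (-(k ^ 2 / 4)) := by
        rw [← Real.rpow_add hδp]; congr 1; ring
      rw [← e2]
      ring
    replace h2 := h2.trans h3
    calc 2 ^ k * ∫ t in (Y + 2)..(T / 2), ‖lm f a b (h) δ t - rs f a b (h) δ 1 t‖ ^ k
        ≤ 2 ^ k * (((K * (b - a) ^ 2) ^ k * C2) * L ^ (-k) * (T * δ ^ (-(k ^ 2 / 4)))) :=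
          mul_le_mul_of_nonneg_left h2 (by positivity)
      _ = (C4 * L ^ (-k)) * (T * δ ^ (-(k ^ 2 / 4))) := by rw [hC4]; ring
      _ ≤ _ := mul_le_mul_of_nonneg_right hL2 (by positivity)
  -- the shift to the critical line
  have hsh := shift_mom (F := Fm f a b (h)) (a := Y + 2) (b := T / 2) (Y := Y) (δ := δ) (B := 24 * M₀ * T) (M := 2 * M₀) hk
    (by linarith) hlog1 hδp (by linarith) im_open (Fm_diff hf ha hab g2.le)
    (fun z hz => by
      have : z.im ∈ Set.Icc (Y + 2 - Y) (T / 2 + Y) := hz.2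
      show 0 < z.im
      linarith [this.1])
    (fun z hz => by
      have q1 : z.im ∈ Set.Icc (Y + 2 - Y) (T / 2 + Y) := hz.2
      have q2 : z.re ∈ Set.Icc (1 / 2 : ℝ) (5 / 2) := hz.1
      unfold Fm
      have hn : ∀ u ∈ Set.uIoc a b, ‖f u * riemannZeta (z + ((h * u : ℝ) : ℂ) * I)‖ ≤ K * (24 * T) := by
        intro u hu
        rw [Set.uIoc_of_le hab.le] at hu
        rw [norm_mul]
        have hu0 : 0 ≤ h * u := mul_nonneg g2.le (by linarith [hu.1])
        have hu1 : h * u ≤ b := (mul_le_of_le_one_left (ha.trans hu.1.le) g3.le).trans hu.2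
        have r1 : (z + ((h * u : ℝ) : ℂ) * I).re = z.re := by simp
        have r2 : (z + ((h * u : ℝ) : ℂ) * I).im = z.im + h * u := by simp
        refine mul_le_mul (hK1 u ⟨hu.1.le, hu.2⟩) ?_ (norm_nonneg _) hK0.le
        have d1 := Pool.Agent.H388LH.zeta_growth (s := z + ((h * u : ℝ) : ℂ) * I) (by rw [r1]; linarith [q2.1])
          (by rw [r2]; linarith [q1.1])
        have d3 := Complex.norm_le_abs_re_add_abs_im (z + ((h * u : ℝ) : ℂ) * I)
        rw [r1, r2, abs_of_pos (by linarith [q2.1] : 0 < z.re), abs_of_pos (by linarith [q1.1] : 0 < z.im + h * u)] at d3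
        linarith [q1.2, q2.2]
      refine (intervalIntegral.norm_integral_le_of_norm_le_const hn).trans (le_of_eq ?_)
      rw [abs_of_pos hba, hM₀]
      ring)
    (fun y _ => by
      unfold Fm
      have hn : ∀ u ∈ Set.uIoc a b, ‖f u * riemannZeta ((⟨5 / 2, y⟩ : ℂ) + ((h * u : ℝ) : ℂ) * I)‖ ≤ K * 2 := by
        intro u hu
        rw [Set.uIoc_of_le hab.le] at hu
        rw [norm_mul]
        refine mul_le_mul (hK1 u ⟨hu.1.le, hu.2⟩) ?_ (norm_nonneg _) hK0.le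
        refine Pool.Agent.W188.Ray.norm_zeta_le_two ?_
        simp
        norm_num
      refine (intervalIntegral.norm_integral_le_of_norm_le_const hn).trans (le_of_eq ?_)
      rw [abs_of_pos hba, hM₀]
      ring)
  have e0 : ∀ t : ℝ, Fm f a b (h) ⟨1 / 2, t⟩ = lm f a b (h) 0 t := by
    intro t
    rw [← Fm_eq, add_zero]
  simp only [Fm_eq, e0] at hsh
  have c0c := lm_cont hf a b (h) (x := 0) (by norm_num)
  have i0 : Continuous fun t => ‖lm f a b (h) 0 t‖ ^ k := c0c.norm.rpow_const fun _ => Or.inr hk0.le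
  have hline : ∫ t in (Y + 2 - Y)..(T / 2 + Y), ‖lm f a b (h) 0 t‖ ^ k ≤ ∫ t in (0:ℝ)..T, ‖lm f a b (h) 0 t‖ ^ k :=
    intervalIntegral.integral_mono_interval (by linarith) (by linarith) (by linarith)
      (Eventually.of_forall fun t => by positivity) (i0.intervalIntegrable _ _)
  have hE2 : 60 * (2 * M₀) * δ + 60 * (24 * M₀ * T) * Real.exp (-Y ^ 2) ≤ 60 * (2 * M₀) * 1 + 60 * (24 * M₀) := by
    have h1 : 60 * (24 * M₀ * T) * Real.exp (-Y ^ 2) = 60 * (24 * M₀) * (T * Real.exp (-Y ^ 2)) := by ring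
    rw [h1]
    have h2 : 60 * (24 * M₀) * (T * Real.exp (-Y ^ 2)) ≤ 60 * (24 * M₀) * 1 := mul_le_mul_of_nonneg_left g8 (by positivity)
    have h3 : 60 * (2 * M₀) * δ ≤ 60 * (2 * M₀) * 1 := mul_le_mul_of_nonneg_left (by linarith) (by positivity)
    linarith
  have hE3 : 2 ^ k * (60 * (2 * M₀) * δ + 60 * (24 * M₀ * T) * Real.exp (-Y ^ 2)) ^ k * (T / 2 - (Y + 2)) ≤ C5 * T := by
    rw [hC5]
    refine mul_le_mul (mul_le_mul_of_nonneg_left (Real.rpow_le_rpow (by positivity) hE2 hk0.le) (by positivity))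
      (by linarith) (by linarith) (by positivity)
  -- conclusion
  set J := ∫ t in (0:ℝ)..T, ‖lm f a b (h) 0 t‖ ^ k with hJ
  set P := T * δ ^ (-(k ^ 2 / 4)) with hP
  have hP0 : 0 < P := by positivity
  have h4k : (0 : ℝ) < 4 ^ k := by positivity
  have h2k : (0 : ℝ) < 2 ^ k := by positivity
  have s1 : ∫ t in (Y + 2)..(T / 2), ‖lm f a b (h) δ t‖ ^ k ≤ 4 ^ k * J + C5 * T :=
    hsh.trans (add_le_add (mul_le_mul_of_nonneg_left hline h4k.le) hE3)
  have s2 : ‖I₀‖ ^ k * (c1 / 8 * P) ≤ ‖I₀‖ ^ k * ∫ t in (Y + 2)..(T / 2), ‖zx δ (t + h * a)‖ ^ k :=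
    mul_le_mul_of_nonneg_left hzlow (by positivity)
  have s3 : c3 / 4 * P ≤ 2 ^ k * (4 ^ k * J + C5 * T) := by
    have h1 : ‖I₀‖ ^ k * (c1 / 8 * P) = c3 / 2 * P := by rw [hc3]; ring
    have h2 : 2 ^ k * ∫ t in (Y + 2)..(T / 2), ‖lm f a b (h) δ t‖ ^ k ≤ 2 ^ k * (4 ^ k * J + C5 * T) :=
      mul_le_mul_of_nonneg_left s1 h2k.le
    rw [mul_add] at hcmp
    linarith
  have s4 : 2 ^ k * (C5 * T) ≤ c3 / 8 * P := by
    have h1 : 2 ^ k * C5 ≤ c3 / 8 * δ ^ (-(k ^ 2 / 4)) := by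
      rw [le_div_iff₀ h2k] at g7
      linarith
    calc 2 ^ k * (C5 * T) = (2 ^ k * C5) * T := by ring
      _ ≤ (c3 / 8 * δ ^ (-(k ^ 2 / 4))) * T := mul_le_mul_of_nonneg_right h1 hT0.le
      _ = _ := by rw [hP]; ring
  have s5 : c3 / 8 * P ≤ 2 ^ k * 4 ^ k * J := by
    rw [mul_add] at s3
    linarith
  have e2 : δ ^ (k ^ 2 / 4) * δ ^ (-(k ^ 2 / 4)) = 1 := by
    rw [← Real.rpow_add hδp]; simp
  have hT' : 0 < δ ^ (k ^ 2 / 4) / T := by positivity
  rw [div_le_iff₀ (by positivity)]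
  calc c3 / 8 = (c3 / 8 * P) * (δ ^ (k ^ 2 / 4) / T) := by
        rw [hP]
        calc c3 / 8 = c3 / 8 * (δ ^ (k ^ 2 / 4) * δ ^ (-(k ^ 2 / 4))) := by rw [e2, mul_one]
          _ = _ := by field_simp
    _ ≤ (2 ^ k * 4 ^ k * J) * (δ ^ (k ^ 2 / 4) / T) := mul_le_mul_of_nonneg_right s5 hT'.le
    _ = _ := by ring

end Pool.Agent.H60.LM
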