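import Pool.Agent.H60.LM.Ver

/-! Integrated vertical shift, and Riemann sums. -/

set_option autoImplicit false

open Complex MeasureTheory Filter Topology Set

namespace Pool.Agent.H60.LM

lemma add3_rpow_le {x y z k : ℝ} (hx : 0 ≤ x) (hy : 0 ≤ y) (hz : 0 ≤ z) (hk : 0 ≤ k) :
    (x + y + z) ^ k ≤ 4 ^ k * (x ^ k + y ^ k + z ^ k) := by
  have h1 := add_rpow_le (add_nonneg hx hy) hz hk
  have h2 := add_rpow_le hx hy hk
  have h3 : (1 : ℝ) ≤ 2 ^ k := Real.one_le_rpow (by norm_num) hk
  have h4 : (4 : ℝ) ^ k = 2 ^ k * 2 ^ k := by rw [← Real.mul_rpow (by norm_num) (by norm_num)]; norm_num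
  have h5 : 0 ≤ z ^ k := Real.rpow_nonneg hz _
  rw [h4]
  calc (x + y + z) ^ k ≤ 2 ^ k * ((x + y) ^ k + z ^ k) := h1
    _ ≤ 2 ^ k * (2 ^ k * (x ^ k + y ^ k) + 2 ^ k * z ^ k) := by
        gcongr
        exact le_mul_of_one_le_left h5 h3
    _ = _ := by ring

/-- the moment of the vertical difference -/
theorem ver {k a b : ℝ} (hk : 1 ≤ k) (hk4 : k < 4) {f : ℝ → ℂ} (hf : ContDiff ℝ 1 f) (ha : 0 ≤ a) (hab : a < b) :
    ∃ C x₀ T₀ : ℝ, 0 < C ∧ 0 < x₀ ∧ x₀ ≤ 1 / 16 ∧ 3 ≤ T₀ ∧ ∀ T : ℝ, T₀ ≤ T → ∀ h : ℝ, 0 < h → h ≤ 1 → ∀ e : ℝ, 0 < e → e ≤ x₀ →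
      ∫ t in (0:ℝ)..T, ‖lm f a b h e t - lm f a b h 0 t‖ ^ k ≤ C * T * (e ^ (k - k ^ 2 / 4) / h ^ k) := by
  have hk0 : 0 < k := by linarith
  have hb : 0 ≤ b := by linarith
  have hba : 0 < b - a := by linarith
  obtain ⟨C, x₀, T₀, hC, hx₀, hx16, hT₀, hup⟩ := up_one hk hk4.le hb
  obtain ⟨K₁, hK₁⟩ := isCompact_Icc.exists_bound_of_continuousOn (s := Set.Icc a b)
    (hf.continuous_deriv (by norm_num)).continuousOn
  set K : ℝ := max (max K₁ ‖f b‖) 1 with hK
  have hK0 : 0 < K := lt_of_lt_of_le one_pos (le_max_right _ _)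
  have hK1 : ∀ v ∈ Set.Icc a b, ‖deriv f v‖ ≤ K := fun v hv => (hK₁ v hv).trans ((le_max_left _ _).trans (le_max_left _ _))
  have hKb : ‖f b‖ ≤ K := (le_max_right _ _).trans (le_max_left _ _)
  refine ⟨(K * (1 + (b - a))) ^ k * (4 ^ k * (2 + (b - a) ^ k) * C * (1 - k / 4) ^ (-k)), x₀, T₀,
    by have : 0 < 1 - k / 4 := by linarith
       positivity, hx₀, hx16, hT₀, fun T hT h hh hh1 e he he0 => ?_⟩
  have hT0 : 0 < T := by linarith
  have he4 : e ≤ 1 / 4 := by linarith
  have hWc := WW_cont a b h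
  -- moments of the majorant
  have hWm : ∀ x : ℝ, 0 < x → x ≤ e → ∫ t in (0:ℝ)..T, WW a b h x t ^ k ≤
      (4 ^ k * (2 + (b - a) ^ k) * C * T) * x ^ (-(k ^ 2 / 4)) := by
    intro x hx hxe
    have hx4 : x ≤ 1 / 4 := by linarith
    have hb1 := hup T hT x hx (by linarith)
    set J : ℝ := ∫ t in (-b)..(T + b), ‖zx x t‖ ^ k with hJ
    have hzc : Continuous fun t => ‖zx x t‖ ^ k := zx_k_cont hx4 hk0.le
    have hz1 : Continuous fun t => ‖zx x t‖ := (zx_cont hx4).norm
    have hshift : ∀ c : ℝ, 0 ≤ c → c ≤ b → ∫ t in (0:ℝ)..T, ‖zy x (t + h * c)‖ ^ k ≤ J := by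
      intro c hc0 hcb
      have e1 : ∀ t, ‖zy x (t + h * c)‖ ^ k = (fun t => ‖zx x t‖ ^ k) (t + h * c) := fun t => by
        simp only [zy_eq hx4]
      simp only [e1]
      rw [intervalIntegral.integral_comp_add_right (fun t => ‖zx x t‖ ^ k)]
      have h1 : 0 ≤ h * c := by positivity
      have h2 : h * c ≤ b := by nlinarith
      exact intervalIntegral.integral_mono_interval (by linarith) (by linarith) (by linarith)
        (Eventually.of_forall fun t => by positivity) (hzc.intervalIntegrable _ _)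
    have hI : ∫ t in (0:ℝ)..T, (∫ v in a..b, ‖zy x (t + h * v)‖) ^ k ≤ (b - a) ^ k * J := by
      have e1 : ∀ t, (∫ v in a..b, ‖zy x (t + h * v)‖) = ∫ v in a..b, (fun t => ‖zx x t‖) (t + h * v) := fun t => by
        simp only [zy_eq hx4]
      simp only [e1]
      refine (ij (L := b) hk ha hab hh.le (by nlinarith) hT0.le hz1 fun t => norm_nonneg _).trans ?_
      refine mul_le_mul_of_nonneg_left ?_ (by positivity)
      exact intervalIntegral.integral_mono_interval (by linarith) (by linarith) le_rfl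
        (Eventually.of_forall fun t => by positivity) (hzc.intervalIntegrable _ _)
    have hc : ∀ c : ℝ, Continuous fun t => ‖zy x (t + h * c)‖ ^ k := fun c =>
      ((zy_cont.comp (by fun_prop : Continuous fun t : ℝ => ((x, t + h * c) : ℝ × ℝ))).norm).rpow_const fun _ => Or.inr hk0.le
    have hci : Continuous fun t : ℝ => (∫ v in a..b, ‖zy x (t + h * v)‖) ^ k :=
      (intervalIntegral.continuous_parametric_intervalIntegral_of_continuous'
        (f := fun t v : ℝ => ‖zy x (t + h * v)‖)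
        ((zy_cont.comp (by fun_prop : Continuous fun q : ℝ × ℝ => ((x, q.1 + h * q.2) : ℝ × ℝ))).norm) _ _).rpow_const
        fun _ => Or.inr hk0.le
    have hWk : Continuous fun t => WW a b h x t ^ k :=
      (hWc.comp (by fun_prop : Continuous fun t : ℝ => ((x, t) : ℝ × ℝ))).rpow_const fun _ => Or.inr hk0.le
    have hsum : Continuous fun t => ‖zy x (t + h * b)‖ ^ k + ‖zy x (t + h * a)‖ ^ k := (hc b).add (hc a)
    have hrhs : Continuous fun t => 4 ^ k * (‖zy x (t + h * b)‖ ^ k + ‖zy x (t + h * a)‖ ^ k +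
        (∫ v in a..b, ‖zy x (t + h * v)‖) ^ k) := continuous_const.mul (hsum.add hci)
    have hmono := intervalIntegral.integral_mono_on (μ := volume) hT0.le (hWk.intervalIntegrable 0 T)
      (hrhs.intervalIntegrable 0 T) (fun t _ => by
        unfold WW
        exact add3_rpow_le (norm_nonneg _) (norm_nonneg _)
          (intervalIntegral.integral_nonneg hab.le fun v _ => norm_nonneg _) hk0.le)
    rw [intervalIntegral.integral_const_mul, intervalIntegral.integral_add (hsum.intervalIntegrable _ _) (hci.intervalIntegrable _ _),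
      intervalIntegral.integral_add ((hc b).intervalIntegrable _ _) ((hc a).intervalIntegrable _ _)] at hmono
    have h1 := hshift b hb le_rfl
    have h2 := hshift a ha hab.le
    calc ∫ t in (0:ℝ)..T, WW a b h x t ^ k ≤ _ := hmono
      _ ≤ 4 ^ k * (J + J + (b - a) ^ k * J) := by gcongr
      _ = 4 ^ k * (2 + (b - a) ^ k) * J := by ring
      _ ≤ 4 ^ k * (2 + (b - a) ^ k) * (C * T * x ^ (-(k ^ 2 / 4))) := by gcongr
      _ = _ := by ring
  have hwj := wj hk hk4 he hT0.le (B := 4 ^ k * (2 + (b - a) ^ k) * C * T) (by positivity) hWc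
    (fun x t => WW_nonneg hab.le h x t) hWm
  -- continuity of the difference
  have hlc : ∀ x : ℝ, x ≤ 1 / 4 → Continuous fun t => lm f a b h x t := by
    intro x hx
    unfold lm
    exact intervalIntegral.continuous_parametric_intervalIntegral_of_continuous'
      (f := fun t u : ℝ => f u * zx x (t + h * u))
      ((hf.continuous.comp continuous_snd).mul ((zx_cont hx).comp (by fun_prop : Continuous fun q : ℝ × ℝ => q.1 + h * q.2))) _ _
  have hdc : Continuous fun t => ‖lm f a b h e t - lm f a b h 0 t‖ ^ k :=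
    ((hlc e he4).sub (hlc 0 (by norm_num))).norm.rpow_const fun _ => Or.inr hk0.le
  have hIc : Continuous fun t : ℝ => (∫ x in (0:ℝ)..e, WW a b h x t) ^ k :=
    (intervalIntegral.continuous_parametric_intervalIntegral_of_continuous'
      (f := fun t x : ℝ => WW a b h x t) (hWc.comp (by fun_prop : Continuous fun q : ℝ × ℝ => (q.2, q.1))) _ _).rpow_const
      fun _ => Or.inr hk0.le
  have hIc2 : Continuous fun t : ℝ => (K * (1 + (b - a)) / h) ^ k * (∫ x in (0:ℝ)..e, WW a b h x t) ^ k :=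
    continuous_const.mul hIc
  have hKh : 0 ≤ K * (1 + (b - a)) / h := by positivity
  have hfin := intervalIntegral.integral_mono_on (μ := volume) hT0.le (hdc.intervalIntegrable 0 T)
    (hIc2.intervalIntegrable 0 T) (fun t _ => by
      have h1 := lm_diff (t := t) hf hab hh he.le he4 hK0.le hKb hK1
      have h2 : 0 ≤ ∫ x in (0:ℝ)..e, WW a b h x t := intervalIntegral.integral_nonneg he.le fun x _ => WW_nonneg hab.le h x t
      rw [← Real.mul_rpow hKh h2]
      exact Real.rpow_le_rpow (norm_nonneg _) h1 hk0.le)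
  rw [intervalIntegral.integral_const_mul] at hfin
  calc ∫ t in (0:ℝ)..T, ‖lm f a b h e t - lm f a b h 0 t‖ ^ k ≤ _ := hfin
    _ ≤ (K * (1 + (b - a)) / h) ^ k * ((4 ^ k * (2 + (b - a) ^ k) * C * T) * ((1 - k / 4) ^ (-k) * e ^ (k - k ^ 2 / 4))) := by
        gcongr
    _ = _ := by rw [Real.div_rpow (by positivity) hh.le]; ring

/-! ### Riemann sums -/

/-- the derivative of zeta near the line -/
noncomputable def dz (x t : ℝ) : ℂ := deriv riemannZeta ⟨1 / 2 + x, t⟩

lemma dz_cont {x : ℝ} (hx : x ≤ 1 / 4) : Continuous (dz x) := by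
  rw [continuous_iff_continuousAt]
  intro t
  unfold dz
  have h1 : DifferentiableOn ℂ riemannZeta {1}ᶜ := fun z hz => (differentiableAt_riemannZeta hz).differentiableWithinAt
  have h2 : ContinuousAt (deriv riemannZeta) (⟨1 / 2 + x, t⟩ : ℂ) :=
    (h1.deriv isOpen_compl_singleton).continuousOn.continuousAt (isOpen_compl_singleton.mem_nhds (zx_ne hx))
  have h3 : Continuous fun t : ℝ => (⟨1 / 2 + x, t⟩ : ℂ) :=
    (by fun_prop : Continuous fun y : ℝ => ((1 / 2 + x : ℝ) : ℂ) + (y : ℂ) * I).congr fun y => (H370.mk_eq _ _).symm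
  exact ContinuousAt.comp (f := fun t : ℝ => (⟨1 / 2 + x, t⟩ : ℂ)) h2 h3.continuousAt

lemma zx_hasDeriv {x : ℝ} (hx : x ≤ 1 / 4) (t : ℝ) : HasDerivAt (zx x) (dz x t * I) t := by
  unfold zx dz
  have h1 : HasDerivAt riemannZeta (deriv riemannZeta ⟨1 / 2 + x, t⟩) (⟨1 / 2 + x, t⟩ : ℂ) :=
    (differentiableAt_riemannZeta (zx_ne hx)).hasDerivAt
  have h2 : HasDerivAt (fun t : ℝ => (⟨1 / 2 + x, t⟩ : ℂ)) I t := by
    have h3 : HasDerivAt (fun y : ℝ => ((1 / 2 + x : ℝ) : ℂ) + (y : ℂ) * I) (1 * I) t :=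
      ((Complex.ofRealCLM.hasDerivAt (x := t)).mul_const I).const_add _
    rw [one_mul] at h3
    refine h3.congr_of_eventuallyEq (Eventually.of_forall fun y => ?_)
    exact H370.mk_eq _ _
  exact h1.comp t h2

lemma zx_sub_le {x u v : ℝ} (hx : x ≤ 1 / 4) (huv : u ≤ v) : ‖zx x v - zx x u‖ ≤ ∫ y in u..v, ‖dz x y‖ := by
  have h1 : ∫ y in u..v, dz x y * I = zx x v - zx x u :=
    intervalIntegral.integral_eq_sub_of_hasDerivAt (fun y _ => zx_hasDeriv hx y)
      (((dz_cont hx).mul continuous_const).intervalIntegrable _ _)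
  rw [← h1]
  refine (intervalIntegral.norm_integral_le_integral_norm huv).trans (le_of_eq ?_)
  refine intervalIntegral.integral_congr fun y _ => ?_
  simp only [norm_mul, norm_I, mul_one]

/-- division points -/
noncomputable def up (a b : ℝ) (n i : ℕ) : ℝ := a + (b - a) * (i / n)

/-- the weights -/
noncomputable def wt (f : ℝ → ℂ) (a b : ℝ) (n i : ℕ) : ℂ := ∫ u in (up a b n i)..(up a b n (i + 1)), f u

/-- Riemann sums -/
noncomputable def rs (f : ℝ → ℂ) (a b h x : ℝ) (n : ℕ) (t : ℝ) : ℂ :=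
  ∑ i ∈ Finset.range n, wt f a b n i * zx x (t + h * up a b n i)

lemma up_le {a b : ℝ} (hab : a < b) {n : ℕ} (i : ℕ) : up a b n i ≤ up a b n (i + 1) := by
  unfold up
  have : (i : ℝ) / n ≤ ((i + 1 : ℕ) : ℝ) / n := by
    apply div_le_div_of_nonneg_right _ (Nat.cast_nonneg n)
    push_cast; linarith
  nlinarith

lemma up_sub {a b : ℝ} {n : ℕ} (i : ℕ) : up a b n (i + 1) - up a b n i = (b - a) / n := by
  unfold up
  push_cast
  ring

lemma up_zero (a b : ℝ) (n : ℕ) : up a b n 0 = a := by unfold up; simp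

lemma up_n (a b : ℝ) {n : ℕ} (hn : 0 < n) : up a b n n = b := by
  unfold up
  have : (n : ℝ) ≠ 0 := by exact_mod_cast hn.ne'
  rw [div_self this]; ring

lemma up_ge {a b : ℝ} (hab : a < b) (n i : ℕ) : a ≤ up a b n i := by
  unfold up
  have : 0 ≤ (i : ℝ) / n := by positivity
  nlinarith

lemma up_le_b {a b : ℝ} (hab : a < b) {n i : ℕ} (hn : 0 < n) (hi : i ≤ n) : up a b n i ≤ b := by
  unfold up
  have h1 : (0 : ℝ) < n := by exact_mod_cast hn
  have : (i : ℝ) / n ≤ 1 := by rw [div_le_one h1]; exact_mod_cast hi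
  nlinarith

theorem rs_diff {f : ℝ → ℂ} (hf : Continuous f) {a b h x K : ℝ} (hab : a < b) (hh : 0 ≤ h) (hx : x ≤ 1 / 4) (hK0 : 0 ≤ K)
    (hK : ∀ v ∈ Set.Icc a b, ‖f v‖ ≤ K) {n : ℕ} (hn : 0 < n) (t : ℝ) :
    ‖lm f a b h x t - rs f a b h x n t‖ ≤ K * ((b - a) / n) * h * ∫ v in a..b, ‖dz x (t + h * v)‖ := by
  have hn0 : (0 : ℝ) < n := by exact_mod_cast hn
  have hzc : Continuous fun u : ℝ => zx x (t + h * u) := (zx_cont hx).comp (by fun_prop)
  have hfz : Continuous fun u => f u * zx x (t + h * u) := hf.mul hzc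
  have hdc : Continuous fun v => ‖dz x (t + h * v)‖ := ((dz_cont hx).comp (by fun_prop)).norm
  have h1 : lm f a b h x t = ∑ i ∈ Finset.range n, ∫ u in (up a b n i)..(up a b n (i + 1)), f u * zx x (t + h * u) := by
    have := intervalIntegral.sum_integral_adjacent_intervals (f := fun u => f u * zx x (t + h * u)) (μ := volume)
      (a := fun i => up a b n i) (n := n) (fun i _ => hfz.intervalIntegrable _ _)
    rw [this, up_zero, up_n a b hn]
    rfl
  have h2 : rs f a b h x n t = ∑ i ∈ Finset.range n, ∫ u in (up a b n i)..(up a b n (i + 1)), f u * zx x (t + h * up a b n i) := by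
    unfold rs wt
    refine Finset.sum_congr rfl fun i _ => ?_
    rw [intervalIntegral.integral_mul_const]
  have h3 : ∑ i ∈ Finset.range n, ∫ v in (up a b n i)..(up a b n (i + 1)), ‖dz x (t + h * v)‖ = ∫ v in a..b, ‖dz x (t + h * v)‖ := by
    have := intervalIntegral.sum_integral_adjacent_intervals (f := fun v => ‖dz x (t + h * v)‖) (μ := volume)
      (a := fun i => up a b n i) (n := n) (fun i _ => hdc.intervalIntegrable _ _)
    rw [this, up_zero, up_n a b hn]
  rw [h1, h2, ← Finset.sum_sub_distrib, ← h3, Finset.mul_sum]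
  refine (norm_sum_le _ _).trans (Finset.sum_le_sum fun i hi => ?_)
  have hin : i < n := Finset.mem_range.1 hi
  have hle := up_le hab (n := n) i
  have hua := up_ge hab n i
  have hub := up_le_b hab hn (show i + 1 ≤ n by omega)
  have hc2 : Continuous fun u => f u * zx x (t + h * up a b n i) := hf.mul continuous_const
  rw [← intervalIntegral.integral_sub (hfz.intervalIntegrable _ _) (hc2.intervalIntegrable _ _)]
  have h4 : ∀ u ∈ Set.uIoc (up a b n i) (up a b n (i + 1)), ‖f u * zx x (t + h * u) - f u * zx x (t + h * up a b n i)‖ ≤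
      K * (h * ∫ v in (up a b n i)..(up a b n (i + 1)), ‖dz x (t + h * v)‖) := by
    intro u hu
    rw [Set.uIoc_of_le hle] at hu
    rw [← mul_sub, norm_mul]
    refine mul_le_mul (hK u ⟨by linarith [hu.1], by linarith [hu.2]⟩) ?_ (norm_nonneg _) hK0
    have h5 : t + h * up a b n i ≤ t + h * u := by have := mul_le_mul_of_nonneg_left hu.1.le hh; linarith
    have h6 : t + h * u ≤ t + h * up a b n (i + 1) := by have := mul_le_mul_of_nonneg_left hu.2 hh; linarith
    refine (zx_sub_le hx h5).trans ?_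
    have h7 := intervalIntegral.smul_integral_comp_add_mul (a := up a b n i) (b := up a b n (i + 1)) (f := fun y => ‖dz x y‖)
      (c := h) t
    rw [smul_eq_mul] at h7
    rw [h7]
    exact intervalIntegral.integral_mono_interval le_rfl h5 h6 (Eventually.of_forall fun y => norm_nonneg _)
      ((dz_cont hx).norm.intervalIntegrable _ _)
  refine (intervalIntegral.norm_integral_le_of_norm_le_const h4).trans (le_of_eq ?_)
  rw [abs_of_nonneg (by linarith), up_sub]
  ring

/-- moments of the error of the Riemann sums -/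
theorem rs_mom {k : ℝ} (hk : 1 ≤ k) {f : ℝ → ℂ} (hf : Continuous f) {a b h x K T : ℝ} (ha : 0 ≤ a) (hab : a < b) (hh : 0 ≤ h)
    (hh1 : h ≤ 1) (hx : x ≤ 1 / 4) (hK0 : 0 ≤ K) (hK : ∀ v ∈ Set.Icc a b, ‖f v‖ ≤ K) {n : ℕ} (hn : 0 < n) (hT : 0 ≤ T) :
    ∫ t in (0:ℝ)..T, ‖lm f a b h x t - rs f a b h x n t‖ ^ k ≤
      (K * (b - a) ^ 2 * h / n) ^ k * ∫ t in (0:ℝ)..(T + b), ‖dz x t‖ ^ k := by
  have hk0 : 0 < k := by linarith
  have hba : 0 < b - a := by linarith
  have hn0 : (0 : ℝ) < n := by exact_mod_cast hn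
  have hlc : Continuous fun t => lm f a b h x t := by
    unfold lm
    exact intervalIntegral.continuous_parametric_intervalIntegral_of_continuous'
      (f := fun t u : ℝ => f u * zx x (t + h * u))
      ((hf.comp continuous_snd).mul ((zx_cont hx).comp (by fun_prop : Continuous fun q : ℝ × ℝ => q.1 + h * q.2))) _ _
  have hrc : Continuous fun t => rs f a b h x n t := by
    unfold rs
    exact continuous_finsetSum _ fun i _ => continuous_const.mul ((zx_cont hx).comp (by fun_prop))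
  have hdc : Continuous fun t => ‖lm f a b h x t - rs f a b h x n t‖ ^ k :=
    (hlc.sub hrc).norm.rpow_const fun _ => Or.inr hk0.le
  have hIc : Continuous fun t : ℝ => (K * ((b - a) / n) * h) ^ k * (∫ v in a..b, ‖dz x (t + h * v)‖) ^ k :=
    continuous_const.mul ((intervalIntegral.continuous_parametric_intervalIntegral_of_continuous'
      (f := fun t v : ℝ => ‖dz x (t + h * v)‖)
      (((dz_cont hx).comp (by fun_prop : Continuous fun q : ℝ × ℝ => q.1 + h * q.2)).norm) _ _).rpow_const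
      fun _ => Or.inr hk0.le)
  have hK' : 0 ≤ K * ((b - a) / n) * h := by positivity
  have hfin := intervalIntegral.integral_mono_on (μ := volume) hT (hdc.intervalIntegrable 0 T)
    (hIc.intervalIntegrable 0 T) (fun t _ => by
      have h1 := rs_diff hf hab hh hx hK0 hK hn t
      have h2 : 0 ≤ ∫ v in a..b, ‖dz x (t + h * v)‖ := intervalIntegral.integral_nonneg hab.le fun x _ => norm_nonneg _
      rw [← Real.mul_rpow hK' h2]
      exact Real.rpow_le_rpow (norm_nonneg _) h1 hk0.le)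
  rw [intervalIntegral.integral_const_mul] at hfin
  have hij := ij (L := b) hk ha hab hh (by nlinarith) hT (dz_cont hx).norm fun t => norm_nonneg _
  calc _ ≤ _ := hfin
    _ ≤ (K * ((b - a) / n) * h) ^ k * ((b - a) ^ k * ∫ t in (0:ℝ)..(T + b), ‖dz x t‖ ^ k) := by gcongr
    _ = _ := by
        rw [← mul_assoc, ← Real.mul_rpow hK' hba.le]
        congr 2
        ring

end Pool.Agent.H60.LM
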