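import Pool.Agent.H60.LM.Ite

/-! Positivity for all weights: the step. -/

set_option autoImplicit false

open Complex MeasureTheory Filter Topology Set

namespace Pool.Agent.H60.LM

/-- positive lower bounds -/
def PosP (k a b : ℝ) (f : ℝ → ℂ) : Prop := ∃ c : ℝ, 0 < c ∧ ∀ h : ℝ → ℝ, Tendsto h atTop (𝓝 0) →
  Tendsto (fun T : ℝ => h T * Real.log T) atTop atTop → ∀ᶠ T : ℝ in atTop,
    c ≤ h T ^ (k ^ 2 / 4) / T * ∫ t in (0:ℝ)..T, ‖lm f a b (h T) 0 t‖ ^ k

/-- upper bounds on lines near the critical line -/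
theorem lme_up {k a b : ℝ} (hk : 1 ≤ k) (hk4 : k < 4) {F : ℝ → ℂ} (hF : Continuous F) (ha : 0 ≤ a) (hab : a < b) :
    ∃ C x₀ T₀ : ℝ, 0 < C ∧ 0 < x₀ ∧ x₀ ≤ 1 / 16 ∧ 3 ≤ T₀ ∧ ∀ T : ℝ, T₀ ≤ T → ∀ h : ℝ, 0 < h → h ≤ 1 →
      ∀ e : ℝ, 0 < e → e ≤ x₀ → ∫ t in (0:ℝ)..T, ‖lm F a b h e t‖ ^ k ≤ C * T * e ^ (-(k ^ 2 / 4)) := by
  have hk0 : 0 < k := by linarith
  have hba : 0 < b - a := by linarith
  have hb : 0 ≤ b := by linarith
  obtain ⟨C, x₀, T₀, hC, hx₀, hx16, hT₀, hup⟩ := up_one hk hk4.le hb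
  obtain ⟨K₁, hK₁⟩ := isCompact_Icc.exists_bound_of_continuousOn (s := Set.Icc a b) hF.continuousOn
  set K : ℝ := max K₁ 1 with hK
  have hK0 : 0 < K := lt_of_lt_of_le one_pos (le_max_right _ _)
  have hK1 : ∀ v ∈ Set.Icc a b, ‖F v‖ ≤ K := fun v hv => (hK₁ v hv).trans (le_max_left _ _)
  refine ⟨K ^ k * (b - a) ^ k * C, x₀, T₀, by positivity, hx₀, hx16, hT₀, fun T hT h hh hh1 e he he0 => ?_⟩
  have hT0 : 0 < T := by linarith
  have he4 : e ≤ 1 / 4 := by linarith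
  have hgc : Continuous fun t => ‖zx e t‖ := (zx_cont he4).norm
  have hgk : Continuous fun t => ‖zx e t‖ ^ k := zx_k_cont he4 hk0.le
  have hij := ij (g := fun t => ‖zx e t‖) (T := T) (L := b) hk ha hab hh.le (mul_le_of_le_one_left hb hh1) hT0.le hgc
    (fun t => norm_nonneg _)
  have c0 := lm_cont hF a b h (x := e) he4
  have i1 : Continuous fun t => ‖lm F a b h e t‖ ^ k := c0.norm.rpow_const fun _ => Or.inr hk0.le
  have i2c : Continuous fun t : ℝ => (∫ v in a..b, ‖zx e (t + h * v)‖) ^ k :=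
    (intervalIntegral.continuous_parametric_intervalIntegral_of_continuous'
      (f := fun t v : ℝ => ‖zx e (t + h * v)‖) (hgc.comp (by fun_prop : Continuous fun q : ℝ × ℝ => q.1 + h * q.2)) _ _).rpow_const
      fun _ => Or.inr hk0.le
  have i2 : Continuous fun t : ℝ => K ^ k * (∫ v in a..b, ‖zx e (t + h * v)‖) ^ k := continuous_const.mul i2c
  have hm := intervalIntegral.integral_mono_on (μ := volume) hT0.le (i1.intervalIntegrable 0 T) (i2.intervalIntegrable 0 T)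
    (fun t _ => by
      have hn0 : 0 ≤ ∫ v in a..b, ‖zx e (t + h * v)‖ := intervalIntegral.integral_nonneg hab.le fun v _ => norm_nonneg _
      rw [← Real.mul_rpow hK0.le hn0]
      refine Real.rpow_le_rpow (norm_nonneg _) ?_ hk0.le
      unfold lm
      rw [← intervalIntegral.integral_const_mul]
      refine intervalIntegral.norm_integral_le_of_norm_le hab.le (ae_of_all _ fun u hu => ?_)
        ((continuous_const.mul (hgc.comp (by fun_prop : Continuous fun v : ℝ => t + h * v))).intervalIntegrable _ _)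
      rw [norm_mul]
      exact mul_le_mul_of_nonneg_right (hK1 u ⟨hu.1.le, hu.2⟩) (norm_nonneg _))
  rw [intervalIntegral.integral_const_mul] at hm
  have h3 : ∫ t in (0:ℝ)..(T + b), ‖zx e t‖ ^ k ≤ C * T * e ^ (-(k ^ 2 / 4)) := by
    refine le_trans ?_ (hup T hT e he he0)
    exact intervalIntegral.integral_mono_interval (by linarith) (by linarith) le_rfl
      (Eventually.of_forall fun t => by positivity) (hgk.intervalIntegrable _ _)
  refine hm.trans ((mul_le_mul_of_nonneg_left (hij.trans (mul_le_mul_of_nonneg_left h3 (by positivity))) (by positivity)).trans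
    (le_of_eq ?_))
  ring

/-- the beginning of the interval -/
lemma ev_first {k K a b c : ℝ} (hk : 1 ≤ k) (hK0 : 0 < K) (hb : 0 ≤ b) (hba : 0 < b - a) (hc : 0 < c) :
    ∀ᶠ T : ℝ in atTop, (Real.log T + 2) * (K * (b - a) * (9 * (3 + Real.log T + b))) ^ k ≤ c / 8 * T := by
  have hk0 : 0 < k := by linarith
  have h1 : ∀ᶠ T : ℝ in atTop, (K * (b - a) * 9) ^ k * (8 / c) ≤ T ^ (1 / 2 : ℝ) := Pool.Agent.H60.WM.ev_const (by norm_num)
  have h2 : ∀ᶠ T : ℝ in atTop, (1 * Real.log T + 2) * (1 + b) + 4 ≤ T ^ (1 / (4 * k + 4)) :=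
    Pool.Agent.H60.WM.ev_log (by positivity)
  filter_upwards [h1, h2, eventually_ge_atTop (3 : ℝ)] with T h1 h2 h3
  have hT0 : 0 < T := by linarith
  have hT1 : 1 ≤ T := by linarith
  have hlog : 1 ≤ Real.log T := by
    rw [Real.le_log_iff_exp_le hT0]
    linarith [Real.exp_one_lt_d9]
  set q := T ^ (1 / (4 * k + 4)) with hq
  have hq0 : 0 < q := by positivity
  have h4 : 3 + Real.log T + b ≤ q := by nlinarith
  calc (Real.log T + 2) * (K * (b - a) * (9 * (3 + Real.log T + b))) ^ k ≤ q * (K * (b - a) * (9 * q)) ^ k := by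
        refine mul_le_mul (by linarith) (Real.rpow_le_rpow (by positivity) ?_ hk0.le) (by positivity) hq0.le
        exact mul_le_mul_of_nonneg_left (by linarith) (by positivity)
    _ = c / 8 * (((K * (b - a) * 9) ^ k * (8 / c)) * (q * q ^ k)) := by
        rw [show K * (b - a) * (9 * q) = (K * (b - a) * 9) * q by ring, Real.mul_rpow (by positivity) hq0.le]
        field_simp
    _ ≤ c / 8 * (T ^ (1 / 2 : ℝ) * T ^ (1 / 2 : ℝ)) := by
        refine mul_le_mul_of_nonneg_left (mul_le_mul h1 ?_ (by positivity) (by positivity)) (by positivity)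
        nth_rewrite 1 [← Real.rpow_one q]
        rw [← Real.rpow_add hq0, hq, ← Real.rpow_mul hT0.le]
        apply Real.rpow_le_rpow_of_exponent_le hT1
        rw [div_mul_eq_mul_div, div_le_div_iff₀ (by positivity) (by norm_num)]
        linarith
    _ = c / 8 * T := by rw [← Real.rpow_add hT0]; norm_num

lemma first_part {k a b h K A : ℝ} (hk : 1 ≤ k) {F : ℝ → ℂ} (hFc : Continuous F) (ha : 0 ≤ a) (hab : a < b) (hh : 0 ≤ h)
    (hh1 : h ≤ 1) (hK0 : 0 < K) (hK1 : ∀ v ∈ Set.Icc a b, ‖F v‖ ≤ K) (hA0 : 0 ≤ A) :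
    ∫ t in (0:ℝ)..A, ‖lm F a b h 0 t‖ ^ k ≤ A * (K * (b - a) * (9 * (1 + A + b))) ^ k := by
  have hk0 : 0 < k := by linarith
  have hba : 0 < b - a := by linarith
  have hb : 0 ≤ b := by linarith
  have cF0 := lm_cont hFc a b h (x := 0) (by norm_num)
  have iF0 : Continuous fun t => ‖lm F a b h 0 t‖ ^ k := cF0.norm.rpow_const fun _ => Or.inr hk0.le
  have h7 : ∫ t in (0:ℝ)..A, ‖lm F a b h 0 t‖ ^ k ≤ ∫ _t in (0:ℝ)..A, (K * (b - a) * (9 * (1 + A + b))) ^ k := by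
    refine intervalIntegral.integral_mono_on hA0 (iF0.intervalIntegrable _ _) (by simp) fun t ht => ?_
    refine Real.rpow_le_rpow (norm_nonneg _) ?_ hk0.le
    unfold lm
    have hn : ∀ u ∈ Set.uIoc a b, ‖F u * zx 0 (t + h * u)‖ ≤ K * (9 * (1 + A + b)) := by
      intro u hu
      rw [Set.uIoc_of_le hab.le] at hu
      rw [norm_mul]
      refine mul_le_mul (hK1 u ⟨hu.1.le, hu.2⟩) ((zx_le le_rfl (by norm_num)).trans ?_) (norm_nonneg _) hK0.le
      have hu0 : 0 ≤ h * u := mul_nonneg hh (by linarith [hu.1])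
      have hu1 : h * u ≤ b := (mul_le_of_le_one_left (ha.trans hu.1.le) hh1).trans hu.2
      have : |t + h * u| ≤ A + b := by rw [abs_le]; constructor <;> linarith [ht.1, ht.2]
      linarith
    refine (intervalIntegral.norm_integral_le_of_norm_le_const hn).trans (le_of_eq ?_)
    rw [abs_of_pos hba]
    ring
  rw [intervalIntegral.integral_const, smul_eq_mul, sub_zero] at h7
  exact h7

/-- the equation in the mean -/
theorem step_int {k a b h e A D G : ℝ} (hk : 1 ≤ k) {f F : ℝ → ℂ} (hf : Continuous f) (hF : ∀ u, HasDerivAt F (f u) u)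
    (hab : a < b) (hFa : F a = 0) (hFb : F b = 0) (g2 : 0 < h) (he0 : 0 < e) (he4 : e ≤ 1 / 4) (hAD : A ≤ D)
    (hG : ∀ x ∈ Set.Ioc 0 e, ∫ t in A..D, ‖lm f a b h x t‖ ^ k ≤ G) :
    ∫ t in A..D, ‖lm F a b h 0 t‖ ^ k ≤ 2 ^ k * ((∫ t in A..D, ‖lm F a b h e t‖ ^ k) + (e / h) ^ k * G) := by
  have hk0 : 0 < k := by linarith
  have hFc : Continuous F := continuous_iff_continuousAt.2 fun v => (hF v).continuousAt
  obtain ⟨φ, hφ⟩ : ∃ φ : ℝ → ℝ → ℝ, ∀ x t, φ x t = ‖∫ v in a..b, f v * zy x (t + h * v)‖ := ⟨_, fun _ _ => rfl⟩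
  have hφc : Continuous fun q : ℝ × ℝ => φ q.1 q.2 := by
    simp only [hφ]
    exact (intervalIntegral.continuous_parametric_intervalIntegral_of_continuous'
      (f := fun (q : ℝ × ℝ) v => f v * zy q.1 (q.2 + h * v))
      ((hf.comp continuous_snd).mul (zy_cont.comp (by fun_prop : Continuous fun q : (ℝ × ℝ) × ℝ => (q.1.1, q.1.2 + h * q.2)))) _ _).norm
  have hφ0 : ∀ x t, 0 ≤ φ x t := fun x t => by rw [hφ]; exact norm_nonneg _
  have hφx : ∀ t, Continuous fun x => φ x t := fun t => hφc.comp (by fun_prop : Continuous fun x : ℝ => (x, t))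
  have hφk : Continuous fun q : ℝ × ℝ => φ q.1 q.2 ^ k := hφc.rpow_const fun _ => Or.inr hk0.le
  have heh : 0 < e / h := by positivity
  have hpt : ∀ t, ‖lm F a b h 0 t‖ ^ k ≤ 2 ^ k * (‖lm F a b h e t‖ ^ k + (e / h) ^ k * ∫ x in (0:ℝ)..e, e⁻¹ * φ x t ^ k) := by
    intro t
    have h2 : ‖lm F a b h 0 t‖ ≤ ‖lm F a b h e t‖ + (e / h) * ∫ x in (0:ℝ)..e, e⁻¹ * φ x t := by
      rw [ode hf hF hab g2 he0.le he4 hFa hFb]
      refine (norm_sub_le _ _).trans (add_le_add le_rfl ?_)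
      rw [norm_mul, norm_div, norm_I, Complex.norm_real, Real.norm_eq_abs, abs_of_pos g2, intervalIntegral.integral_const_mul]
      have h3 : ‖∫ x in (0:ℝ)..e, ∫ v in a..b, f v * zy x (t + h * v)‖ ≤ ∫ x in (0:ℝ)..e, φ x t := by
        simp only [hφ]
        exact intervalIntegral.norm_integral_le_integral_norm he0.le
      have h4 : (e / h) * (e⁻¹ * ∫ x in (0:ℝ)..e, φ x t) = 1 / h * ∫ x in (0:ℝ)..e, φ x t := by
        field_simp
      rw [h4]
      exact mul_le_mul_of_nonneg_left h3 (by positivity)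
    have hI0 : 0 ≤ ∫ x in (0:ℝ)..e, e⁻¹ * φ x t :=
      intervalIntegral.integral_nonneg he0.le fun x _ => mul_nonneg (by positivity) (hφ0 _ _)
    have hJ := jensen_int hk he0.le (p := fun _ => e⁻¹) (G := fun x => φ x t) continuousOn_const (hφx t).continuousOn
      (fun _ => by positivity) (fun x => hφ0 _ _) (by
        rw [intervalIntegral.integral_const, smul_eq_mul, sub_zero, mul_inv_cancel₀ he0.ne'])
    calc ‖lm F a b h 0 t‖ ^ k ≤ (‖lm F a b h e t‖ + (e / h) * ∫ x in (0:ℝ)..e, e⁻¹ * φ x t) ^ k :=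
          Real.rpow_le_rpow (norm_nonneg _) h2 hk0.le
      _ ≤ 2 ^ k * (‖lm F a b h e t‖ ^ k + ((e / h) * ∫ x in (0:ℝ)..e, e⁻¹ * φ x t) ^ k) :=
          add_rpow_le (norm_nonneg _) (mul_nonneg heh.le hI0) hk0.le
      _ ≤ _ := by
          rw [Real.mul_rpow heh.le hI0]
          exact mul_le_mul_of_nonneg_left (add_le_add le_rfl (mul_le_mul_of_nonneg_left hJ (by positivity))) (by positivity)
  have cF0 := lm_cont hFc a b h (x := 0) (by norm_num)
  have iF0 : Continuous fun t => ‖lm F a b h 0 t‖ ^ k := cF0.norm.rpow_const fun _ => Or.inr hk0.le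
  have cFe := lm_cont hFc a b h (x := e) he4
  have iFe : Continuous fun t => ‖lm F a b h e t‖ ^ k := cFe.norm.rpow_const fun _ => Or.inr hk0.le
  have hIc : Continuous fun t => ∫ x in (0:ℝ)..e, e⁻¹ * φ x t ^ k :=
    intervalIntegral.continuous_parametric_intervalIntegral_of_continuous'
      (f := fun t x : ℝ => e⁻¹ * φ x t ^ k) (continuous_const.mul (hφk.comp (by fun_prop : Continuous fun q : ℝ × ℝ => (q.2, q.1)))) _ _
  have i6 : Continuous fun t => (e / h) ^ k * ∫ x in (0:ℝ)..e, e⁻¹ * φ x t ^ k := continuous_const.mul hIc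
  have i5 : Continuous fun t => 2 ^ k * (‖lm F a b h e t‖ ^ k + (e / h) ^ k * ∫ x in (0:ℝ)..e, e⁻¹ * φ x t ^ k) :=
    continuous_const.mul (iFe.add i6)
  have hint := intervalIntegral.integral_mono_on (μ := volume) hAD (iF0.intervalIntegrable _ _) (i5.intervalIntegrable _ _)
    (fun t _ => hpt t)
  rw [intervalIntegral.integral_const_mul, intervalIntegral.integral_add (iFe.intervalIntegrable _ _)
    (i6.intervalIntegrable _ _), intervalIntegral.integral_const_mul] at hint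
  have hsw : ∫ t in A..D, ∫ x in (0:ℝ)..e, e⁻¹ * φ x t ^ k ≤ G := by
    have h2 : ∫ t in A..D, ∫ x in (0:ℝ)..e, e⁻¹ * φ x t ^ k = ∫ x in (0:ℝ)..e, ∫ t in A..D, e⁻¹ * φ x t ^ k := by
      refine MeasureTheory.intervalIntegral_intervalIntegral_swap ?_
      refine (((continuous_const.mul (hφk.comp (by fun_prop : Continuous fun q : ℝ × ℝ => (q.2, q.1)))).continuousOn
        (s := Set.uIcc A D ×ˢ Set.uIcc 0 e)).integrableOn_compact (isCompact_uIcc.prod isCompact_uIcc)).mono_set ?_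
      exact Set.prod_mono Set.uIoc_subset_uIcc Set.uIoc_subset_uIcc
    rw [h2]
    have h3 : ∀ x ∈ Set.Ioc 0 e, ∫ t in A..D, e⁻¹ * φ x t ^ k ≤ e⁻¹ * G := by
      intro x hx
      rw [intervalIntegral.integral_const_mul]
      refine mul_le_mul_of_nonneg_left ?_ (by positivity)
      refine le_trans (le_of_eq ?_) (hG x hx)
      refine intervalIntegral.integral_congr fun t _ => ?_
      simp only [hφ]
      rw [lmy_eq f a b h (hx.2.trans he4)]
    have hc2 : Continuous fun x => ∫ t in A..D, e⁻¹ * φ x t ^ k :=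
      intervalIntegral.continuous_parametric_intervalIntegral_of_continuous'
        (f := fun x t : ℝ => e⁻¹ * φ x t ^ k) (continuous_const.mul hφk) _ _
    have h5 : ∫ x in (0:ℝ)..e, ∫ t in A..D, e⁻¹ * φ x t ^ k ≤ ∫ _x in (0:ℝ)..e, e⁻¹ * G := by
      refine intervalIntegral.integral_mono_on_of_le_Ioo he0.le (hc2.intervalIntegrable _ _) (by simp) fun x hx => ?_
      exact h3 x ⟨hx.1, hx.2.le⟩
    rw [intervalIntegral.integral_const, smul_eq_mul, sub_zero, ← mul_assoc, mul_inv_cancel₀ he0.ne', one_mul] at h5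
    exact h5
  refine hint.trans (mul_le_mul_of_nonneg_left (add_le_add le_rfl (mul_le_mul_of_nonneg_left hsw (by positivity))) (by positivity))

lemma log_half {T : ℝ} (hT4 : 4 ≤ T) : Real.log T / 2 ≤ Real.log (T / 2) := by
  have hT0 : 0 < T := by linarith
  rw [Real.log_div hT0.ne' (by norm_num)]
  have h1 : Real.log 2 * 2 ≤ Real.log T := by
    have : Real.log 2 * 2 = Real.log 4 := by rw [show (4 : ℝ) = 2 ^ 2 by norm_num, Real.log_pow]; push_cast; ring
    rw [this]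
    exact Real.log_le_log (by norm_num) hT4
  linarith

/-- numbers -/
lemma step_num {k X B h e T C1 C5 c J MF ME G P : ℝ} (hX0 : 0 < X) (hh : 0 < h) (hed : e = X * h) (hT0 : 0 < T)
    (hP : P = T * h ^ (-B)) (hX2 : 2 ^ k * C1 * X ^ (-B) ≤ c / 8)
    (g7 : 2 ^ k * X ^ k * C5 ≤ c / 8 * h ^ (-B)) (hmid : 3 * c / 8 * P ≤ MF)
    (hint : MF ≤ 2 ^ k * (ME + (e / h) ^ k * G)) (hE : ME ≤ C1 * T * e ^ (-B)) (hGd : G = 4 ^ k * J + C5 * T) :
    c / 8 * P ≤ 2 ^ k * X ^ k * 4 ^ k * J := by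
  have h2k : (0 : ℝ) < 2 ^ k := by positivity
  have hXk : (0 : ℝ) < X ^ k := by positivity
  have hP0 : 0 < P := by rw [hP]; positivity
  have e0 : e / h = X := by rw [hed]; field_simp
  rw [e0, hGd] at hint
  have e1 : C1 * T * e ^ (-B) = C1 * X ^ (-B) * P := by
    rw [hed, Real.mul_rpow hX0.le hh.le, hP]; ring
  rw [e1] at hE
  have s1 : 3 * c / 8 * P ≤ 2 ^ k * (C1 * X ^ (-B) * P + X ^ k * (4 ^ k * J + C5 * T)) :=
    hmid.trans (hint.trans (mul_le_mul_of_nonneg_left (add_le_add hE le_rfl) h2k.le))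
  have s2 : 2 ^ k * (C1 * X ^ (-B) * P) ≤ c / 8 * P := by
    have := mul_le_mul_of_nonneg_right hX2 hP0.le
    linarith
  have s3 : 2 ^ k * X ^ k * C5 * T ≤ c / 8 * P := by
    have := mul_le_mul_of_nonneg_right g7 hT0.le
    rw [hP]
    linarith
  have e2 : 2 ^ k * (C1 * X ^ (-B) * P + X ^ k * (4 ^ k * J + C5 * T)) =
    2 ^ k * (C1 * X ^ (-B) * P) + 2 ^ k * X ^ k * 4 ^ k * J + 2 ^ k * X ^ k * C5 * T := by ring
  rw [e2] at s1
  linarith

theorem step {k a b : ℝ} (hk : 1 ≤ k) (hk4 : k < 4) {f F : ℝ → ℂ} (hf : Continuous f) (hF : ∀ u, HasDerivAt F (f u) u)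
    (ha : 0 ≤ a) (hab : a < b) (hFa : F a = 0) (hFb : F b = 0) (H : PosP k a b F) : PosP k a b f := by
  have hk0 : 0 < k := by linarith
  have hba : 0 < b - a := by linarith
  have hb : 0 ≤ b := by linarith
  have hFc : Continuous F := continuous_iff_continuousAt.2 fun v => (hF v).continuousAt
  obtain ⟨c, hc, hP⟩ := H
  obtain ⟨c₁, T₁, hc₁, h1⟩ := unif_ev (P := fun T h => c ≤ h ^ (k ^ 2 / 4) / T * ∫ t in (0:ℝ)..T, ‖lm F a b h 0 t‖ ^ k) hP
  obtain ⟨C1, x₀, T₀, hC1, hx₀, hx16, hT₀, hup⟩ := lme_up hk hk4 hFc ha hab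
  obtain ⟨C5, hC5, hsh⟩ := shift_lm (k := k) hk hf ha hab
  obtain ⟨K₁, hK₁⟩ := isCompact_Icc.exists_bound_of_continuousOn (s := Set.Icc a b) hFc.continuousOn
  obtain ⟨K, hK⟩ : ∃ K : ℝ, K = max K₁ 1 := ⟨_, rfl⟩
  have hK0 : 0 < K := by rw [hK]; exact lt_of_lt_of_le one_pos (le_max_right _ _)
  have hK1 : ∀ v ∈ Set.Icc a b, ‖F v‖ ≤ K := fun v hv => by rw [hK]; exact (hK₁ v hv).trans (le_max_left _ _)
  obtain ⟨B, hB⟩ : ∃ B : ℝ, B = k ^ 2 / 4 := ⟨_, rfl⟩
  have hB0 : 0 < B := by rw [hB]; positivity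
  rw [← hB] at h1 hup
  obtain ⟨X, hX1, hX2⟩ : ∃ X : ℝ, 1 ≤ X ∧ 2 ^ k * C1 * X ^ (-B) ≤ c / 8 := by
    have h1 : Tendsto (fun X : ℝ => 2 ^ k * C1 * X ^ (-B)) atTop (𝓝 (2 ^ k * C1 * 0)) :=
      (tendsto_rpow_neg_atTop hB0).const_mul _
    rw [mul_zero] at h1
    obtain ⟨X, h2, h3⟩ := ((h1.eventually (gt_mem_nhds (show (0 : ℝ) < c / 8 by positivity))).and (eventually_ge_atTop 1)).exists
    exact ⟨X, h3, h2.le⟩
  have hX0 : 0 < X := by linarith
  refine ⟨c / 8 / (2 ^ k * X ^ k * 4 ^ k), by positivity, fun hf' h0 hL => ?_⟩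
  rw [← hB]
  have hinf : ∀ᶠ T : ℝ in atTop, 2 ^ k * X ^ k * C5 ≤ c / 8 * (hf' T) ^ (-B) := by
    have h1 : Tendsto hf' atTop (𝓝[>] 0) := by
      rw [tendsto_nhdsWithin_iff]
      exact ⟨h0, ev_pos hL⟩
    have h2 : Tendsto (fun x : ℝ => x ^ (-B)) (𝓝[>] 0) atTop := tendsto_rpow_neg_nhdsGT_zero (by linarith)
    exact ((h2.comp h1).const_mul_atTop (show 0 < c / 8 by positivity)).eventually_ge_atTop _
  have hXh : Tendsto (fun T => X * hf' T) atTop (𝓝 0) := by simpa using h0.const_mul X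
  filter_upwards [hsh, ev_pos hL, h0.eventually (gt_mem_nhds one_pos), h0.eventually (gt_mem_nhds (show 0 < 1 / c₁ by positivity)),
    hL.eventually_ge_atTop (2 * c₁), ev_first (k := k) (K := K) (a := a) (b := b) (c := c) hk hK0 hb hba hc, hinf,
    hXh.eventually (gt_mem_nhds hx₀),
    Pool.Agent.H60.WM.ev_log (η := 1) (K := 4) (A := 1) one_pos,
    eventually_ge_atTop (max (max 4 T₀) (max (2 * T₁) (16 * (b + 1))))] with T g1 g2 g3 g4 g5 g6 g7 g8 g9 g10
  obtain ⟨h, hhd⟩ : ∃ h : ℝ, h = hf' T := ⟨_, rfl⟩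
  rw [← hhd] at g2 g3 g4 g5 g7 g8 ⊢
  have hT4 : 4 ≤ T := ((le_max_left _ _).trans (le_max_left _ _)).trans g10
  have hTT₀ : T₀ ≤ T := ((le_max_right _ _).trans (le_max_left _ _)).trans g10
  have hTT₁ : 2 * T₁ ≤ T := ((le_max_left _ _).trans (le_max_right _ _)).trans g10
  have hT0 : 0 < T := by linarith
  have hlog : 0 < Real.log T := Real.log_pos (by linarith)
  have hYT : 4 * Real.log T + 12 ≤ T := by rw [Real.rpow_one] at g9; linarith
  have hg1 := g1 h g2 g3.le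
  have hl2 := log_half hT4
  obtain ⟨A, hA⟩ : ∃ A : ℝ, A = Real.log T + 2 := ⟨_, rfl⟩
  rw [← hA] at hg1
  have hA0 : 0 ≤ A := by linarith
  have hAT : A ≤ T / 2 := by rw [hA, le_div_iff₀ (by norm_num)]; linarith only [hYT, hlog]
  obtain ⟨e, hed⟩ : ∃ e : ℝ, e = X * h := ⟨_, rfl⟩
  rw [← hed] at g8
  have he0 : 0 < e := by rw [hed]; positivity
  have he16 : e ≤ 1 / 16 := g8.le.trans hx16
  have he4 : e ≤ 1 / 4 := by linarith
  have hhB : 0 < h ^ (-B) := by positivity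
  have hhB1 : 1 ≤ h ^ (-B) := Real.one_le_rpow_of_pos_of_le_one_of_nonpos g2 g3.le (by linarith)
  -- the lower bound for F
  have hlo := h1 (T / 2) (by linarith) h (by
    rw [div_le_iff₀ (by linarith)]
    have := mul_le_mul_of_nonneg_left hl2 g2.le
    linarith) g4.le
  have cF0 := lm_cont hFc a b h (x := 0) (by norm_num)
  have iF0 : Continuous fun t => ‖lm F a b h 0 t‖ ^ k := cF0.norm.rpow_const fun _ => Or.inr hk0.le
  have hlo2 : c / 2 * (T * h ^ (-B)) ≤ ∫ t in (0:ℝ)..(T / 2), ‖lm F a b h 0 t‖ ^ k := by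
    have e1 : h ^ B * h ^ (-B) = 1 := by rw [← Real.rpow_add g2]; simp
    have e2 : 0 < T / 2 * h ^ (-B) := by positivity
    have e3 := mul_le_mul_of_nonneg_left hlo e2.le
    calc c / 2 * (T * h ^ (-B)) = T / 2 * h ^ (-B) * c := by ring
      _ ≤ _ := e3
      _ = (h ^ B * h ^ (-B)) * ∫ t in (0:ℝ)..(T / 2), ‖lm F a b h 0 t‖ ^ k := by field_simp
      _ = _ := by rw [e1, one_mul]
  have hfirst : ∫ t in (0:ℝ)..A, ‖lm F a b h 0 t‖ ^ k ≤ c / 8 * (T * h ^ (-B)) := by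
    have h7 := first_part (k := k) hk hFc ha hab g2.le g3.le hK0 hK1 hA0
    have e1 : A * (K * (b - a) * (9 * (1 + A + b))) ^ k = (Real.log T + 2) * (K * (b - a) * (9 * (3 + Real.log T + b))) ^ k := by
      rw [hA]
      congr 4
      ring
    rw [e1] at h7
    refine h7.trans (g6.trans ?_)
    exact mul_le_mul_of_nonneg_left (le_mul_of_one_le_right hT0.le hhB1) (by positivity)
  have hmid : 3 * c / 8 * (T * h ^ (-B)) ≤ ∫ t in A..(T / 2), ‖lm F a b h 0 t‖ ^ k := by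
    have h3 := intervalIntegral.integral_add_adjacent_intervals (a := 0) (b := A) (c := T / 2)
      (iF0.intervalIntegrable (μ := volume) _ _) (iF0.intervalIntegrable _ _)
    rw [← h3] at hlo2
    linarith
  obtain ⟨J, hJ⟩ : ∃ J : ℝ, J = ∫ t in (0:ℝ)..T, ‖lm f a b h 0 t‖ ^ k := ⟨_, rfl⟩
  rw [← hJ] at hg1 ⊢
  have hint := step_int (A := A) (D := T / 2) (G := 4 ^ k * J + C5 * T) hk hf hF hab hFa hFb g2 he0 he4 hAT
    fun x hx => hg1 x hx.1 (hx.2.trans he16)
  have iFe : Continuous fun t => ‖lm F a b h e t‖ ^ k := (lm_cont hFc a b h he4).norm.rpow_const fun _ => Or.inr hk0.le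
  have hFe : ∫ t in A..(T / 2), ‖lm F a b h e t‖ ^ k ≤ C1 * T * e ^ (-B) := by
    have h2 : ∫ t in A..(T / 2), ‖lm F a b h e t‖ ^ k ≤ ∫ t in (0:ℝ)..T, ‖lm F a b h e t‖ ^ k :=
      intervalIntegral.integral_mono_interval hA0 hAT (half_le_self hT0.le)
        (Eventually.of_forall fun t => by positivity) (iFe.intervalIntegrable _ _)
    exact h2.trans (hup T hTT₀ h g2 g3.le e he0 g8.le)
  have s4 := step_num (P := T * h ^ (-B)) hX0 g2 hed hT0 rfl hX2 g7 hmid hint hFe rfl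
  have e2 : h ^ B * h ^ (-B) = 1 := by
    rw [← Real.rpow_add g2]; simp
  have hT' : 0 < h ^ B / T := by positivity
  rw [div_le_iff₀ (by positivity)]
  calc c / 8 = (c / 8 * (T * h ^ (-B))) * (h ^ B / T) := by
        calc c / 8 = c / 8 * (h ^ B * h ^ (-B)) := by rw [e2, mul_one]
          _ = _ := by field_simp
    _ ≤ (2 ^ k * X ^ k * 4 ^ k * J) * (h ^ B / T) := mul_le_mul_of_nonneg_right s4 hT'.le
    _ = _ := by ring

end Pool.Agent.H60.LM
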