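import Pool.Agent.H60.LM.Pois
import Pool.Graph.R_pool_sql_team_seeded_843ab51a.V11128.CXL.O
import Pool.Graph.R_pool_sql_team_seeded_620a6dc7.Helper156_SP.Der11
import Pool.Agent.H60.WM.Asym

/-! Upper bounds of the right order near the line. -/

set_option autoImplicit false

open Complex MeasureTheory Filter Topology Set

namespace Pool.Agent.H60.LM

/-- zeta near the line -/
noncomputable def zx (x t : ℝ) : ℂ := riemannZeta ⟨1 / 2 + x, t⟩

lemma zx_ne {x t : ℝ} (hx : x ≤ 1 / 4) : (⟨1 / 2 + x, t⟩ : ℂ) ≠ 1 := by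
  intro h
  have := congrArg Complex.re h
  simp only [one_re] at this
  linarith

lemma zx_contAt {x t : ℝ} (hx : x ≤ 1 / 4) : ContinuousAt (fun q : ℝ × ℝ => zx q.1 q.2) (x, t) := by
  unfold zx
  have h1 : ContinuousAt riemannZeta (⟨1 / 2 + x, t⟩ : ℂ) := (differentiableAt_riemannZeta (zx_ne hx)).continuousAt
  have h2 : Continuous fun q : ℝ × ℝ => (⟨1 / 2 + q.1, q.2⟩ : ℂ) :=
    (by fun_prop : Continuous fun q : ℝ × ℝ => ((1 / 2 + q.1 : ℝ) : ℂ) + (q.2 : ℂ) * I).congr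
      fun q => (H370.mk_eq _ _).symm
  exact ContinuousAt.comp (f := fun q : ℝ × ℝ => (⟨1 / 2 + q.1, q.2⟩ : ℂ)) h1 h2.continuousAt

lemma zx_cont {x : ℝ} (hx : x ≤ 1 / 4) : Continuous (zx x) := by
  rw [continuous_iff_continuousAt]
  intro t
  exact ContinuousAt.comp (f := fun t : ℝ => ((x, t) : ℝ × ℝ)) (zx_contAt hx) (by fun_prop)

lemma zx_k_cont {x k : ℝ} (hx : x ≤ 1 / 4) (hk : 0 ≤ k) : Continuous fun t => ‖zx x t‖ ^ k :=
  (zx_cont hx).norm.rpow_const fun _ => Or.inr hk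

lemma zx_le {x t : ℝ} (hx0 : 0 ≤ x) (hx : x ≤ 1 / 4) : ‖zx x t‖ ≤ 9 * (1 + |t|) := by
  unfold zx
  exact Pool.Agent.H388LH.zeta_growth' (s := ⟨1 / 2 + x, t⟩) (by simp only; linarith) (by simp only; linarith)

lemma az_eq (t : ℝ) : Pool.Agent.Helper156_SP.az t = ‖zx 0 t‖ := by
  unfold Pool.Agent.Helper156_SP.az zx
  rw [H370.mk_eq]
  norm_num

lemma zeta_diff : DifferentiableOn ℂ riemannZeta {z : ℂ | 0 < z.im} := fun z hz => by
  refine (differentiableAt_riemannZeta ?_).differentiableWithinAt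
  intro h
  rw [h] at hz
  simp at hz

lemma im_open : IsOpen {z : ℂ | 0 < z.im} := isOpen_lt continuous_const continuous_im

lemma ev_expsq : ∀ᶠ T : ℝ in atTop, T * Real.exp (-(Real.log T) ^ 2) ≤ 1 := by
  filter_upwards [eventually_ge_atTop (Real.exp 1)] with T hT
  have hT0 : 0 < T := (Real.exp_pos 1).trans_le hT
  have hL : 1 ≤ Real.log T := by rw [Real.le_log_iff_exp_le hT0]; exact hT
  nth_rewrite 1 [← Real.exp_log hT0]
  rw [← Real.exp_add, Real.exp_le_one_iff]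
  nlinarith

theorem up_one {k L : ℝ} (hk : 1 ≤ k) (hk4 : k ≤ 4) (hL : 0 ≤ L) : ∃ C x₀ T₀ : ℝ, 0 < C ∧ 0 < x₀ ∧ x₀ ≤ 1 / 16 ∧
    3 ≤ T₀ ∧ ∀ T : ℝ, T₀ ≤ T → ∀ x : ℝ, 0 < x → x ≤ x₀ →
      ∫ t in (-L)..(T + L), ‖zx x t‖ ^ k ≤ C * T * x ^ (-(k ^ 2 / 4)) := by
  have hk0 : 0 < k := by linarith
  obtain ⟨lam, hlam, hup⟩ := Pool.Agent.Y753.SHR.up_full (s := k / 2) (by positivity) (by linarith) one_pos
  obtain ⟨δ0, C0, hδ0, hC0, hDD⟩ := Pool.Agent.Y753.NL.DD_up (α := k / 2) (by positivity)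
  obtain ⟨C1, hC1, hmom⟩ := Pool.Agent.Helper156_SP.mom_upper_all hk0 hk4
  have e2k : 2 * (k / 2) = k := by ring
  have ek : (k / 2) ^ 2 = k ^ 2 / 4 := by ring
  rw [e2k] at hup
  have hup' : ∀ᶠ T : ℝ in atTop, ∀ δ : ℝ, lam / Real.log (T + 2 * L) ≤ δ → δ ≤ 1 / 16 →
      Pool.Agent.Y755.mom k (1 / 2 + δ) (-L) (T + 2 * L) ≤ (1 + 1) * Pool.Agent.Y755.DD (k / 2) δ :=
    (tendsto_atTop_add_const_right atTop (2 * L) tendsto_id).eventually (hup (-L))
  have hmom' : ∀ᶠ T : ℝ in atTop, ∫ t in (0:ℝ)..(2 * T), Pool.Agent.Helper156_SP.az t ^ k ≤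
      C1 * (2 * T * Real.log (2 * T) ^ (k ^ 2 / 4)) :=
    (tendsto_id.const_mul_atTop (show (0 : ℝ) < 2 by norm_num)).eventually hmom
  have hlogs : ∀ᶠ T : ℝ in atTop, (Real.log T + 2 + L) * (9 * (3 + Real.log T + L)) ^ k ≤ T := by
    have h1 : ∀ᶠ T : ℝ in atTop, (9 : ℝ) ^ k ≤ T ^ (1 / 2 : ℝ) := Pool.Agent.H60.WM.ev_const (by norm_num)
    have h2 : ∀ᶠ T : ℝ in atTop, (1 * Real.log T + 2) * (1 + L) + 4 ≤ T ^ (1 / (4 * k + 4)) :=
      Pool.Agent.H60.WM.ev_log (by positivity)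
    filter_upwards [h1, h2, eventually_ge_atTop (3 : ℝ)] with T h1 h2 h3
    have hT0 : 0 < T := by linarith
    have hT1 : 1 ≤ T := by linarith
    have hlog : 1 ≤ Real.log T := by
      rw [Real.le_log_iff_exp_le hT0]
      linarith [Real.exp_one_lt_d9]
    set q := T ^ (1 / (4 * k + 4)) with hq
    have hq0 : 0 < q := by positivity
    have h4 : 3 + Real.log T + L ≤ q := by nlinarith
    calc (Real.log T + 2 + L) * (9 * (3 + Real.log T + L)) ^ k ≤ q * (9 * q) ^ k := by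
          gcongr
          linarith
      _ = 9 ^ k * (q * q ^ k) := by rw [Real.mul_rpow (by norm_num) hq0.le]; ring
      _ ≤ T ^ (1 / 2 : ℝ) * T ^ (1 / 2 : ℝ) := by
          refine mul_le_mul h1 ?_ (by positivity) (by positivity)
          nth_rewrite 1 [← Real.rpow_one q]
          rw [← Real.rpow_add hq0, hq, ← Real.rpow_mul hT0.le]
          apply Real.rpow_le_rpow_of_exponent_le hT1
          rw [div_mul_eq_mul_div, div_le_div_iff₀ (by positivity) (by norm_num)]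
          linarith
      _ = T := by rw [← Real.rpow_add hT0]; norm_num
  have hE := hup'.and (hmom'.and (hlogs.and (ev_expsq.and ((eventually_ge_atTop (max (16 * (L + 1)) 3)).and
    (Pool.Agent.H60.WM.ev_log (η := 1) (K := 4) (A := 1) one_pos)))))
  rw [eventually_atTop] at hE
  obtain ⟨T₀, hT₀⟩ := hE
  set C2 : ℝ := (2 * L + 1) * (2 * C0) with hC2
  set C3 : ℝ := 1 + (4 ^ k * (C1 * (2 * (2 : ℝ) ^ (k ^ 2 / 4))) + 2 ^ k * (60 * 2 * 1 + 60 * 24) ^ k * 2) with hC3
  have hC3' : 0 < C3 := by positivity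
  refine ⟨C2 + C3 * lam ^ (k ^ 2 / 4), min δ0 (1 / 16), max T₀ 3, by positivity, lt_min hδ0 (by norm_num), min_le_right _ _,
    le_max_right _ _, fun T hT x hx hx0 => ?_⟩
  obtain ⟨h1, h2, h3, h4, h5, h6⟩ := hT₀ T ((le_max_left _ _).trans hT)
  have hT3 : 3 ≤ T := (le_max_right _ _).trans hT
  have hTL : 16 * (L + 1) ≤ T := (le_max_left _ _).trans h5
  have hxδ : x ≤ δ0 := hx0.trans (min_le_left _ _)
  have hx16 : x ≤ 1 / 16 := hx0.trans (min_le_right _ _)
  have hT0 : 0 < T := by linarith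
  have hlog1 : 1 ≤ Real.log T := by
    rw [Real.le_log_iff_exp_le hT0]
    linarith [Real.exp_one_lt_d9]
  have hlogL : Real.log T ≤ Real.log (T + 2 * L) := Real.log_le_log hT0 (by linarith)
  have hxk : 0 < x ^ (-(k ^ 2 / 4)) := Real.rpow_pos_of_pos hx _
  rcases le_or_gt (lam / Real.log (T + 2 * L)) x with hc | hc
  · -- away from the line
    have h7 := h1 x hc hx16
    have h8 := hDD x hx hxδ
    rw [ek] at h8
    have e3 : ∫ t in (-L)..(T + L), ‖zx x t‖ ^ k = (T + 2 * L) * Pool.Agent.Y755.mom k (1 / 2 + x) (-L) (T + 2 * L) := by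
      unfold Pool.Agent.Y755.mom
      have h8 := intervalIntegral.mul_integral_comp_mul_add (a := 0) (b := 1) (f := fun t => ‖zx x t‖ ^ k) (c := T + 2 * L) (-L)
      have e4 : (T + 2 * L) * 0 + -L = -L := by ring
      have e5 : (T + 2 * L) * 1 + -L = T + L := by ring
      rw [e4, e5] at h8
      rw [← h8]
      congr 1
      refine intervalIntegral.integral_congr fun u _ => ?_
      unfold zx
      rw [H370.mk_eq]
      congr 3
      push_cast
      ring
    rw [e3]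
    calc (T + 2 * L) * Pool.Agent.Y755.mom k (1 / 2 + x) (-L) (T + 2 * L)
        ≤ (T + 2 * L) * (2 * (C0 * x ^ (-(k ^ 2 / 4)))) := by
          refine mul_le_mul_of_nonneg_left ?_ (by positivity)
          linarith
      _ ≤ ((2 * L + 1) * T) * (2 * (C0 * x ^ (-(k ^ 2 / 4)))) := by
          refine mul_le_mul_of_nonneg_right ?_ (by positivity)
          nlinarith
      _ = C2 * T * x ^ (-(k ^ 2 / 4)) := by rw [hC2]; ring
      _ ≤ _ := by
          have : 0 ≤ C3 * lam ^ (k ^ 2 / 4) := by positivity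
          refine mul_le_mul_of_nonneg_right (mul_le_mul_of_nonneg_right (by linarith) hT0.le) hxk.le
  · -- near the line
    set Y := Real.log T with hY
    have hYT : 4 * Y + 12 ≤ T := by rw [Real.rpow_one] at h6; linarith
    clear h6
    have hcont : Continuous fun t => ‖zx x t‖ ^ k := zx_k_cont (by linarith) hk0.le
    have hsplit : ∫ t in (-L)..(T + L), ‖zx x t‖ ^ k = (∫ t in (-L)..(Y + 2), ‖zx x t‖ ^ k) + ∫ t in (Y + 2)..(T + L), ‖zx x t‖ ^ k :=
      (intervalIntegral.integral_add_adjacent_intervals (hcont.intervalIntegrable _ _) (hcont.intervalIntegrable _ _)).symm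
    have hfirst : ∫ t in (-L)..(Y + 2), ‖zx x t‖ ^ k ≤ T := by
      have h7 : ∫ t in (-L)..(Y + 2), ‖zx x t‖ ^ k ≤ ∫ _t in (-L)..(Y + 2), (9 * (3 + Y + L)) ^ k := by
        refine intervalIntegral.integral_mono_on (by linarith) (hcont.intervalIntegrable _ _) (by simp) fun t ht => ?_
        refine Real.rpow_le_rpow (norm_nonneg _) ((zx_le hx.le (by linarith)).trans ?_) hk0.le
        have : |t| ≤ 2 + Y + L := by rw [abs_le]; constructor <;> linarith [ht.1, ht.2]
        linarith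
      rw [intervalIntegral.integral_const, smul_eq_mul] at h7
      refine h7.trans (le_trans (le_of_eq ?_) h3)
      ring
    have hsh := shift_mom (F := riemannZeta) (a := Y + 2) (b := T + L) (Y := Y) (δ := x) (B := 24 * T) (M := 2) hk
      (by linarith) hlog1 hx (by linarith) im_open zeta_diff
      (fun z hz => by
        have : z.im ∈ Set.Icc (Y + 2 - Y) (T + L + Y) := hz.2
        show 0 < z.im
        linarith [this.1])
      (fun z hz => by
        have g1 : z.im ∈ Set.Icc (Y + 2 - Y) (T + L + Y) := hz.2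
        have g2 : z.re ∈ Set.Icc (1 / 2 : ℝ) (5 / 2) := hz.1
        have c1 := Pool.Agent.H388LH.zeta_growth (s := z) (by linarith [g2.1]) (by linarith [g1.1])
        have c3 := Complex.norm_le_abs_re_add_abs_im z
        rw [abs_of_pos (by linarith [g2.1] : 0 < z.re), abs_of_pos (by linarith [g1.1] : 0 < z.im)] at c3
        linarith [g1.2, g2.2])
      (fun y _ => Pool.Agent.W188.Ray.norm_zeta_le_two (s := ⟨5 / 2, y⟩) (by norm_num))
    have hline : ∫ t in (Y + 2 - Y)..(T + L + Y), ‖riemannZeta ⟨1 / 2, t⟩‖ ^ k ≤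
        C1 * (2 * T * (2 * Y) ^ (k ^ 2 / 4)) := by
      have e1 : ∀ t : ℝ, ‖riemannZeta ⟨1 / 2, t⟩‖ ^ k = Pool.Agent.Helper156_SP.az t ^ k := by
        intro t
        rw [az_eq]
        unfold zx
        rw [add_zero]
      simp only [e1]
      have h7 : ∫ t in (Y + 2 - Y)..(T + L + Y), Pool.Agent.Helper156_SP.az t ^ k ≤
          ∫ t in (0:ℝ)..(2 * T), Pool.Agent.Helper156_SP.az t ^ k := by
        refine intervalIntegral.integral_mono_interval (by linarith) (by linarith) (by linarith) ?_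
          (Pool.Agent.Helper156_SP.azp_int hk0 _ _)
        exact Eventually.of_forall fun t => Real.rpow_nonneg (Pool.Agent.Helper156_SP.az_nonneg t) _
      refine (h7.trans h2).trans ?_
      have h8 : Real.log (2 * T) ≤ 2 * Y := by
        rw [Real.log_mul (by norm_num) hT0.ne']
        have : Real.log 2 ≤ 1 := by linarith [Real.log_two_lt_d9]
        linarith
      have h9 : 0 ≤ Real.log (2 * T) := Real.log_nonneg (by linarith)
      gcongr
    have hE2 : 60 * 2 * x + 60 * (24 * T) * Real.exp (-Y ^ 2) ≤ 60 * 2 * 1 + 60 * 24 := by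
      nlinarith [Real.exp_pos (-Y ^ 2)]
    have hYk : 1 ≤ Y ^ (k ^ 2 / 4) := Real.one_le_rpow hlog1 (by positivity)
    have hsecond : ∫ t in (Y + 2)..(T + L), ‖zx x t‖ ^ k ≤
        (4 ^ k * (C1 * (2 * (2 : ℝ) ^ (k ^ 2 / 4))) + 2 ^ k * (60 * 2 * 1 + 60 * 24) ^ k * 2) * (T * Y ^ (k ^ 2 / 4)) := by
      refine hsh.trans ?_
      have h7 : 0 ≤ 60 * 2 * x + 60 * (24 * T) * Real.exp (-Y ^ 2) := by positivity
      calc _ ≤ 4 ^ k * (C1 * (2 * T * (2 * Y) ^ (k ^ 2 / 4))) + 2 ^ k * (60 * 2 * 1 + 60 * 24) ^ k * (2 * T) := by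
            refine add_le_add (mul_le_mul_of_nonneg_left hline (by positivity)) ?_
            refine mul_le_mul (mul_le_mul_of_nonneg_left (Real.rpow_le_rpow h7 hE2 hk0.le) (by positivity)) (by linarith)
              (by linarith) (by positivity)
        _ = 4 ^ k * (C1 * (2 * (2 : ℝ) ^ (k ^ 2 / 4))) * (T * Y ^ (k ^ 2 / 4)) + 2 ^ k * (60 * 2 * 1 + 60 * 24) ^ k * 2 * (T * 1) := by
            rw [Real.mul_rpow (by norm_num) (by linarith)]; ring
        _ ≤ 4 ^ k * (C1 * (2 * (2 : ℝ) ^ (k ^ 2 / 4))) * (T * Y ^ (k ^ 2 / 4)) +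
            2 ^ k * (60 * 2 * 1 + 60 * 24) ^ k * 2 * (T * Y ^ (k ^ 2 / 4)) := by gcongr
        _ = _ := by ring
    have htot : ∫ t in (-L)..(T + L), ‖zx x t‖ ^ k ≤ C3 * (T * Y ^ (k ^ 2 / 4)) := by
      rw [hsplit, hC3, add_mul]
      refine add_le_add ?_ hsecond
      rw [one_mul]
      exact hfirst.trans (le_mul_of_one_le_right hT0.le hYk)
    have hYx : Y ^ (k ^ 2 / 4) ≤ lam ^ (k ^ 2 / 4) * x ^ (-(k ^ 2 / 4)) := by
      have h7 : Y ≤ lam / x := by
        rw [le_div_iff₀ hx]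
        rw [lt_div_iff₀ (by linarith : 0 < Real.log (T + 2 * L))] at hc
        nlinarith
      calc Y ^ (k ^ 2 / 4) ≤ (lam / x) ^ (k ^ 2 / 4) := Real.rpow_le_rpow (by linarith) h7 (by positivity)
        _ = _ := by rw [Real.div_rpow (by linarith) hx.le, Real.rpow_neg hx.le]; ring
    calc ∫ t in (-L)..(T + L), ‖zx x t‖ ^ k ≤ C3 * (T * Y ^ (k ^ 2 / 4)) := htot
      _ ≤ C3 * (T * (lam ^ (k ^ 2 / 4) * x ^ (-(k ^ 2 / 4)))) := by gcongr
      _ = C3 * lam ^ (k ^ 2 / 4) * T * x ^ (-(k ^ 2 / 4)) := by ring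
      _ ≤ _ := by
          have : 0 ≤ C2 := by positivity
          refine mul_le_mul_of_nonneg_right (mul_le_mul_of_nonneg_right (by linarith) hT0.le) hxk.le

end Pool.Agent.H60.LM
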