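import Pool.Agent.H60.LM.Up
import Pool.Agent.H60.LM.Jen

/-! Local means and their vertical shift. -/

set_option autoImplicit false

open Complex MeasureTheory Filter Topology Set

namespace Pool.Agent.H60.LM

/-- a continuous extension -/
noncomputable def zy (x t : ℝ) : ℂ := zx (min x (1 / 4)) t

lemma zy_cont : Continuous fun q : ℝ × ℝ => zy q.1 q.2 := by
  rw [continuous_iff_continuousAt]
  rintro ⟨x, t⟩
  unfold zy
  have h1 := zx_contAt (x := min x (1 / 4)) (t := t) (min_le_right _ _)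
  have h2 : Continuous fun q : ℝ × ℝ => ((min q.1 (1 / 4), q.2) : ℝ × ℝ) := by fun_prop
  exact ContinuousAt.comp (f := fun q : ℝ × ℝ => ((min q.1 (1 / 4), q.2) : ℝ × ℝ)) (x := (x, t)) h1 h2.continuousAt

lemma zy_eq {x t : ℝ} (hx : x ≤ 1 / 4) : zy x t = zx x t := by
  unfold zy; rw [min_eq_left hx]

lemma rect_diff {x1 x2 c d : ℝ} (h12 : x1 ≤ x2) (hx : x2 ≤ 1 / 4) (hcd : c ≤ d) :
    ‖(∫ y in c..d, zx x2 y) - ∫ y in c..d, zx x1 y‖ ≤ (∫ x in x1..x2, ‖zx x d‖) + ∫ x in x1..x2, ‖zx x c‖ := by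
  have hd : DifferentiableOn ℂ riemannZeta (Set.Icc (1 / 2 + x1) (1 / 2 + x2) ×ℂ Set.Icc c d) := by
    intro z hz
    refine (differentiableAt_riemannZeta ?_).differentiableWithinAt
    intro h
    have h1 : z.re ∈ Set.Icc (1 / 2 + x1) (1 / 2 + x2) := hz.1
    rw [h] at h1
    have := h1.2
    simp only [one_re] at this
    linarith
  have h := H370.RI_zero (by linarith) hcd hd
  unfold H370.RI at h
  have e1 : ∀ y : ℝ, ∫ x in (1 / 2 + x1)..(1 / 2 + x2), riemannZeta ⟨x, y⟩ = ∫ x in x1..x2, zx x y := by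
    intro y
    rw [← intervalIntegral.integral_comp_add_left (fun x : ℝ => riemannZeta ⟨x, y⟩)]
    rfl
  rw [e1, e1] at h
  have h2 : I * ((∫ y in c..d, zx x2 y) - ∫ y in c..d, zx x1 y) = (∫ x in x1..x2, zx x d) - ∫ x in x1..x2, zx x c := by
    have h3 : (∫ y in c..d, riemannZeta ⟨1 / 2 + x2, y⟩) = ∫ y in c..d, zx x2 y := rfl
    have h4 : (∫ y in c..d, riemannZeta ⟨1 / 2 + x1, y⟩) = ∫ y in c..d, zx x1 y := rfl
    rw [h3, h4] at h
    linear_combination h
  have h5 : ‖(∫ y in c..d, zx x2 y) - ∫ y in c..d, zx x1 y‖ = ‖(∫ x in x1..x2, zx x d) - ∫ x in x1..x2, zx x c‖ := by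
    rw [← h2, norm_mul, norm_I, one_mul]
  rw [h5]
  exact (norm_sub_le _ _).trans (add_le_add (intervalIntegral.norm_integral_le_integral_norm h12)
    (intervalIntegral.norm_integral_le_integral_norm h12))

/-- the local mean -/
noncomputable def lm (f : ℝ → ℂ) (a b h x t : ℝ) : ℂ := ∫ u in a..b, f u * zx x (t + h * u)

/-- the majorant -/
noncomputable def WW (a b h x t : ℝ) : ℝ :=
  ‖zy x (t + h * b)‖ + ‖zy x (t + h * a)‖ + ∫ v in a..b, ‖zy x (t + h * v)‖

lemma WW_cont (a b h : ℝ) : Continuous fun q : ℝ × ℝ => WW a b h q.1 q.2 := by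
  unfold WW
  refine Continuous.add (Continuous.add ?_ ?_) ?_
  · exact (zy_cont.comp (by fun_prop : Continuous fun q : ℝ × ℝ => (q.1, q.2 + h * b))).norm
  · exact (zy_cont.comp (by fun_prop : Continuous fun q : ℝ × ℝ => (q.1, q.2 + h * a))).norm
  · exact intervalIntegral.continuous_parametric_intervalIntegral_of_continuous'
      (f := fun (q : ℝ × ℝ) v => ‖zy q.1 (q.2 + h * v)‖)
      ((zy_cont.comp (by fun_prop : Continuous fun q : (ℝ × ℝ) × ℝ => (q.1.1, q.1.2 + h * q.2))).norm) _ _

lemma WW_nonneg {a b : ℝ} (hab : a ≤ b) (h x t : ℝ) : 0 ≤ WW a b h x t := by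
  unfold WW
  have : 0 ≤ ∫ v in a..b, ‖zy x (t + h * v)‖ := intervalIntegral.integral_nonneg hab fun v _ => norm_nonneg _
  positivity

theorem lm_diff {f : ℝ → ℂ} (hf : ContDiff ℝ 1 f) {a b h e K t : ℝ} (hab : a < b) (hh : 0 < h) (he : 0 ≤ e)
    (he4 : e ≤ 1 / 4) (hK0 : 0 ≤ K) (hKb : ‖f b‖ ≤ K) (hK : ∀ v ∈ Set.Icc a b, ‖deriv f v‖ ≤ K) :
    ‖lm f a b h e t - lm f a b h 0 t‖ ≤ K * (1 + (b - a)) / h * ∫ x in (0:ℝ)..e, WW a b h x t := by
  set g : ℝ → ℂ := fun u => zx e (t + h * u) - zx 0 (t + h * u) with hg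
  have hze : ∀ x : ℝ, x ≤ 1 / 4 → Continuous fun u : ℝ => zx x (t + h * u) := fun x hx => (zx_cont hx).comp (by fun_prop)
  have hgc : Continuous g := (hze e he4).sub (hze 0 (by norm_num))
  set G : ℝ → ℂ := fun v => ∫ u in a..v, g u with hG
  have hGd : ∀ v, HasDerivAt G (g v) v := fun v =>
    intervalIntegral.integral_hasDerivAt_right (hgc.intervalIntegrable _ _) (hgc.stronglyMeasurableAtFilter _ _) hgc.continuousAt
  have hGc : Continuous G := continuous_iff_continuousAt.2 fun v => (hGd v).continuousAt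
  have hfc : Continuous f := hf.continuous
  have hfd : ∀ v, HasDerivAt f (deriv f v) v := fun v => (hf.differentiable (by norm_num) v).hasDerivAt
  have hfdc : Continuous (deriv f) := hf.continuous_deriv (by norm_num)
  have e1 : lm f a b h e t - lm f a b h 0 t = ∫ u in a..b, f u * g u := by
    unfold lm
    have i1 : Continuous fun u => f u * zx e (t + h * u) := hfc.mul (hze e he4)
    have i2 : Continuous fun u => f u * zx 0 (t + h * u) := hfc.mul (hze 0 (by norm_num))
    rw [← intervalIntegral.integral_sub (i1.intervalIntegrable _ _) (i2.intervalIntegrable _ _)]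
    refine intervalIntegral.integral_congr fun u _ => ?_
    simp only [hg]
    ring
  have hGa : G a = 0 := by simp only [hG]; exact intervalIntegral.integral_same
  have e2 := intervalIntegral.integral_mul_deriv_eq_deriv_mul (a := a) (b := b) (u := f) (v := G) (u' := deriv f) (v' := g)
    (fun v _ => hfd v) (fun v _ => hGd v) (hfdc.intervalIntegrable _ _) (hgc.intervalIntegrable _ _)
  rw [e1, e2, hGa, mul_zero, sub_zero]
  -- the horizontal integrals
  set H : ℝ → ℝ := fun y => ∫ x in (0:ℝ)..e, ‖zy x y‖ with hH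
  have hHc : Continuous H := intervalIntegral.continuous_parametric_intervalIntegral_of_continuous'
    (f := fun y x : ℝ => ‖zy x y‖) ((zy_cont.comp (by fun_prop : Continuous fun q : ℝ × ℝ => (q.2, q.1))).norm) _ _
  have hH0 : ∀ y, 0 ≤ H y := fun y => intervalIntegral.integral_nonneg he fun x _ => norm_nonneg _
  have hHz : ∀ y, H y = ∫ x in (0:ℝ)..e, ‖zx x y‖ := fun y => by
    simp only [hH]
    refine intervalIntegral.integral_congr fun x hx => ?_
    rw [Set.uIcc_of_le he] at hx
    rw [zy_eq (hx.2.trans he4)]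
  have hGb : ∀ v, a ≤ v → ‖G v‖ ≤ (H (t + h * v) + H (t + h * a)) / h := by
    intro v hv
    have h1 : h * ‖G v‖ = ‖(∫ y in (t + h * a)..(t + h * v), zx e y) - ∫ y in (t + h * a)..(t + h * v), zx 0 y‖ := by
      have h2 : (h : ℂ) * G v = (∫ y in (t + h * a)..(t + h * v), zx e y) - ∫ y in (t + h * a)..(t + h * v), zx 0 y := by
        have h3 := intervalIntegral.smul_integral_comp_add_mul (a := a) (b := v) (f := zx e) (c := h) t
        have h4 := intervalIntegral.smul_integral_comp_add_mul (a := a) (b := v) (f := zx 0) (c := h) t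
        rw [← h3, ← h4, ← smul_sub, ← intervalIntegral.integral_sub ((hze e he4).intervalIntegrable _ _)
          ((hze 0 (by norm_num)).intervalIntegrable _ _), Complex.real_smul]
      rw [← h2, norm_mul, Complex.norm_real, Real.norm_eq_abs, abs_of_pos hh]
    have h5 := rect_diff (x1 := 0) (x2 := e) (c := t + h * a) (d := t + h * v) he he4
      (by have := mul_le_mul_of_nonneg_left hv hh.le; linarith)
    rw [← h1, ← hHz, ← hHz] at h5
    rw [le_div_iff₀ hh, mul_comm]
    exact h5
  have hba : 0 < b - a := by linarith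
  -- the bound
  have hHvc : Continuous fun v => H (t + h * v) := hHc.comp (by fun_prop)
  have h3 : ‖∫ v in a..b, deriv f v * G v‖ ≤ ∫ v in a..b, K * ((H (t + h * v) + H (t + h * a)) / h) := by
    refine intervalIntegral.norm_integral_le_of_norm_le hab.le (ae_of_all _ fun v hv => ?_) ?_
    · rw [norm_mul]
      exact mul_le_mul (hK v ⟨hv.1.le, hv.2⟩) (hGb v hv.1.le) (norm_nonneg _) hK0
    · exact (continuous_const.mul ((hHvc.add continuous_const).div_const h)).intervalIntegrable _ _
  have h4 : ∫ v in a..b, K * ((H (t + h * v) + H (t + h * a)) / h) =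
      K / h * ((∫ v in a..b, H (t + h * v)) + (b - a) * H (t + h * a)) := by
    have e5 : ∀ v : ℝ, K * ((H (t + h * v) + H (t + h * a)) / h) = K / h * (H (t + h * v) + H (t + h * a)) := fun v => by ring
    simp only [e5]
    rw [intervalIntegral.integral_const_mul, intervalIntegral.integral_add (hHvc.intervalIntegrable _ _) (by simp),
      intervalIntegral.integral_const, smul_eq_mul]
  rw [h4] at h3
  have h5 : ‖f b * G b‖ ≤ K / h * (H (t + h * b) + H (t + h * a)) := by
    rw [norm_mul]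
    refine (mul_le_mul hKb (hGb b hab.le) (norm_nonneg _) hK0).trans (le_of_eq ?_)
    ring
  -- the integral of the majorant
  have hsw : ∫ x in (0:ℝ)..e, (∫ v in a..b, ‖zy x (t + h * v)‖) = ∫ v in a..b, H (t + h * v) := by
    simp only [hH]
    refine MeasureTheory.intervalIntegral_intervalIntegral_swap ?_
    refine (((zy_cont.comp (by fun_prop : Continuous fun q : ℝ × ℝ => (q.1, t + h * q.2))).norm.continuousOn
      (s := Set.uIcc 0 e ×ˢ Set.uIcc a b)).integrableOn_compact (isCompact_uIcc.prod isCompact_uIcc)).mono_set ?_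
    exact Set.prod_mono Set.uIoc_subset_uIcc Set.uIoc_subset_uIcc
  have hzt : ∀ y : ℝ, Continuous fun x : ℝ => ‖zy x y‖ := fun y =>
    (zy_cont.comp (by fun_prop : Continuous fun x : ℝ => ((x, y) : ℝ × ℝ))).norm
  have hint : Continuous fun x : ℝ => ∫ v in a..b, ‖zy x (t + h * v)‖ :=
    intervalIntegral.continuous_parametric_intervalIntegral_of_continuous'
      (f := fun x v : ℝ => ‖zy x (t + h * v)‖)
      ((zy_cont.comp (by fun_prop : Continuous fun q : ℝ × ℝ => (q.1, t + h * q.2))).norm) _ _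
  have hWi : ∫ x in (0:ℝ)..e, WW a b h x t = H (t + h * b) + H (t + h * a) + ∫ v in a..b, H (t + h * v) := by
    unfold WW
    have hs : Continuous fun x : ℝ => ‖zy x (t + h * b)‖ + ‖zy x (t + h * a)‖ := (hzt _).add (hzt _)
    rw [intervalIntegral.integral_add (hs.intervalIntegrable _ _) (hint.intervalIntegrable _ _),
      intervalIntegral.integral_add ((hzt _).intervalIntegrable _ _) ((hzt _).intervalIntegrable _ _), hsw]
  rw [hWi]
  have hHb := hH0 (t + h * b)
  have hHa := hH0 (t + h * a)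
  have hHI : 0 ≤ ∫ v in a..b, H (t + h * v) := intervalIntegral.integral_nonneg hab.le fun v _ => hH0 _
  have hKh : 0 ≤ K / h := by positivity
  refine (norm_sub_le _ _).trans ((add_le_add h5 h3).trans ?_)
  have e6 : K * (1 + (b - a)) / h * (H (t + h * b) + H (t + h * a) + ∫ v in a..b, H (t + h * v)) =
      K / h * ((1 + (b - a)) * (H (t + h * b) + H (t + h * a) + ∫ v in a..b, H (t + h * v))) := by ring
  rw [e6, ← mul_add]
  refine mul_le_mul_of_nonneg_left ?_ hKh
  nlinarith [mul_nonneg hba.le hHb, mul_nonneg hba.le hHI]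

end Pool.Agent.H60.LM
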